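import Mathlib

set_option autoImplicit false

namespace Pool.Agent.Helper948.Tile

/-- the mesh -/
def LL (K : ℕ) : ℕ := 18 * K + 7

/-- The hole for an east colour. -/
def HoleE (K e : ℕ) (x y : ℤ) : Prop :=
  0 < e ∧ x + 3 = 18 * K + 7 + 6 * e ∧ (y = 24 * K + 10 ∨ y = 24 * K + 7 + 6 * e)

/-- The hole for a north colour. -/
def HoleN (K n : ℕ) (x y : ℤ) : Prop :=
  0 < n ∧ x = 18 * K + 7 + 6 * n ∧ (y = 24 * K + 10 ∨ y = 24 * K + 10 + 6 * n)

/-- The tooth for a west colour. -/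
def ToothE (K w : ℕ) (x y : ℤ) : Prop :=
  0 < w ∧ x + 3 = 6 * w ∧ (y = 24 * K + 10 ∨ y = 24 * K + 7 + 6 * w)

/-- The tooth for a south colour. -/
def ToothN (K s : ℕ) (x y : ℤ) : Prop :=
  0 < s ∧ x = 18 * K + 7 + 6 * s ∧ (y = 6 * K + 3 ∨ y = 6 * K + 3 + 6 * s)

/-- The body. -/
def Body (K e n w s : ℕ) (x y : ℤ) : Prop :=
  (18 * K + 7 < x ∧ x < 36 * K + 14 ∧ 18 * K + 7 < y ∧ y < 36 * K + 14) ∧
    ¬ HoleE K e x y ∧ ¬ HoleN K n x y ∧ ¬ (w = 0 ∧ s = 0 ∧ x = 18 * K + 8 ∧ y = 18 * K + 8)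

/-- The cells of the tile with colours `e`, `n`, `w`, `s`. -/
def Cell (K e n w s : ℕ) (x y : ℤ) : Prop :=
  Body K e n w s x y ∨ ToothE K w x y ∨ ToothN K s x y

theorem hole_nbr1 {K e n : ℕ} (w s : ℕ) {x y : ℤ} (he : e ≤ K) (hn : n ≤ K)
    (h : HoleE K e x y ∨ HoleN K n x y) : Cell K e n w s (x + 1) y := by
  left
  unfold Body HoleE HoleN at *
  omega

theorem hole_nbr2 {K e n : ℕ} (w s : ℕ) {x y : ℤ} (he : e ≤ K) (hn : n ≤ K)
    (h : HoleE K e x y ∨ HoleN K n x y) : Cell K e n w s (x - 1) y := by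
  left
  unfold Body HoleE HoleN at *
  omega

/-- the surroundings of a hole -/
theorem hole_nbr {K e n : ℕ} (w s : ℕ) {x y : ℤ} (he : e ≤ K) (hn : n ≤ K)
    (h : HoleE K e x y ∨ HoleN K n x y) (a b : ℤ) (hab : |a| + |b| ≤ 2) (h0 : a ≠ 0 ∨ b ≠ 0) :
    Cell K e n w s (x + a) (y + b) := by
  left
  have h1 := abs_le.1 (show |a| ≤ 2 by have := abs_nonneg b; omega)
  have h2 := abs_le.1 (show |b| ≤ 2 by have := abs_nonneg a; omega)
  have h3 : a = 0 ∨ (|a| ≥ 1) := by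
    by_cases ha : a = 0
    · exact Or.inl ha
    · exact Or.inr (Int.one_le_abs ha)
  unfold Body HoleE HoleN at *
  omega

theorem body_nbr {K e n w s : ℕ} {x y : ℤ} (h : Body K e n w s x y) (he : e ≤ K) (_hn : n ≤ K) :
    Cell K e n w s (x + 1) y ∨ Cell K e n w s (x - 1) y := by
  unfold Cell
  by_cases h1 : Body K e n w s (x + 1) y
  · exact Or.inl (Or.inl h1)
  · right
    left
    unfold Body HoleE HoleN at *
    omega

theorem hole_of_not {K e n w s : ℕ} {x y : ℤ} (h1 : 18 * K + 7 < x ∧ x < 36 * K + 14)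
    (h2 : 18 * K + 7 < y ∧ y < 36 * K + 14) (h3 : x ≠ 18 * K + 8) (h : ¬ Cell K e n w s x y) :
    HoleE K e x y ∨ HoleN K n x y := by
  by_contra hc
  push Not at hc
  exact h (Or.inl ⟨⟨h1.1, h1.2, h2.1, h2.2⟩, hc.1, hc.2, fun hh => h3 hh.2.2.1⟩)

/-- A tooth fits only in the right place. -/
theorem fit {K e n w s e' n' w' s' : ℕ} (he : e ≤ K) (hn : n ≤ K)
    (he' : e' ≤ K) (hn' : n' ≤ K) (hw' : w' ≤ K) (hs' : s' ≤ K) {hx hy x y : ℤ}
    (h : HoleE K e hx hy ∨ HoleN K n hx hy) (hc : Cell K e' n' w' s' x y)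
    (hd : ∀ a b : ℤ, Cell K e n w s (hx + a) (hy + b) → ¬ Cell K e' n' w' s' (x + a) (y + b)) :
    (HoleE K e hx hy ∧ w' = e ∧ x = hx - (18 * K + 7) ∧ y = hy) ∨
    (HoleN K n hx hy ∧ s' = n ∧ x = hx ∧ y = hy - (18 * K + 7)) := by
  have hbd : (18 * (K : ℤ) + 10 ≤ hx ∧ hx ≤ 24 * K + 7) ∧
      (24 * (K : ℤ) + 10 ≤ hy ∧ hy ≤ 30 * K + 10) := by
    unfold HoleE HoleN at h
    omega
  have key : ∀ D : ℤ, |D| ≤ 6 * K → Cell K e' n' w' s' (x + 0) (y + D) →
      HoleE K e (hx + 0) (hy + D) ∨ HoleN K n (hx + 0) (hy + D) := by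
    intro D hD hcell
    rw [abs_le] at hD
    have h4 : ¬ Cell K e n w s (hx + 0) (hy + D) := fun hh => hd 0 D hh hcell
    refine hole_of_not ?_ ?_ ?_ h4
    · omega
    · omega
    · omega
  rcases hc with hb | ht | ht
  · exfalso
    rcases body_nbr hb he' hn' with h1 | h1
    · refine hd 1 0 ?_ (by simpa using h1)
      simpa using hole_nbr1 w s he hn h
    · refine hd (-1) 0 ?_ (by simpa [sub_eq_add_neg] using h1)
      simpa [sub_eq_add_neg] using hole_nbr2 w s he hn h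
  · left
    obtain ⟨hw0, hx1, hy1⟩ := ht
    rcases hy1 with hy1 | hy1
    · have h3 : Cell K e' n' w' s' (x + 0) (y + (6 * w' - 3)) := by
        right; left
        unfold ToothE
        omega
      have h4 := key (6 * w' - 3) (by rw [abs_le]; omega) h3
      unfold HoleE HoleN at *
      omega
    · have h3 : Cell K e' n' w' s' (x + 0) (y + (3 - 6 * w')) := by
        right; left
        unfold ToothE
        omega
      have h4 := key (3 - 6 * w') (by rw [abs_le]; omega) h3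
      unfold HoleE HoleN at *
      omega
  · right
    obtain ⟨hw0, hx1, hy1⟩ := ht
    rcases hy1 with hy1 | hy1
    · have h3 : Cell K e' n' w' s' (x + 0) (y + (6 * s')) := by
        right; right
        unfold ToothN
        omega
      have h4 := key (6 * s') (by rw [abs_le]; omega) h3
      unfold HoleE HoleN at *
      omega
    · have h3 : Cell K e' n' w' s' (x + 0) (y + (-(6 * s'))) := by
        right; right
        unfold ToothN
        omega
      have h4 := key (-(6 * s')) (by rw [abs_le]; omega) h3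
      unfold HoleE HoleN at *
      omega

end Pool.Agent.Helper948.Tile
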