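import Mathlib

set_option autoImplicit false

namespace Pool.Agent.Helper948.Tile

/-- The points of the Bernoulli shift `2^(ℤ^n)`. -/
abbrev Cfg (n : ℕ) : Type := (Fin n → ℤ) → Bool

/-- The shift action: `(g · x)(h) = x(h + g)`. -/
def shift {n : ℕ} (g : Fin n → ℤ) (x : Cfg n) : Cfg n := fun h => x (h + g)

/-- The free part `F(2^(ℤ^n))`, with the subspace topology of the product topology. -/
abbrev Free (n : ℕ) : Type := {x : Cfg n // ∀ g : Fin n → ℤ, g ≠ 0 → shift g x ≠ x}

theorem shift_shift {n : ℕ} (g h : Fin n → ℤ) (x : Cfg n) :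
    shift g (shift h x) = shift (g + h) x := by
  funext k
  simp [shift, add_assoc]

theorem shift_zero {n : ℕ} (x : Cfg n) : shift 0 x = x := by
  funext k
  simp [shift]

/-- The action on the free part. -/
def act {n : ℕ} (g : Fin n → ℤ) (x : Free n) : Free n :=
  ⟨shift g x.1, by
    intro h hh e
    apply x.2 h hh
    have := congrArg (shift (-g)) e
    rw [shift_shift, shift_shift, shift_shift] at this
    rw [show -g + h + g = h by abel, show -g + g = 0 by abel, shift_zero] at this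
    exact this⟩

/-- The translates `g + T`, for `T` in `𝒯` and `g ∈ A T`, form a tiling of `ℤ^n`: every point lies
in exactly one of them. -/
def IsTiling {n : ℕ} (𝒯 : Set (Finset (Fin n → ℤ))) (A : Finset (Fin n → ℤ) → Set (Fin n → ℤ)) :
    Prop :=
  ∀ u : Fin n → ℤ, ∃! p : (Fin n → ℤ) × Finset (Fin n → ℤ),
    p.2 ∈ 𝒯 ∧ p.1 ∈ A p.2 ∧ u - p.1 ∈ p.2

/-- The set of tiles `𝒯` tiles `ℤ^n`. -/
def TilesSpace {n : ℕ} (𝒯 : Set (Finset (Fin n → ℤ))) : Prop := ∃ A, IsTiling 𝒯 A

/-- The free part admits a continuous tiling with `𝒯`. -/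
def HasContTiling {n : ℕ} (𝒯 : Set (Finset (Fin n → ℤ))) : Prop :=
  ∃ C : Finset (Fin n → ℤ) → Set (Free n), (∀ T ∈ 𝒯, IsClopen (C T)) ∧
    ∀ x : Free n, IsTiling 𝒯 (fun T => {g | act g x ∈ C T})

/-- The set of tiles given by a list of lists of vectors. -/
def tileSet {n : ℕ} (L : List (List (Fin n → ℤ))) : Set (Finset (Fin n → ℤ)) :=
  {T | ∃ l ∈ L, T = l.toFinset}

end Pool.Agent.Helper948.Tile
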