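import Mathlib
import Pool.Agent.Helper948.Tile.Defs

set_option autoImplicit false

namespace Pool.Agent.Helper948.Tile

/-- the exponent of `3` in an integer -/
def vv (i : ℤ) : ℕ := padicValInt 3 i

theorem vv_eq (k : ℕ) (m : ℤ) (hm : ¬ (3 : ℤ) ∣ m) : vv (3 ^ k * m) = k := by
  have hm0 : m ≠ 0 := by
    rintro rfl
    exact hm (dvd_zero _)
  have h3 : (3 : ℤ) ^ k ≠ 0 := pow_ne_zero _ (by norm_num)
  have : Fact (Nat.Prime 3) := ⟨Nat.prime_three⟩
  unfold vv
  rw [padicValInt.mul h3 hm0]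
  have e1 : padicValInt 3 m = 0 := padicValInt.eq_zero_of_not_dvd hm
  have e2 : padicValInt 3 ((3 : ℤ) ^ k) = k := by
    have : ((3 : ℤ) ^ k) = ((3 ^ k : ℕ) : ℤ) := by push_cast; rfl
    rw [this, padicValInt.of_nat, padicValNat.prime_pow]
  rw [e1, e2, add_zero]

theorem exists_form (i : ℤ) (hi : i ≠ 0) : ∃ (k : ℕ) (m : ℤ), ¬ (3 : ℤ) ∣ m ∧ i = 3 ^ k * m := by
  obtain ⟨n, hn⟩ : ∃ n : ℕ, n = i.natAbs := ⟨_, rfl⟩
  induction n using Nat.strong_induction_on generalizing i with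
  | _ n ih =>
    by_cases h : (3 : ℤ) ∣ i
    · obtain ⟨j, rfl⟩ := h
      have hj : j ≠ 0 := by
        rintro rfl
        exact hi (by norm_num)
      obtain ⟨k, m, hm, e⟩ := ih j.natAbs (by omega) j hj rfl
      exact ⟨k + 1, m, hm, by rw [e]; ring⟩
    · exact ⟨0, i, h, by ring⟩

/-- local periodicity of the valuation -/
theorem vv_period (k : ℕ) (i : ℤ) (h1 : 1 ≤ i) (h2 : i ≤ 2 * 3 ^ k - 1) : vv (i + 3 ^ k) = vv i := by
  obtain ⟨a, m, hm, e⟩ := exists_form i (by omega)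
  by_cases hak : a < k
  · obtain ⟨b, rfl⟩ : ∃ b, k = a + (b + 1) := ⟨k - a - 1, by omega⟩
    have e2 : i + 3 ^ (a + (b + 1)) = 3 ^ a * (m + 3 * 3 ^ b) := by
      rw [e]; ring
    rw [e2, e, vv_eq a m hm, vv_eq a _ (by
      intro hd
      apply hm
      have h3 : (3 : ℤ) ∣ 3 * 3 ^ b := dvd_mul_right _ _
      exact (dvd_add_left h3).1 hd)]
  · obtain ⟨b, rfl⟩ : ∃ b, a = k + b := ⟨a - k, by omega⟩
    have hp : (0 : ℤ) < 3 ^ k := by positivity
    have e3 : i = 3 ^ k * (3 ^ b * m) := by rw [e]; ring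
    have hlt : (3 : ℤ) ^ b * m < 2 := by
      by_contra hc
      push Not at hc
      nlinarith
    have hgt : 0 < (3 : ℤ) ^ b * m := by
      by_contra hc
      push Not at hc
      nlinarith
    have e4 : (3 : ℤ) ^ b * m = 1 := by omega
    have e5 : i = 3 ^ k := by rw [e3, e4, mul_one]
    have e6 : i + 3 ^ k = 3 ^ k * 2 := by rw [e5]; ring
    have e7 : i = 3 ^ k * 1 := by rw [e5, mul_one]
    rw [e6, vv_eq k 2 (by norm_num), e7, vv_eq k 1 (by norm_num)]

/-- every window contains a prescribed residue -/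
theorem exists_residue (N : ℤ) (hN : 0 < N) (r c : ℤ) :
    ∃ t : ℤ, c ≤ r + N * t ∧ r + N * t < c + N := by
  refine ⟨-((r - c) / N), ?_, ?_⟩
  · have := Int.emod_nonneg (r - c) (show N ≠ 0 by omega)
    have h2 := Int.emod_add_mul_ediv (r - c) N
    nlinarith
  · have := Int.emod_lt_of_pos (r - c) hN
    have h2 := Int.emod_add_mul_ediv (r - c) N
    nlinarith

/-- the differences of the valuation are not constant modulo two on long windows -/
theorem vv_window (a : ℤ) (ha : a ≠ 0) : ∃ N : ℕ, ∀ c : ℤ,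
    (∃ t : ℕ, t < N ∧ (vv (c + t + a) + vv (c + t)) % 2 = 0) ∧
    (∃ t : ℕ, t < N ∧ (vv (c + t + a) + vv (c + t)) % 2 = 1) := by
  obtain ⟨s, m, hm, e⟩ := exists_form a ha
  refine ⟨3 ^ (s + 2), fun c => ⟨?_, ?_⟩⟩
  · obtain ⟨t, h1, h2⟩ := exists_residue (3 ^ (s + 1)) (by positivity) a c
    obtain ⟨u, hu⟩ : ∃ u : ℕ, (u : ℤ) = a + 3 ^ (s + 1) * t - c :=
      ⟨(a + 3 ^ (s + 1) * t - c).toNat, by omega⟩
    refine ⟨u, ?_, ?_⟩
    · have h3 : (u : ℤ) < 3 ^ (s + 1) := by omega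
      have h4 : (3 : ℤ) ^ (s + 1) ≤ 3 ^ (s + 2) := by
        rw [pow_succ (3 : ℤ) (s + 1)]
        have : (0 : ℤ) < 3 ^ (s + 1) := by positivity
        linarith
      have h5 : (u : ℤ) < ((3 ^ (s + 2) : ℕ) : ℤ) := by push_cast; linarith
      exact_mod_cast h5
    · have e1 : c + u = 3 ^ s * (m + 3 * t) := by
        rw [hu, e]; ring
      have e2 : c + u + a = 3 ^ s * (2 * m + 3 * t) := by
        rw [e1, e]; ring
      rw [e2, e1, vv_eq s _ (by omega), vv_eq s _ (by omega)]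
      omega
  · obtain ⟨t, h1, h2⟩ := exists_residue (3 ^ (s + 2)) (by positivity) (3 ^ (s + 1)) c
    obtain ⟨u, hu⟩ : ∃ u : ℕ, (u : ℤ) = 3 ^ (s + 1) + 3 ^ (s + 2) * t - c :=
      ⟨(3 ^ (s + 1) + 3 ^ (s + 2) * t - c).toNat, by omega⟩
    refine ⟨u, ?_, ?_⟩
    · have h5 : (u : ℤ) < ((3 ^ (s + 2) : ℕ) : ℤ) := by push_cast; linarith
      exact_mod_cast h5
    · have e1 : c + u = 3 ^ (s + 1) * (1 + 3 * t) := by
        rw [hu]; ring
      have e2 : c + u + a = 3 ^ s * (3 * (1 + 3 * t) + m) := by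
        rw [e1, e]; ring
      rw [e2, e1, vv_eq s _ (by omega), vv_eq (s + 1) _ (by omega)]
      omega

/-- the Toeplitz configuration -/
def toep (n : ℕ) : Cfg n := fun v => decide ((∑ j, vv (v j)) % 2 = 1)

theorem toep_eq_iff {n : ℕ} (v w : Fin n → ℤ) :
    toep n v = toep n w ↔ (∑ j, vv (v j) + ∑ j, vv (w j)) % 2 = 0 := by
  unfold toep
  rw [decide_eq_decide]
  omega

theorem sum_update {n : ℕ} (v : Fin n → ℤ) (i : Fin n) (a : ℤ) :
    ∑ j, vv (Function.update v i a j) + vv (v i) = ∑ j, vv (v j) + vv a := by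
  have h1 := Finset.add_sum_erase Finset.univ (fun j => vv (Function.update v i a j))
    (Finset.mem_univ i)
  have h2 := Finset.add_sum_erase Finset.univ (fun j => vv (v j)) (Finset.mem_univ i)
  have h3 : ∑ j ∈ Finset.univ.erase i, vv (Function.update v i a j) =
      ∑ j ∈ Finset.univ.erase i, vv (v j) := by
    apply Finset.sum_congr rfl
    intro j hj
    rw [Function.update_of_ne (Finset.ne_of_mem_erase hj)]
  rw [← h1, ← h2, h3, Function.update_self]
  omega

/-- periodicity of the configuration in the direction `i` -/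
theorem toep_period {n : ℕ} (k : ℕ) (i : Fin n) (v : Fin n → ℤ) (h1 : 1 ≤ v i)
    (h2 : v i ≤ 2 * 3 ^ k - 1) : toep n (v + Pi.single i (3 ^ k)) = toep n v := by
  rw [toep_eq_iff]
  have e : v + Pi.single i (3 ^ k) = Function.update v i (v i + 3 ^ k) := by
    funext j
    by_cases hj : j = i
    · subst hj
      simp
    · simp [hj]
  have := sum_update v i (v i + 3 ^ k)
  rw [e]
  rw [vv_period k _ h1 h2] at this
  omega

/-- No translation preserves the configuration locally. -/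
theorem toep_window {n : ℕ} (g : Fin n → ℤ) (hg : g ≠ 0) : ∃ N : Finset (Fin n → ℤ),
    ∀ h : Fin n → ℤ, ∃ t ∈ N, toep n (h + t + g) ≠ toep n (h + t) := by
  obtain ⟨i, hi⟩ : ∃ i, g i ≠ 0 := by
    by_contra hc
    push Not at hc
    exact hg (funext hc)
  obtain ⟨N, hN⟩ := vv_window (g i) hi
  refine ⟨(Finset.range N).image (fun t : ℕ => Pi.single i (t : ℤ)), fun h => ?_⟩
  by_contra hc
  push Not at hc
  have key : ∀ t : ℕ, t < N →
      (∑ j, vv ((h + g) j) + ∑ j, vv (h j) + vv (h i + g i) + vv (h i) +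
        (vv (h i + t + g i) + vv (h i + t))) % 2 = 0 := by
    intro t ht
    have h1 := hc (Pi.single i (t : ℤ)) (Finset.mem_image.2 ⟨t, Finset.mem_range.2 ht, rfl⟩)
    rw [toep_eq_iff] at h1
    have e1 : h + Pi.single i (t : ℤ) + g = Function.update (h + g) i (h i + t + g i) := by
      funext j
      by_cases hj : j = i
      · subst hj
        simp
      · simp [hj]
    have e2 : h + Pi.single i (t : ℤ) = Function.update h i (h i + t) := by
      funext j
      by_cases hj : j = i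
      · subst hj
        simp
      · simp [hj]
    rw [e1, e2] at h1
    have h3 := sum_update (h + g) i (h i + t + g i)
    have h4 := sum_update h i (h i + t)
    have h5 : (h + g) i = h i + g i := rfl
    rw [h5] at h3
    omega
  obtain ⟨⟨t1, ht1, e1⟩, ⟨t2, ht2, e2⟩⟩ := hN (h i)
  have k1 := key t1 ht1
  have k2 := key t2 ht2
  omega

end Pool.Agent.Helper948.Tile
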