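import Mathlib
import Pool.Agent.Helper948.Tile.Toep

set_option autoImplicit false

namespace Pool.Agent.Helper948.Tile

/-- the embedding of the plane -/
def emb (n : ℕ) (v : ℤ × ℤ) : Fin n → ℤ :=
  fun i => if i.val = 0 then v.1 else if i.val = 1 then v.2 else 0

theorem emb_add (n : ℕ) (v w : ℤ × ℤ) : emb n (v + w) = emb n v + emb n w := by
  funext i
  simp only [emb, Pi.add_apply]
  split_ifs <;> simp

theorem emb_sub (n : ℕ) (v w : ℤ × ℤ) : emb n (v - w) = emb n v - emb n w := by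
  funext i
  simp only [emb, Pi.sub_apply]
  split_ifs <;> simp

theorem emb_zero (n : ℕ) : emb n 0 = 0 := by
  funext i
  simp only [emb, Pi.zero_apply]
  split_ifs <;> simp

theorem emb_inj {n : ℕ} (hn : 2 ≤ n) : Function.Injective (emb n) := by
  intro v w h
  have h0 := congrFun h ⟨0, by omega⟩
  have h1 := congrFun h ⟨1, by omega⟩
  simp only [emb] at h0 h1
  ext
  · simpa using h0
  · simpa using h1

theorem emb_x {n : ℕ} (hn : 2 ≤ n) (a : ℤ) : emb n (a, 0) = Pi.single ⟨0, by omega⟩ a := by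
  funext i
  simp only [emb, Pi.single_apply, Fin.ext_iff]
  split_ifs <;> rfl

theorem emb_y {n : ℕ} (hn : 2 ≤ n) (a : ℤ) : emb n (0, a) = Pi.single ⟨1, by omega⟩ a := by
  funext i
  simp only [emb, Pi.single_apply, Fin.ext_iff]
  split_ifs <;> first | rfl | omega

/-- exact covers of the plane -/
def Cover (𝒯 : Set (Finset (ℤ × ℤ))) (A : Finset (ℤ × ℤ) → Set (ℤ × ℤ)) : Prop :=
  ∀ u : ℤ × ℤ, ∃! q : (ℤ × ℤ) × Finset (ℤ × ℤ), q.2 ∈ 𝒯 ∧ q.1 ∈ A q.2 ∧ u - q.1 ∈ q.2

/-- the orbit closure -/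
def orb (n : ℕ) : Set (Cfg n) := closure (Set.range fun g : Fin n → ℤ => shift g (toep n))

theorem orb_free {n : ℕ} (y : Cfg n) (hy : y ∈ orb n) (g : Fin n → ℤ) (hg : g ≠ 0) :
    shift g y ≠ y := by
  obtain ⟨N, hN⟩ := toep_window g hg
  have hcl : IsClosed {z : Cfg n | ∃ t ∈ N, z (t + g) ≠ z t} := by
    have : {z : Cfg n | ∃ t ∈ N, z (t + g) ≠ z t} = ⋃ t ∈ N, {z : Cfg n | z (t + g) ≠ z t} := by
      ext z
      simp
    rw [this]
    refine Set.Finite.isClosed_biUnion (Finset.finite_toSet N) (fun t _ => ?_)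
    have h1 : Continuous (fun z : Cfg n => (z (t + g), z t)) := by fun_prop
    have h2 : IsClosed {p : Bool × Bool | p.1 ≠ p.2} := isClosed_discrete _
    exact h2.preimage h1
  have hsub : (Set.range fun h : Fin n → ℤ => shift h (toep n)) ⊆
      {z : Cfg n | ∃ t ∈ N, z (t + g) ≠ z t} := by
    rintro z ⟨h, rfl⟩
    obtain ⟨t, ht, e⟩ := hN h
    refine ⟨t, ht, ?_⟩
    simp only [shift]
    rw [show t + g + h = h + t + g by abel, show t + h = h + t by abel]
    exact e
  have := closure_minimal hsub hcl hy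
  obtain ⟨t, _, e⟩ := this
  intro hc
  apply e
  exact congrFun hc t

theorem mem_orb {n : ℕ} (g : Fin n → ℤ) : shift g (toep n) ∈ orb n :=
  subset_closure ⟨g, rfl⟩

/-- the Toeplitz point of the free part -/
def x0 (n : ℕ) : Free n := ⟨toep n, fun g hg => by
  have := mem_orb (n := n) 0
  rw [shift_zero] at this
  exact orb_free _ this g hg⟩

theorem open_window {n : ℕ} (O : Set (Cfg n)) (hO : IsOpen O) (y : Cfg n) (hy : y ∈ O) :
    ∃ W : Finset (Fin n → ℤ), ∀ z : Cfg n, (∀ h ∈ W, y h = z h) → z ∈ O := by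
  obtain ⟨I, u, h1, h2⟩ := isOpen_pi_iff.1 hO y hy
  refine ⟨I, fun z hz => h2 ?_⟩
  intro a ha
  rw [← hz a ha]
  exact (h1 a ha).2

theorem clopen_window {n : ℕ} (C : Set (Free n)) (hC : IsClopen C) (y : Free n) :
    ∃ W : Finset (Fin n → ℤ), ∀ z : Free n, (∀ h ∈ W, y.1 h = z.1 h) → (y ∈ C ↔ z ∈ C) := by
  by_cases hy : y ∈ C
  · obtain ⟨O, hO, e⟩ := isOpen_induced_iff.1 hC.isOpen
    obtain ⟨W, hW⟩ := open_window O hO y.1 (by rw [← e] at hy; exact hy)
    refine ⟨W, fun z hz => ⟨fun _ => ?_, fun _ => hy⟩⟩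
    rw [← e]
    exact hW z.1 hz
  · obtain ⟨O, hO, e⟩ := isOpen_induced_iff.1 hC.compl.isOpen
    obtain ⟨W, hW⟩ := open_window O hO y.1 (by
      have : y ∈ Cᶜ := hy
      rw [← e] at this
      exact this)
    refine ⟨W, fun z hz => ⟨fun h => absurd h hy, fun h => ?_⟩⟩
    exfalso
    have : z ∈ Cᶜ := by
      rw [← e]
      exact hW z.1 hz
    exact this h

theorem uniform_window {n : ℕ} {ι : Type} (S : Finset ι) (C : ι → Set (Free n))
    (hC : ∀ i ∈ S, IsClopen (C i)) :
    ∃ W : Finset (Fin n → ℤ), ∀ y z : Free n, y.1 ∈ orb n → (∀ h ∈ W, y.1 h = z.1 h) →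
      ∀ i ∈ S, (y ∈ C i ↔ z ∈ C i) := by
  classical
  have hK : IsCompact (orb n) := isClosed_closure.isCompact
  refine hK.induction_on (p := fun s => ∃ W : Finset (Fin n → ℤ), ∀ y z : Free n, y.1 ∈ s →
    (∀ h ∈ W, y.1 h = z.1 h) → ∀ i ∈ S, (y ∈ C i ↔ z ∈ C i)) ?_ ?_ ?_ ?_
  · exact ⟨∅, fun y z hy => absurd hy (Set.notMem_empty _)⟩
  · rintro s t hst ⟨W, hW⟩
    exact ⟨W, fun y z hy => hW y z (hst hy)⟩
  · rintro s t ⟨W1, h1⟩ ⟨W2, h2⟩
    refine ⟨W1 ∪ W2, fun y z hy hz => ?_⟩
    rcases hy with hy | hy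
    · exact h1 y z hy (fun h hh => hz h (Finset.mem_union_left _ hh))
    · exact h2 y z hy (fun h hh => hz h (Finset.mem_union_right _ hh))
  · intro y hy
    have hfree : ∀ g : Fin n → ℤ, g ≠ 0 → shift g y ≠ y := fun g hg => orb_free y hy g hg
    have key : ∀ i : ι, ∃ W : Finset (Fin n → ℤ), i ∈ S → ∀ z : Free n,
        (∀ h ∈ W, y h = z.1 h) → ((⟨y, hfree⟩ : Free n) ∈ C i ↔ z ∈ C i) := by
      intro i
      by_cases hi : i ∈ S
      · obtain ⟨W, hW⟩ := clopen_window (C i) (hC i hi) ⟨y, hfree⟩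
        exact ⟨W, fun _ => hW⟩
      · exact ⟨∅, fun h => absurd h hi⟩
    choose W hW using key
    let W' : Finset (Fin n → ℤ) := S.biUnion W
    refine ⟨{z | ∀ h ∈ W', y h = z h}, ?_, W', ?_⟩
    · apply mem_nhdsWithin_of_mem_nhds
      have : {z : Cfg n | ∀ h ∈ W', y h = z h} = ⋂ h ∈ W', {z : Cfg n | y h = z h} := by
        ext z
        simp
      rw [this]
      refine (Filter.biInter_finset_mem W').2 (fun h _ => ?_)
      have h1 : Continuous (fun z : Cfg n => z h) := continuous_apply h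
      have h2 : IsOpen {b : Bool | y h = b} := isOpen_discrete _
      exact (h2.preimage h1).mem_nhds rfl
    · intro a b ha hab i hi
      have ha' : ∀ h ∈ W i, y h = a.1 h := fun h hh =>
        ha h (Finset.mem_biUnion.2 ⟨i, hi, hh⟩)
      have hb' : ∀ h ∈ W i, y h = b.1 h := fun h hh => by
        rw [ha' h hh]
        exact hab h (Finset.mem_biUnion.2 ⟨i, hi, hh⟩)
      rw [← hW i hi a ha', ← hW i hi b hb']

theorem exists_bound {α : Type} (S : Finset α) (f : α → ℤ) : ∃ w : ℕ, ∀ s ∈ S, |f s| ≤ w := by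
  classical
  refine ⟨∑ s ∈ S, (f s).natAbs, fun s hs => ?_⟩
  have h1 : (f s).natAbs ≤ ∑ s ∈ S, (f s).natAbs :=
    Finset.single_le_sum (f := fun s => (f s).natAbs) (fun _ _ => Nat.zero_le _) hs
  rw [Int.abs_eq_natAbs]
  exact_mod_cast h1

/-- reduction modulo `p` to an interval -/
def red (c p z : ℤ) : ℤ := c + (z - c) % p

theorem red_bd (c p z : ℤ) (hp : 0 < p) : c ≤ red c p z ∧ red c p z < c + p := by
  unfold red
  have h1 := Int.emod_nonneg (z - c) (show p ≠ 0 by omega)
  have h2 := Int.emod_lt_of_pos (z - c) hp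
  omega

theorem red_eq (c p z : ℤ) : ∃ a : ℤ, z = red c p z + p * a := by
  refine ⟨(z - c) / p, ?_⟩
  unfold red
  have := Int.emod_add_mul_ediv (z - c) p
  omega

theorem red_add (c p z a : ℤ) : red c p (z + p * a) = red c p z := by
  unfold red
  have : z + p * a - c = z - c + p * a := by ring
  rw [this, Int.add_mul_emod_self_left]

theorem red_of_mem (c p z : ℤ) (h1 : c ≤ z) (h2 : z < c + p) : red c p z = z := by
  unfold red
  rw [Int.emod_eq_of_lt (by omega) (by omega)]
  omega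

/-- A continuous tiling yields a periodic tiling of the plane. -/
theorem periodic_of_cont {n : ℕ} (hn : 2 ≤ n) (𝒯 : Finset (Finset (ℤ × ℤ)))
    (h : HasContTiling {T' : Finset (Fin n → ℤ) | ∃ T ∈ 𝒯, T' = T.image (emb n)}) :
    ∃ (k : ℕ) (A : Finset (ℤ × ℤ) → Set (ℤ × ℤ)), Cover (𝒯 : Set (Finset (ℤ × ℤ))) A ∧
      ∀ T v, (v ∈ A T ↔ v + (3 ^ k, 0) ∈ A T) ∧ (v ∈ A T ↔ v + (0, 3 ^ k) ∈ A T) := by
  classical
  obtain ⟨C, hC, htil⟩ := h
  obtain ⟨W, hW⟩ := uniform_window 𝒯 (fun T => C (T.image (emb n)))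
    (fun T hT => hC _ ⟨T, hT, rfl⟩)
  obtain ⟨w1, hw1⟩ := exists_bound W (fun g => g ⟨0, by omega⟩)
  obtain ⟨w2, hw2⟩ := exists_bound W (fun g => g ⟨1, by omega⟩)
  obtain ⟨D1, hD1⟩ := exists_bound (𝒯.biUnion id) (fun t => t.1)
  obtain ⟨D2, hD2⟩ := exists_bound (𝒯.biUnion id) (fun t => t.2)
  obtain ⟨w, hw⟩ : ∃ w : ℤ, w = w1 + w2 := ⟨_, rfl⟩
  obtain ⟨D, hD⟩ : ∃ D : ℤ, D = D1 + D2 := ⟨_, rfl⟩
  obtain ⟨k, hk⟩ : ∃ k : ℕ, 2 * w + 2 * D + 10 ≤ (3 : ℤ) ^ k := by
    refine ⟨(2 * w + 2 * D + 10).toNat, ?_⟩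
    have h1 : (2 * w + 2 * D + 10).toNat < 3 ^ (2 * w + 2 * D + 10).toNat :=
      Nat.lt_pow_self (by norm_num)
    have h2 : ((2 * w + 2 * D + 10).toNat : ℤ) < ((3 ^ (2 * w + 2 * D + 10).toNat : ℕ) : ℤ) := by
      exact_mod_cast h1
    push_cast at h2
    omega
  obtain ⟨p, hp⟩ : ∃ p : ℤ, p = 3 ^ k := ⟨_, rfl⟩
  have hw0 : 0 ≤ w := by omega
  have hD0 : 0 ≤ D := by omega
  have hp0 : 0 < p := by omega
  obtain ⟨c, hc⟩ : ∃ c : ℤ, c = 1 + w + D := ⟨_, rfl⟩
  have stepx : ∀ T ∈ 𝒯, ∀ g : ℤ × ℤ, 1 + w ≤ g.1 → g.1 ≤ 2 * p - 1 - w →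
      (act (emb n g) (x0 n) ∈ C (T.image (emb n)) ↔
        act (emb n (g + (p, 0))) (x0 n) ∈ C (T.image (emb n))) := by
    intro T hT g h1 h2
    refine hW _ _ (mem_orb _) ?_ T hT
    intro h hh
    have hb := hw1 h hh
    rw [abs_le] at hb
    change toep n (h + emb n g) = toep n (h + emb n (g + (p, 0)))
    rw [emb_add, emb_x hn, ← add_assoc, hp]
    refine (toep_period k ⟨0, by omega⟩ (h + emb n g) ?_ ?_).symm
    · simp only [Pi.add_apply, emb]
      simp only [if_true]
      omega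
    · simp only [Pi.add_apply, emb]
      simp only [if_true]
      omega
  have stepy : ∀ T ∈ 𝒯, ∀ g : ℤ × ℤ, 1 + w ≤ g.2 → g.2 ≤ 2 * p - 1 - w →
      (act (emb n g) (x0 n) ∈ C (T.image (emb n)) ↔
        act (emb n (g + (0, p))) (x0 n) ∈ C (T.image (emb n))) := by
    intro T hT g h1 h2
    refine hW _ _ (mem_orb _) ?_ T hT
    intro h hh
    have hb := hw2 h hh
    rw [abs_le] at hb
    change toep n (h + emb n g) = toep n (h + emb n (g + (0, p)))
    rw [emb_add, emb_y hn, ← add_assoc, hp]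
    refine (toep_period k ⟨1, by omega⟩ (h + emb n g) ?_ ?_).symm
    · simp only [Pi.add_apply, emb]
      simp only [one_ne_zero, if_false, if_true]
      omega
    · simp only [Pi.add_apply, emb]
      simp only [one_ne_zero, if_false, if_true]
      omega
  have nearx : ∀ T ∈ 𝒯, ∀ a b : ℤ, c - D ≤ a → a ≤ c + p + D →
      (act (emb n (red c p a, b)) (x0 n) ∈ C (T.image (emb n)) ↔
        act (emb n (a, b)) (x0 n) ∈ C (T.image (emb n))) := by
    intro T hT a b h1 h2
    by_cases h3 : a < c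
    · have e : red c p a = a + p := by
        have := red_add c p a 1
        rw [mul_one] at this
        rw [← this, red_of_mem c p (a + p) (by omega) (by omega)]
      rw [e, stepx T hT (a, b) (by simp only; omega) (by simp only; omega)]
      simp
    · by_cases h4 : a < c + p
      · rw [red_of_mem c p a (by omega) h4]
      · have e : red c p a = a - p := by
          have := red_add c p a (-1)
          rw [← this, red_of_mem c p _ (by omega) (by omega)]
          ring
        rw [e, stepx T hT (a - p, b) (by simp only; omega) (by simp only; omega)]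
        simp
  have neary : ∀ T ∈ 𝒯, ∀ a b : ℤ, c - D ≤ b → b ≤ c + p + D →
      (act (emb n (a, red c p b)) (x0 n) ∈ C (T.image (emb n)) ↔
        act (emb n (a, b)) (x0 n) ∈ C (T.image (emb n))) := by
    intro T hT a b h1 h2
    by_cases h3 : b < c
    · have e : red c p b = b + p := by
        have := red_add c p b 1
        rw [mul_one] at this
        rw [← this, red_of_mem c p (b + p) (by omega) (by omega)]
      rw [e, stepy T hT (a, b) (by simp only; omega) (by simp only; omega)]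
      simp
    · by_cases h4 : b < c + p
      · rw [red_of_mem c p b (by omega) h4]
      · have e : red c p b = b - p := by
          have := red_add c p b (-1)
          rw [← this, red_of_mem c p _ (by omega) (by omega)]
          ring
        rw [e, stepy T hT (a, b - p) (by simp only; omega) (by simp only; omega)]
        simp
  refine ⟨k, fun T => {v | act (emb n (red c p v.1, red c p v.2)) (x0 n) ∈ C (T.image (emb n))},
    ?_, ?_⟩
  · intro u
    obtain ⟨a, ha⟩ := red_eq c p u.1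
    obtain ⟨b, hb⟩ := red_eq c p u.2
    have bd1 := red_bd c p u.1 hp0
    have bd2 := red_bd c p u.2 hp0
    obtain ⟨⟨g', T'⟩, ⟨⟨T, hT, eT⟩, hmem, hin⟩, huniq⟩ :=
      htil (x0 n) (emb n (red c p u.1, red c p u.2))
    simp only at eT hmem hin huniq
    have tb : ∀ T ∈ 𝒯, ∀ t ∈ T, |t.1| ≤ D ∧ |t.2| ≤ D := by
      intro T hT t ht
      have h1 := hD1 t (Finset.mem_biUnion.2 ⟨T, hT, ht⟩)
      have h2 := hD2 t (Finset.mem_biUnion.2 ⟨T, hT, ht⟩)
      constructor <;> omega
    have conv : ∀ T ∈ 𝒯, ∀ t ∈ T,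
        (act (emb n (red c p (u.1 - t.1), red c p (u.2 - t.2))) (x0 n) ∈ C (T.image (emb n)) ↔
        act (emb n ((red c p u.1, red c p u.2) - t)) (x0 n) ∈ C (T.image (emb n))) := by
      intro T hT t ht
      obtain ⟨h1, h2⟩ := tb T hT t ht
      rw [abs_le] at h1 h2
      have e1 : red c p (u.1 - t.1) = red c p (red c p u.1 - t.1) := by
        rw [← red_add c p (red c p u.1 - t.1) a]
        congr 1
        omega
      have e2 : red c p (u.2 - t.2) = red c p (red c p u.2 - t.2) := by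
        rw [← red_add c p (red c p u.2 - t.2) b]
        congr 1
        omega
      rw [e1, e2, nearx T hT _ _ (by omega) (by omega), neary T hT _ _ (by omega) (by omega)]
      rfl
    refine ⟨⟨u - ?_, T⟩, ?_, ?_⟩
    · exact (red c p u.1, red c p u.2) - Classical.choose
        (show ∃ v, emb n v = g' by
          rw [eT, Finset.mem_image] at hin
          obtain ⟨t, _, ht⟩ := hin
          exact ⟨(red c p u.1, red c p u.2) - t, by rw [emb_sub, ht]; abel⟩)
    · generalize_proofs pf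
      have hv := Classical.choose_spec pf
      generalize Classical.choose pf = v at hv
      rw [eT, Finset.mem_image] at hin
      obtain ⟨t, ht, et⟩ := hin
      rw [← hv, ← emb_sub] at et
      have et := emb_inj hn et
      rw [← et]
      refine ⟨hT, ?_, ?_⟩
      · change act (emb n (red c p (u.1 - t.1), red c p (u.2 - t.2))) (x0 n) ∈
          C (T.image (emb n))
        rw [conv T hT t ht, et, ← eT]
        have e3 : (red c p u.1, red c p u.2) - ((red c p u.1, red c p u.2) - v) = v := by abel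
        rw [e3, hv]
        exact hmem
      · simpa using ht
    · generalize_proofs pf
      have hv := Classical.choose_spec pf
      generalize Classical.choose pf = v at hv
      rintro ⟨v2, T2⟩ ⟨hT2, hm2, hin2⟩
      simp only at hT2 hm2 hin2
      have h1 := huniq (emb n ((red c p u.1, red c p u.2) - (u - v2)), T2.image (emb n))
        ⟨⟨T2, hT2, rfl⟩, ?_, ?_⟩
      · rw [Prod.mk.injEq] at h1
        obtain ⟨h2, h3⟩ := h1
        rw [eT] at h3
        have h4 : T2 = T := Finset.image_injective (emb_inj hn) h3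
        rw [← hv] at h2
        have h5 := emb_inj hn h2
        rw [h4, ← h5]
        congr 1
        abel
      · have := (conv T2 hT2 (u - v2) hin2).1 (by
          have e1 : u.1 - (u - v2).1 = v2.1 := by simp
          have e2 : u.2 - (u - v2).2 = v2.2 := by simp
          rw [e1, e2]
          exact hm2)
        exact this
      · rw [← emb_sub]
        refine Finset.mem_image_of_mem _ ?_
        have : (red c p u.1, red c p u.2) - ((red c p u.1, red c p u.2) - (u - v2)) = u - v2 := by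
          abel
        rw [this]
        exact hin2
  · intro T v
    have e : ∀ z, red c p (z + 3 ^ k) = red c p z := by
      intro z
      rw [← hp]
      have := red_add c p z 1
      rwa [mul_one] at this
    constructor
    · change act (emb n (red c p v.1, red c p v.2)) (x0 n) ∈ C (T.image (emb n)) ↔
        act (emb n (red c p (v.1 + 3 ^ k), red c p (v.2 + 0))) (x0 n) ∈ C (T.image (emb n))
      rw [e, add_zero]
    · change act (emb n (red c p v.1, red c p v.2)) (x0 n) ∈ C (T.image (emb n)) ↔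
        act (emb n (red c p (v.1 + 0), red c p (v.2 + 3 ^ k))) (x0 n) ∈ C (T.image (emb n))
      rw [e, add_zero]

end Pool.Agent.Helper948.Tile
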