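import Mathlib
import Pool.Agent.Helper948.Tile.Cells
import Pool.Agent.Helper948.Tile.Period

set_option autoImplicit false

namespace Pool.Agent.Helper948.Tile

/-- Membership of a natural point in a tile. -/
def CN (K : ℕ) (t : ℕ × ℕ × ℕ × ℕ) (x y : ℕ) : Prop :=
  ((18 * K + 7 < x ∧ x < 36 * K + 14 ∧ 18 * K + 7 < y ∧ y < 36 * K + 14) ∧
    ¬ (0 < t.1 ∧ x + 3 = 18 * K + 7 + 6 * t.1 ∧ (y = 24 * K + 10 ∨ y = 24 * K + 7 + 6 * t.1)) ∧
    ¬ (0 < t.2.1 ∧ x = 18 * K + 7 + 6 * t.2.1 ∧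
      (y = 24 * K + 10 ∨ y = 24 * K + 10 + 6 * t.2.1)) ∧
    ¬ (t.2.2.1 = 0 ∧ t.2.2.2 = 0 ∧ x = 18 * K + 8 ∧ y = 18 * K + 8)) ∨
  (0 < t.2.2.1 ∧ x + 3 = 6 * t.2.2.1 ∧ (y = 24 * K + 10 ∨ y = 24 * K + 7 + 6 * t.2.2.1)) ∨
  (0 < t.2.2.2 ∧ x = 18 * K + 7 + 6 * t.2.2.2 ∧ (y = 6 * K + 3 ∨ y = 6 * K + 3 + 6 * t.2.2.2))

instance (K : ℕ) (t : ℕ × ℕ × ℕ × ℕ) (x y : ℕ) : Decidable (CN K t x y) := by
  unfold CN
  infer_instance

theorem CN_iff (K e n w s x y : ℕ) : CN K (e, n, w, s) x y ↔ Cell K e n w s x y := by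
  unfold CN Cell Body
  refine or_congr (and_congr (by omega) (and_congr (not_congr ?_)
    (and_congr (not_congr ?_) (not_congr ?_)))) (or_congr ?_ ?_)
  · unfold HoleE
    simp only
    omega
  · unfold HoleN
    simp only
    omega
  · simp only
    omega
  · unfold ToothE
    simp only
    omega
  · unfold ToothN
    simp only
    omega

/-- The list of cells of a tile. -/
def tlL (K : ℕ) (t : ℕ × ℕ × ℕ × ℕ) : List (ℕ × ℕ) :=
  (List.range (36 * K + 14)).flatMap fun x =>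
    (List.range (36 * K + 14)).flatMap fun y => if CN K t x y then [(x, y)] else []

/-- the colours are at most `K` -/
def Bdd (K : ℕ) (t : ℕ × ℕ × ℕ × ℕ) : Prop :=
  t.1 ≤ K ∧ t.2.1 ≤ K ∧ t.2.2.1 ≤ K ∧ t.2.2.2 ≤ K

theorem mem_tlL {K : ℕ} {t : ℕ × ℕ × ℕ × ℕ} (ht : Bdd K t) (p : ℕ × ℕ) :
    p ∈ tlL K t ↔ CN K t p.1 p.2 := by
  unfold tlL
  simp only [List.mem_flatMap, List.mem_range]
  constructor
  · rintro ⟨x, _, y, _, h⟩
    split_ifs at h with hc
    · simp only [List.mem_singleton] at h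
      rw [h]
      exact hc
    · exact absurd h (by simp)
  · intro h
    obtain ⟨h1, h2, h3, h4⟩ := ht
    refine ⟨p.1, ?_, p.2, ?_, ?_⟩
    · unfold CN at h
      omega
    · unfold CN at h
      omega
    · rw [if_pos h]
      simp

/-- The finite set given by a list of natural points. -/
def toF (l : List (ℕ × ℕ)) : Finset (ℤ × ℤ) := (l.map (fun p => ((p.1 : ℤ), (p.2 : ℤ)))).toFinset

theorem mem_tl {K e n w s : ℕ} (ht : Bdd K (e, n, w, s)) (x y : ℤ) :
    (x, y) ∈ toF (tlL K (e, n, w, s)) ↔ Cell K e n w s x y := by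
  unfold toF
  rw [List.mem_toFinset, List.mem_map]
  constructor
  · rintro ⟨p, hp, e1⟩
    rw [mem_tlL ht, CN_iff] at hp
    rw [Prod.mk.injEq] at e1
    rw [← e1.1, ← e1.2]
    exact hp
  · intro h
    have hx : 0 ≤ x := by
      unfold Cell Body ToothE ToothN at h
      omega
    have hy : 0 ≤ y := by
      unfold Cell Body ToothE ToothN at h
      omega
    refine ⟨(x.toNat, y.toNat), ?_, ?_⟩
    · rw [mem_tlL ht, CN_iff]
      simp only
      rw [Int.toNat_of_nonneg hx, Int.toNat_of_nonneg hy]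
      exact h
    · simp only
      rw [Int.toNat_of_nonneg hx, Int.toNat_of_nonneg hy]

/-- a pair or nothing -/
def pr (b : Prop) [Decidable b] (x y1 y2 : ℤ) : Finset (ℤ × ℤ) :=
  if b then {(x, y1), (x, y2)} else ∅

theorem mem_pr (b : Prop) [Decidable b] (x y1 y2 : ℤ) (p : ℤ × ℤ) :
    p ∈ pr b x y1 y2 ↔ b ∧ p.1 = x ∧ (p.2 = y1 ∨ p.2 = y2) := by
  unfold pr
  obtain ⟨a, c⟩ := p
  split_ifs with h
  · simp only [Finset.mem_insert, Finset.mem_singleton, Prod.mk.injEq]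
    tauto
  · simp [h]

theorem even_pr (b : Prop) [Decidable b] (x y1 y2 : ℤ) (h : b → y1 ≠ y2) :
    Even (pr b x y1 y2).card := by
  unfold pr
  split_ifs with hb
  · rw [Finset.card_pair]
    · exact even_two
    · intro e
      exact h hb (Prod.mk.inj e).2
  · simp

theorem card_tl {K e n w s : ℕ} (ht : Bdd K (e, n, w, s)) :
    Odd (toF (tlL K (e, n, w, s))).card ↔ (w = 0 ∧ s = 0) := by
  classical
  have ht' := ht
  obtain ⟨h1, h2, h3, h4⟩ := ht'
  simp only at h1 h2 h3 h4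
  let box : Finset (ℤ × ℤ) := Finset.Ioo (18 * (K : ℤ) + 7) (36 * K + 14) ×ˢ
    Finset.Ioo (18 * (K : ℤ) + 7) (36 * K + 14)
  let hE := pr (0 < e) (18 * (K : ℤ) + 4 + 6 * e) (24 * K + 10) (24 * K + 7 + 6 * e)
  let hN := pr (0 < n) (18 * (K : ℤ) + 7 + 6 * n) (24 * K + 10) (24 * K + 10 + 6 * n)
  let tE := pr (0 < w) (6 * (w : ℤ) - 3) (24 * K + 10) (24 * K + 7 + 6 * w)
  let tN := pr (0 < s) (18 * (K : ℤ) + 7 + 6 * s) (6 * K + 3) (6 * K + 3 + 6 * s)
  let cor : Finset (ℤ × ℤ) := if w = 0 ∧ s = 0 then {(18 * (K : ℤ) + 8, 18 * (K : ℤ) + 8)} else ∅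
  have hcor : ∀ p, p ∈ cor ↔ (w = 0 ∧ s = 0) ∧ p.1 = 18 * K + 8 ∧ p.2 = 18 * K + 8 := by
    intro p
    obtain ⟨a, c⟩ := p
    simp only [cor]
    split_ifs with h
    · simp [h]
    · simp [h]
  have mE : ∀ x y, (x, y) ∈ hE ↔ HoleE K e x y := by
    intro x y
    simp only [hE, mem_pr]
    unfold HoleE
    omega
  have mN : ∀ x y, (x, y) ∈ hN ↔ HoleN K n x y := by
    intro x y
    simp only [hN, mem_pr]
    unfold HoleN
    omega
  have nE : ∀ x y, (x, y) ∈ tE ↔ ToothE K w x y := by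
    intro x y
    simp only [tE, mem_pr]
    unfold ToothE
    omega
  have nN : ∀ x y, (x, y) ∈ tN ↔ ToothN K s x y := by
    intro x y
    simp only [tN, mem_pr]
    unfold ToothN
    omega
  have mb : ∀ x y, (x, y) ∈ box ↔ (18 * (K : ℤ) + 7 < x ∧ x < 36 * K + 14 ∧
      18 * (K : ℤ) + 7 < y ∧ y < 36 * K + 14) := by
    intro x y
    simp only [box, Finset.mem_product, Finset.mem_Ioo]
    tauto
  have mc : ∀ x y, (x, y) ∈ cor ↔ (w = 0 ∧ s = 0 ∧ x = 18 * K + 8 ∧ y = 18 * K + 8) := by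
    intro x y
    rw [hcor]
    simp only
    tauto
  have e1 : toF (tlL K (e, n, w, s)) = (box \ ((hE ∪ hN) ∪ cor)) ∪ (tE ∪ tN) := by
    ext ⟨x, y⟩
    rw [mem_tl ht]
    simp only [Finset.mem_union, Finset.mem_sdiff, mb, mE, mN, nE, nN, mc]
    unfold Cell Body
    tauto
  have d1 : Disjoint (box \ ((hE ∪ hN) ∪ cor)) (tE ∪ tN) := by
    rw [Finset.disjoint_left]
    rintro ⟨x, y⟩ ha hb
    rw [Finset.mem_sdiff, mb] at ha
    rw [Finset.mem_union, nE, nN] at hb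
    have ha := ha.1
    rcases hb with hb | hb
    · unfold ToothE at hb
      omega
    · unfold ToothN at hb
      omega
  have d2 : Disjoint tE tN := by
    rw [Finset.disjoint_left]
    rintro ⟨x, y⟩ ha hb
    rw [nE] at ha
    rw [nN] at hb
    unfold ToothE at ha
    unfold ToothN at hb
    omega
  have d3 : Disjoint hE hN := by
    rw [Finset.disjoint_left]
    rintro ⟨x, y⟩ ha hb
    rw [mE] at ha
    rw [mN] at hb
    unfold HoleE at ha
    unfold HoleN at hb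
    omega
  have d4 : Disjoint (hE ∪ hN) cor := by
    rw [Finset.disjoint_left]
    rintro ⟨x, y⟩ ha hb
    rw [Finset.mem_union, mE, mN] at ha
    rw [mc] at hb
    unfold HoleE HoleN at ha
    omega
  have sub : (hE ∪ hN) ∪ cor ⊆ box := by
    rintro ⟨x, y⟩ ha
    rw [Finset.mem_union, Finset.mem_union, mE, mN, mc] at ha
    rw [mb]
    rcases ha with (ha | ha) | ha
    · unfold HoleE at ha
      omega
    · unfold HoleN at ha
      omega
    · omega
  have cb : Even box.card := by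
    have : box.card = (18 * K + 6) * (18 * K + 6) := by
      simp only [box, Finset.card_product, Int.card_Ioo]
      congr 1 <;> omega
    rw [this]
    exact (show Even (18 * K + 6) from ⟨9 * K + 3, by ring⟩).mul_right _
  have eE : Even hE.card := even_pr _ _ _ _ (by intro; omega)
  have eN : Even hN.card := even_pr _ _ _ _ (by intro; omega)
  have fE : Even tE.card := even_pr _ _ _ _ (by intro; omega)
  have fN : Even tN.card := even_pr _ _ _ _ (by intro; omega)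
  have cc : cor.card = if w = 0 ∧ s = 0 then 1 else 0 := by
    simp only [cor]
    split_ifs <;> simp
  have hle := Finset.card_le_card sub
  rw [e1, Finset.card_union_of_disjoint d1, Finset.card_sdiff_of_subset sub,
    Finset.card_union_of_disjoint d2]
  rw [Finset.card_union_of_disjoint d4, Finset.card_union_of_disjoint d3] at hle ⊢
  obtain ⟨a1, a1'⟩ := cb
  obtain ⟨a2, a2'⟩ := eE
  obtain ⟨a3, a3'⟩ := eN
  obtain ⟨a4, a4'⟩ := fE
  obtain ⟨a5, a5'⟩ := fN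
  rw [a1', a2', a3', cc] at hle ⊢
  rw [a4', a5']
  split_ifs at hle ⊢ with hc
  · simp only [hc, and_self, iff_true, Nat.odd_iff]
    omega
  · simp only [hc, iff_false, Nat.odd_iff]
    omega

/-- The filler tiles. -/
def filL : List (List (ℕ × ℕ)) :=
  [[(0, 0), (1, 0)], [(0, 0), (0, 1)], [(0, 0), (2, 0)], [(0, 0), (0, 2)], [(0, 0), (1, 1)],
    [(0, 1), (1, 0)]]

theorem fil_nbr : ∀ l ∈ filL, ∀ a ∈ toF l, ∃ b ∈ toF l, b ≠ a ∧
    |b.1 - a.1| + |b.2 - a.2| ≤ 2 := by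
  decide

theorem fil_card : ∀ l ∈ filL, (toF l).card = 2 := by
  decide

/-- The list of tiles. -/
def tiles (K : ℕ) (W : List (ℕ × ℕ × ℕ × ℕ)) : List (List (ℕ × ℕ)) := filL ++ W.map (tlL K)

/-- The finite set of tiles of the plane. -/
def tset (K : ℕ) (W : List (ℕ × ℕ × ℕ × ℕ)) : Finset (Finset (ℤ × ℤ)) :=
  ((tiles K W).map toF).toFinset

theorem mem_tset (K : ℕ) (W : List (ℕ × ℕ × ℕ × ℕ)) (T : Finset (ℤ × ℤ)) :
    T ∈ tset K W ↔ (∃ l ∈ filL, T = toF l) ∨ (∃ t ∈ W, T = toF (tlL K t)) := by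
  unfold tset tiles
  simp only [List.mem_toFinset, List.mem_map, List.mem_append]
  constructor
  · rintro ⟨l, h | ⟨t, ht, rfl⟩, rfl⟩
    · exact Or.inl ⟨l, h, rfl⟩
    · exact Or.inr ⟨t, ht, rfl⟩
  · rintro (⟨l, h, rfl⟩ | ⟨t, ht, rfl⟩)
    · exact ⟨l, Or.inl h, rfl⟩
    · exact ⟨tlL K t, Or.inr ⟨t, ht, rfl⟩, rfl⟩

/-- The list of tiles in dimension `n`. -/
def tilesN (n K : ℕ) (W : List (ℕ × ℕ × ℕ × ℕ)) : List (List (Fin n → ℤ)) :=
  (tiles K W).map (fun l => l.map (fun p => emb n ((p.1 : ℤ), (p.2 : ℤ))))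

end Pool.Agent.Helper948.Tile
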