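import Mathlib
import Pool.Agent.Helper948.Tile.Sets

set_option autoImplicit false

namespace Pool.Agent.Helper948.Tile

theorem cast_pr : Primrec (fun n : ℕ => (n : ℤ)) := by
  have h : Primrec (fun n : ℕ => Denumerable.ofNat ℤ (2 * n)) :=
    (Primrec.ofNat ℤ).comp (Primrec.nat_mul.comp (Primrec.const 2) Primrec.id)
  refine h.of_eq (fun n => ?_)
  rw [← Denumerable.ofNat_encode (n : ℤ)]
  congr 1

theorem emb_pr (n : ℕ) : Primrec (fun p : ℕ × ℕ => emb n ((p.1 : ℤ), (p.2 : ℤ))) := by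
  apply Primrec.fin_curry.2
  have h0 : Primrec (fun a : (ℕ × ℕ) × Fin n => (a.2 : ℕ)) := Primrec.fin_val.comp Primrec.snd
  have h1 : Primrec (fun a : (ℕ × ℕ) × Fin n => ((a.1.1 : ℕ) : ℤ)) :=
    cast_pr.comp (Primrec.fst.comp Primrec.fst)
  have h2 : Primrec (fun a : (ℕ × ℕ) × Fin n => ((a.1.2 : ℕ) : ℤ)) :=
    cast_pr.comp (Primrec.snd.comp Primrec.fst)
  exact Primrec.ite (PrimrecRel.comp Primrec.eq h0 (Primrec.const 0)) h1
    (Primrec.ite (PrimrecRel.comp Primrec.eq h0 (Primrec.const 1)) h2 (Primrec.const 0))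

section

variable {α : Type} [Primcodable α]

theorem p_add {f g : α → ℕ} (hf : Primrec f) (hg : Primrec g) :
    Primrec (fun a => f a + g a) := Primrec.nat_add.comp hf hg

theorem p_mul {f : α → ℕ} (c : ℕ) (hf : Primrec f) :
    Primrec (fun a => c * f a) := Primrec.nat_mul.comp (Primrec.const c) hf

theorem p_lt {f g : α → ℕ} (hf : Primrec f) (hg : Primrec g) :
    PrimrecPred (fun a => f a < g a) := PrimrecRel.comp Primrec.nat_lt hf hg

theorem p_eq {f g : α → ℕ} (hf : Primrec f) (hg : Primrec g) :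
    PrimrecPred (fun a => f a = g a) := PrimrecRel.comp Primrec.eq hf hg

theorem CN_pr {K : α → ℕ} {t : α → ℕ × ℕ × ℕ × ℕ} {x y : α → ℕ} (hK : Primrec K)
    (ht : Primrec t) (hx : Primrec x) (hy : Primrec y) :
    PrimrecPred (fun a => CN (K a) (t a) (x a) (y a)) := by
  have c : ∀ m : ℕ, Primrec (fun _ : α => m) := fun m => Primrec.const m
  have hE : Primrec (fun a => (t a).1) := Primrec.fst.comp ht
  have hN : Primrec (fun a => (t a).2.1) := Primrec.fst.comp (Primrec.snd.comp ht)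
  have hW : Primrec (fun a => (t a).2.2.1) :=
    Primrec.fst.comp (Primrec.snd.comp (Primrec.snd.comp ht))
  have hS : Primrec (fun a => (t a).2.2.2) :=
    Primrec.snd.comp (Primrec.snd.comp (Primrec.snd.comp ht))
  have k18 : Primrec (fun a => 18 * K a + 7) := p_add (p_mul 18 hK) (c 7)
  have k36 : Primrec (fun a => 36 * K a + 14) := p_add (p_mul 36 hK) (c 14)
  have k188 : Primrec (fun a => 18 * K a + 8) := p_add (p_mul 18 hK) (c 8)
  have k24 : Primrec (fun a => 24 * K a + 10) := p_add (p_mul 24 hK) (c 10)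
  have k247 : Primrec (fun a => 24 * K a + 7) := p_add (p_mul 24 hK) (c 7)
  have k63 : Primrec (fun a => 6 * K a + 3) := p_add (p_mul 6 hK) (c 3)
  have x3 : Primrec (fun a => x a + 3) := p_add hx (c 3)
  have box := (p_lt k18 hx).and ((p_lt hx k36).and ((p_lt k18 hy).and (p_lt hy k36)))
  have nE := ((p_lt (c 0) hE).and ((p_eq x3 (p_add k18 (p_mul 6 hE))).and
    ((p_eq hy k24).or (p_eq hy (p_add k247 (p_mul 6 hE)))))).not
  have nN := ((p_lt (c 0) hN).and ((p_eq hx (p_add k18 (p_mul 6 hN))).and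
    ((p_eq hy k24).or (p_eq hy (p_add k24 (p_mul 6 hN)))))).not
  have nC := ((p_eq hW (c 0)).and ((p_eq hS (c 0)).and ((p_eq hx k188).and (p_eq hy k188)))).not
  have tE := (p_lt (c 0) hW).and ((p_eq x3 (p_mul 6 hW)).and
    ((p_eq hy k24).or (p_eq hy (p_add k247 (p_mul 6 hW)))))
  have tN := (p_lt (c 0) hS).and ((p_eq hx (p_add k18 (p_mul 6 hS))).and
    ((p_eq hy k63).or (p_eq hy (p_add k63 (p_mul 6 hS)))))
  exact (box.and (nE.and (nN.and nC))).or (tE.or tN)

end

theorem tlL_pr : Primrec₂ tlL := by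
  have k36 : Primrec (fun a : ℕ × (ℕ × ℕ × ℕ × ℕ) => 36 * a.1 + 14) :=
    p_add (p_mul 36 Primrec.fst) (Primrec.const 14)
  have h3 : Primrec (fun b : ((ℕ × (ℕ × ℕ × ℕ × ℕ)) × ℕ) × ℕ =>
      if CN b.1.1.1 b.1.1.2 b.1.2 b.2 then [(b.1.2, b.2)] else []) := by
    refine Primrec.ite (CN_pr ?_ ?_ ?_ ?_) ?_ (Primrec.const [])
    · exact Primrec.fst.comp (Primrec.fst.comp Primrec.fst)
    · exact Primrec.snd.comp (Primrec.fst.comp Primrec.fst)
    · exact Primrec.snd.comp Primrec.fst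
    · exact Primrec.snd
    · exact Primrec.list_cons.comp
        (Primrec.pair (Primrec.snd.comp Primrec.fst) Primrec.snd) (Primrec.const [])
  have h2 : Primrec (fun b : (ℕ × (ℕ × ℕ × ℕ × ℕ)) × ℕ =>
      (List.range (36 * b.1.1 + 14)).flatMap fun y =>
        if CN b.1.1 b.1.2 b.2 y then [(b.2, y)] else []) :=
    Primrec.list_flatMap (Primrec.list_range.comp (k36.comp Primrec.fst)) h3.to₂
  exact Primrec.list_flatMap (Primrec.list_range.comp k36) h2.to₂

theorem tiles_pr : Primrec₂ tiles := by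
  have h1 : Primrec (fun a : ℕ × List (ℕ × ℕ × ℕ × ℕ) => a.2.map (tlL a.1)) := by
    refine Primrec.list_map Primrec.snd ?_
    exact (tlL_pr.comp (Primrec.fst.comp Primrec.fst) Primrec.snd).to₂
  exact Primrec.list_append.comp (Primrec.const filL) h1

theorem tilesN_pr (n : ℕ) : Primrec₂ (tilesN n) := by
  refine Primrec.list_map tiles_pr ?_
  have h : Primrec (fun a : (ℕ × List (ℕ × ℕ × ℕ × ℕ)) × List (ℕ × ℕ) =>
      a.2.map (fun p => emb n ((p.1 : ℤ), (p.2 : ℤ)))) := by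
    refine Primrec.list_map Primrec.snd ?_
    exact ((emb_pr n).comp Primrec.snd).to₂
  exact h.to₂

end Pool.Agent.Helper948.Tile
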