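import Mathlib

set_option autoImplicit false
set_option linter.unusedSectionVars false

namespace Pool.Agent.Helper948.Tile

open Turing

/-- Horizontal colours. -/
inductive HC (Λ : Type) : Type
  | init (s : ℕ) : HC Λ
  | m0 : HC Λ
  | mr (q : Λ) : HC Λ
  | ml (q : Λ) : HC Λ
  | tp : HC Λ

/-- Vertical colours. -/
inductive VC (Γ Λ : Type) : Type
  | lb : VC Γ Λ
  | rb : VC Γ Λ
  | sy (a : Γ) : VC Γ Λ
  | hd (q : Λ) (a : Γ) : VC Γ Λ

variable {Γ Λ : Type} [Inhabited Γ] [Inhabited Λ]

/-- The coloured squares of a Turing machine; the order is east, north, west, south. -/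
inductive WT (M : TM0.Machine Γ Λ) (l : List Γ) :
    Option (HC Λ) → Option (VC Γ Λ) → Option (HC Λ) → Option (VC Γ Λ) → Prop
  | corner : WT M l (some (.init 0)) (some .lb) none none
  | blankL : WT M l (some (.init 0)) (some (.sy default)) (some (.init 0)) none
  | first : WT M l (some (.init 1)) (some (.hd default (l.getI 0))) (some (.init 0)) none
  | sym (i : ℕ) (h1 : 1 ≤ i) (h2 : i < l.length) :
      WT M l (some (.init (i + 1))) (some (.sy (l.getI i))) (some (.init i)) none
  | blankR : WT M l (some (.init l.length)) (some (.sy default)) (some (.init l.length)) none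
  | endR : WT M l none (some .rb) (some (.init l.length)) none
  | midL : WT M l (some .m0) (some .lb) none (some .lb)
  | midR : WT M l none (some .rb) (some .m0) (some .rb)
  | keep (a : Γ) : WT M l (some .m0) (some (.sy a)) (some .m0) (some (.sy a))
  | inL (q : Λ) (a : Γ) : WT M l (some .m0) (some (.hd q a)) (some (.mr q)) (some (.sy a))
  | inR (q : Λ) (a : Γ) : WT M l (some (.ml q)) (some (.hd q a)) (some .m0) (some (.sy a))
  | wr (q : Λ) (a : Γ) (q' : Λ) (b : Γ) (h : M q a = some (q', .write b)) :
      WT M l (some .m0) (some (.hd q' b)) (some .m0) (some (.hd q a))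
  | mvR (q : Λ) (a : Γ) (q' : Λ) (h : M q a = some (q', .move .right)) :
      WT M l (some (.mr q')) (some (.sy a)) (some .m0) (some (.hd q a))
  | mvL (q : Λ) (a : Γ) (q' : Λ) (h : M q a = some (q', .move .left)) :
      WT M l (some .m0) (some (.sy a)) (some (.ml q')) (some (.hd q a))
  | topL : WT M l (some .tp) none none (some .lb)
  | topR : WT M l none none (some .tp) (some .rb)
  | topS (a : Γ) : WT M l (some .tp) none (some .tp) (some (.sy a))
  | topH (q : Λ) (a : Γ) (h : M q a = none) : WT M l (some .tp) none (some .tp) (some (.hd q a))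

/-- The function gives the tape in absolute coordinates. -/
def Rep (c : TM0.Cfg Γ Λ) (F : ℕ → Γ) (pos : ℕ) : Prop :=
  ∀ z : ℕ, c.Tape.nth ((z : ℤ) - pos) = F z

theorem Rep.head {c : TM0.Cfg Γ Λ} {F : ℕ → Γ} {pos : ℕ} (h : Rep c F pos) :
    c.Tape.head = F pos := by
  rw [← h pos, sub_self, Tape.nth_zero]

theorem Rep.write {c : TM0.Cfg Γ Λ} {F : ℕ → Γ} {pos : ℕ} (h : Rep c F pos) (q : Λ) (b : Γ) :
    Rep ⟨q, c.Tape.write b⟩ (fun z => if z = pos then b else F z) pos := by
  intro z
  change (c.Tape.write b).nth _ = _
  rw [Tape.write_nth]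
  by_cases hz : z = pos
  · subst hz
    simp
  · simp only
    rw [if_neg (by omega), if_neg hz, h z]

theorem Rep.right {c : TM0.Cfg Γ Λ} {F : ℕ → Γ} {pos : ℕ} (h : Rep c F pos) (q : Λ) :
    Rep ⟨q, c.Tape.move .right⟩ F (pos + 1) := by
  intro z
  change (c.Tape.move .right).nth _ = _
  rw [Tape.move_right_nth, ← h z]
  congr 1
  push_cast
  ring

theorem Rep.left {c : TM0.Cfg Γ Λ} {F : ℕ → Γ} {pos : ℕ} (h : Rep c F (pos + 1)) (q : Λ) :
    Rep ⟨q, c.Tape.move .left⟩ F pos := by
  intro z
  change (c.Tape.move .left).nth _ = _
  rw [Tape.move_left_nth, ← h z]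
  congr 1
  push_cast
  ring

/-- the content of a row -/
def cont (q : Λ) (F : ℕ → Γ) (pos W : ℕ) (z : ℕ) : VC Γ Λ :=
  if z = 0 then .lb else if z = W then .rb else if z = pos then .hd q (F pos) else .sy (F z)

/-- An array of coloured squares satisfying the local rules, repeated periodically. -/
structure Arr (M : TM0.Machine Γ Λ) (l : List Γ)
    (R : ℕ → ℕ → Option (HC Λ) → Option (VC Γ Λ) → Option (HC Λ) → Option (VC Γ Λ) → Prop)
    (p : ℕ) : Prop where
  r0 : ∀ x y e n w s, R x y e n w s → WT M l e n w s
  rE : ∀ x y c n w s, R x y (some c) n w s → ∃ e' n' s', R (x + 1) y e' n' (some c) s'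
  rN : ∀ x y e c w s, R x y e (some c) w s → ∃ e' n' w', R x (y + 1) e' n' w' (some c)
  mE : ∀ x y e n w s e' n' w' s', R x y e n w s → R (x + 1) y e' n' w' s' → e = w'
  mN : ∀ x y e n w s e' n' w' s', R x y e n w s → R x (y + 1) e' n' w' s' → n = s'
  pos : 0 < p
  cor : R 0 0 (some (.init 0)) (some .lb) none none
  corX : R p 0 (some (.init 0)) (some .lb) none none
  corY : R 0 p (some (.init 0)) (some .lb) none none

section

variable {M : TM0.Machine Γ Λ} {l : List Γ}
  {R : ℕ → ℕ → Option (HC Λ) → Option (VC Γ Λ) → Option (HC Λ) → Option (VC Γ Λ) → Prop}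
  {p : ℕ}

theorem Arr.lt (hR : Arr M l R p) {x : ℕ} {c : HC Λ} {n w s} (h : R x 0 (some c) n w s)
    (hx : x < p) : x + 1 < p := by
  by_contra hc
  have e : x + 1 = p := by omega
  have := hR.mE x 0 _ _ _ _ _ _ _ _ h (by rw [e]; exact hR.corX)
  simp at this

theorem Arr.rightPart (hR : Arr M l R p) (hl : 0 < l.length) (k : ℕ) : ∀ (x j : ℕ) (n w s'),
    p ≤ x + k → x < p → 1 ≤ j →
    R x 0 (some (.init (min j l.length))) n w s' →
    ∃ W, x < W ∧ (∀ z, x < z → z < W → ∃ e w s, R z 0 e (some (.sy (l.getI (j + (z - x - 1))))) w s)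
      ∧ ∃ w s, R W 0 none (some .rb) w s := by
  induction k with
  | zero =>
    intro x j n w s' h1 h2
    omega
  | succ k ih =>
    intro x j n w s' h1 h2 h3 hr
    have hx := hR.lt hr h2
    obtain ⟨e', n', s1, hr'⟩ := hR.rE _ _ _ _ _ _ hr
    have hwt := hR.r0 _ _ _ _ _ _ hr'
    have fin : R (x + 1) 0 (some (.init (min (j + 1) l.length)))
        (some (.sy (l.getI j))) (some (.init (min j l.length))) s1 →
        ∃ W, x < W ∧ (∀ z, x < z → z < W →
          ∃ e w s, R z 0 e (some (.sy (l.getI (j + (z - x - 1))))) w s)
          ∧ ∃ w s, R W 0 none (some .rb) w s := by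
      intro hr2
      obtain ⟨W, hW1, hW2, hW3⟩ := ih (x + 1) (j + 1) _ _ _ (by omega) hx (by omega) hr2
      refine ⟨W, by omega, ?_, hW3⟩
      intro z hz1 hz2
      by_cases hz : z = x + 1
      · subst hz
        have : j + (x + 1 - x - 1) = j := by omega
        rw [this]
        exact ⟨_, _, _, hr2⟩
      · obtain ⟨e, w, s, h⟩ := hW2 z (by omega) hz2
        have : j + 1 + (z - (x + 1) - 1) = j + (z - x - 1) := by omega
        rw [this] at h
        exact ⟨e, w, s, h⟩
    generalize hc : HC.init (Λ := Λ) (min j l.length) = c at hwt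
    cases hwt with
    | blankL =>
      injection hc with hc
      omega
    | first =>
      injection hc with hc
      omega
    | sym i g1 g2 =>
      injection hc with hc
      have e1 : i = j := by omega
      subst e1
      have e2 : min (i + 1) l.length = i + 1 := by omega
      exact fin (by rw [e2]; exact hr')
    | blankR =>
      injection hc with hc
      have e1 : min (j + 1) l.length = l.length := by omega
      have e2 : l.getI j = default := List.getI_eq_default _ (by omega)
      exact fin (by rw [e1, e2]; exact hr')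
    | endR =>
      refine ⟨x + 1, by omega, fun z hz1 hz2 => by omega, ?_⟩
      exact ⟨_, _, hr'⟩
    | midR => simp at hc
    | keep a => simp at hc
    | inL q a => simp at hc
    | inR q a => simp at hc
    | wr q a q' b h => simp at hc
    | mvR q a q' h => simp at hc
    | mvL q a q' h => simp at hc
    | topR => simp at hc
    | topS a => simp at hc
    | topH q a h => simp at hc

theorem Arr.leftPart (hR : Arr M l R p) (hl : 0 < l.length) (k : ℕ) : ∀ (x : ℕ) (n w s'),
    p ≤ x + k → x < p →
    R x 0 (some (.init 0)) n w s' →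
    ∃ P, x < P ∧ P < p ∧ (∀ z, x < z → z < P → ∃ e w s, R z 0 e (some (.sy default)) w s)
      ∧ ∃ w s, R P 0 (some (.init 1)) (some (.hd default (l.getI 0))) w s := by
  induction k with
  | zero =>
    intro x n w s' h1 h2
    omega
  | succ k ih =>
    intro x n w s' h1 h2 hr
    have hx := hR.lt hr h2
    obtain ⟨e', n', s1, hr'⟩ := hR.rE _ _ _ _ _ _ hr
    have hwt := hR.r0 _ _ _ _ _ _ hr'
    generalize hc : HC.init (Λ := Λ) 0 = c at hwt
    cases hwt with
    | blankL =>
      obtain ⟨P, hP0, hP1, hP2, hP3⟩ := ih (x + 1) _ _ _ (by omega) hx hr'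
      refine ⟨P, by omega, hP1, ?_, hP3⟩
      intro z hz1 hz2
      by_cases hz : z = x + 1
      · subst hz
        exact ⟨_, _, _, hr'⟩
      · exact hP2 z (by omega) hz2
    | first =>
      refine ⟨x + 1, by omega, hx, fun z hz1 hz2 => by omega, ?_⟩
      exact ⟨_, _, hr'⟩
    | sym i g1 g2 =>
      injection hc with hc
      omega
    | blankR =>
      injection hc with hc
      omega
    | endR =>
      injection hc with hc
      omega
    | midR => simp at hc
    | keep a => simp at hc
    | inL q a => simp at hc
    | inR q a => simp at hc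
    | wr q a q' b h => simp at hc
    | mvR q a q' h => simp at hc
    | mvL q a q' h => simp at hc
    | topR => simp at hc
    | topS a => simp at hc
    | topH q a h => simp at hc

/-- row `y` contains the configuration -/
def Row (R : ℕ → ℕ → Option (HC Λ) → Option (VC Γ Λ) → Option (HC Λ) → Option (VC Γ Λ) → Prop)
    (q : Λ) (F : ℕ → Γ) (pos W y : ℕ) : Prop :=
  ∀ z, z ≤ W → ∃ e w s, R z y e (some (cont q F pos W z)) w s

theorem init_rep (l : List Γ) (pos : ℕ) :
    Rep (TM0.init (Λ := Λ) l) (fun z => if z < pos then default else l.getI (z - pos)) pos := by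
  intro z
  simp only
  change (Tape.mk₁ l).nth _ = _
  by_cases hz : z < pos
  · rw [if_pos hz]
    obtain ⟨m, hm⟩ : ∃ m : ℕ, pos = z + (m + 1) := ⟨pos - z - 1, by omega⟩
    have e : (z : ℤ) - pos = -((m + 1 : ℕ) : ℤ) := by
      rw [hm]; push_cast; ring
    rw [e]
    change (Tape.mk₁ l).left.nth m = default
    change (ListBlank.mk ([] : List Γ)).nth m = default
    rw [ListBlank.nth_mk]
    simp
  · rw [if_neg hz]
    obtain ⟨m, hm⟩ : ∃ m : ℕ, z = pos + m := ⟨z - pos, by omega⟩
    have e : (z : ℤ) - pos = (m : ℤ) := by
      rw [hm]; push_cast; ring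
    have e2 : z - pos = m := by omega
    rw [e, e2]
    change (Tape.mk' (ListBlank.mk []) (ListBlank.mk l)).nth m = _
    rw [Tape.mk'_nth_nat, ListBlank.nth_mk]

theorem Arr.row0 (hR : Arr M l R p) (hl : 0 < l.length) :
    ∃ (F : ℕ → Γ) (pos W : ℕ), Rep (TM0.init (Λ := Λ) l) F pos ∧ 0 < pos ∧ pos < W ∧
      Row R default F pos W 0 := by
  obtain ⟨P, hP0, hP1, hP2, w1, s1, hP3⟩ := hR.leftPart hl p 0 _ _ _ (by omega) hR.pos hR.cor
  obtain ⟨W, hW1, hW2, w2, s2, hW3⟩ := hR.rightPart hl p P 1 _ _ _ (by omega) hP1 (le_refl _)
    (by rw [min_eq_left (by omega)]; exact hP3)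
  refine ⟨_, P, W, init_rep l P, by omega, hW1, ?_⟩
  intro z hz
  unfold cont
  by_cases h0 : z = 0
  · rw [if_pos h0, h0]
    exact ⟨_, _, _, hR.cor⟩
  rw [if_neg h0]
  by_cases h1 : z = W
  · rw [if_pos h1, h1]
    exact ⟨_, _, _, hW3⟩
  rw [if_neg h1]
  by_cases h2 : z = P
  · rw [if_pos h2, h2]
    simp only [lt_irrefl, if_false, Nat.sub_self]
    exact ⟨_, _, _, hP3⟩
  rw [if_neg h2]
  simp only
  by_cases h3 : z < P
  · rw [if_pos h3]
    exact hP2 z (by omega) h3
  · rw [if_neg h3]
    obtain ⟨e, w, s, h⟩ := hW2 z (by omega) (by omega)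
    have : 1 + (z - P - 1) = z - P := by omega
    rw [this] at h
    exact ⟨_, _, _, h⟩

/-- The step from one row to the next. -/
theorem Arr.step (hR : Arr M l R p) {c : TM0.Cfg Γ Λ} {F : ℕ → Γ} {pos W y : ℕ}
    (hrep : Rep c F pos) (h0 : 0 < pos) (hW : pos < W) (hrow : Row R c.q F pos W y) :
    TM0.step M c = none ∨ ∃ (c' : TM0.Cfg Γ Λ) (F' : ℕ → Γ) (pos' : ℕ),
      TM0.step M c = some c' ∧ Rep c' F' pos' ∧ 0 < pos' ∧ pos' < W ∧ Row R c'.q F' pos' W (y + 1) := by
  obtain ⟨q, T⟩ := c
  have hhead : T.head = F pos := hrep.head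
  -- the squares of the next row
  have hsq : ∀ z, z ≤ W → ∃ e n w, R z (y + 1) e n w (some (cont q F pos W z)) := by
    intro z hz
    obtain ⟨e, w, s, h⟩ := hrow z hz
    exact hR.rN _ _ _ _ _ _ h
  choose! e n w hs using hsq
  have hm : ∀ z, z < W → e z = w (z + 1) := by
    intro z hz
    exact hR.mE _ _ _ _ _ _ _ _ _ _ (hs z (by omega)) (hs (z + 1) (by omega))
  have hwt : ∀ z, z ≤ W → WT M l (e z) (n z) (w z) (some (cont q F pos W z)) :=
    fun z hz => hR.r0 _ _ _ _ _ _ (hs z hz)
  have c0 : cont q F pos W 0 = .lb := by simp [cont]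
  have cW : cont q F pos W W = .rb := by
    unfold cont
    rw [if_neg (by omega), if_pos rfl]
  have cP : cont q F pos W pos = .hd q (F pos) := by
    unfold cont
    rw [if_neg (by omega), if_neg (by omega), if_pos rfl]
  have cZ : ∀ z, 0 < z → z < W → z ≠ pos → cont q F pos W z = .sy (F z) := by
    intro z h1 h2 h3
    unfold cont
    rw [if_neg (by omega), if_neg (by omega), if_neg h3]
  have hstep : TM0.step M ⟨q, T⟩ = (M q (F pos)).map fun r => ⟨r.1, match r.2 with
      | TM0.Stmt.move d => T.move d
      | TM0.Stmt.write a => T.write a⟩ := by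
    rw [← hhead]
    rfl
  -- the left border
  have hleft : (e 0 = some .tp) ∨ (e 0 = some .m0 ∧ n 0 = some .lb) := by
    have h := hwt 0 (by omega)
    rw [c0] at h
    generalize e 0 = e0 at h ⊢
    generalize n 0 = n0 at h ⊢
    generalize w 0 = w0 at h ⊢
    cases h with
    | midL => exact Or.inr ⟨rfl, rfl⟩
    | topL => exact Or.inl rfl
  rcases hleft with htop | ⟨hmid, hn0⟩
  · left
    have hall : ∀ z, z < pos → e z = some .tp := by
      intro z
      induction z with
      | zero => intro _; exact htop
      | succ z ih =>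
        intro hz
        have h1 := ih (by omega)
        rw [hm z (by omega)] at h1
        have h := hwt (z + 1) (by omega)
        rw [cZ (z + 1) (by omega) (by omega) (by omega), h1] at h
        generalize e (z + 1) = e0 at h ⊢
        generalize n (z + 1) = n0 at h ⊢
        cases h with
        | topS a => rfl
    have h1 := hall (pos - 1) (by omega)
    rw [hm (pos - 1) (by omega), show pos - 1 + 1 = pos by omega] at h1
    have h := hwt pos (by omega)
    rw [cP, h1] at h
    generalize e pos = e0 at h
    generalize n pos = n0 at h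
    cases h with
    | topH q a hM =>
      rw [hstep, hM]
      rfl
  · right
    -- all squares of the row are middle squares
    have hmidw : ∀ z, 0 < z → z ≤ W → w z = some .m0 ∨ (∃ q', w z = some (.mr q')) ∨
        (∃ q', w z = some (.ml q')) := by
      intro z hz
      induction z with
      | zero => omega
      | succ z ih =>
        intro hzW
        rw [← hm z (by omega)]
        by_cases hz0 : z = 0
        · subst hz0
          exact Or.inl hmid
        · have h1 := ih (by omega) (by omega)
          have h := hwt z (by omega)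
          by_cases hzp : z = pos
          · subst hzp
            rw [cP] at h
            generalize e z = e0 at h ⊢
            generalize n z = n0 at h ⊢
            generalize w z = w0 at h h1 ⊢
            cases h with
            | wr q a q' b hM => exact Or.inl rfl
            | mvR q a q' hM => exact Or.inr (Or.inl ⟨q', rfl⟩)
            | mvL q a q' hM => exact Or.inl rfl
            | topH q a hM => simp at h1
          · rw [cZ z (by omega) (by omega) hzp] at h
            generalize e z = e0 at h ⊢
            generalize n z = n0 at h ⊢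
            generalize w z = w0 at h h1 ⊢
            generalize hFz : F z = a at h
            cases h with
            | keep a => exact Or.inl rfl
            | inL q a => exact Or.inl rfl
            | inR q a => exact Or.inr (Or.inr ⟨_, rfl⟩)
            | topS a => simp at h1
    -- signals
    have sigR : ∀ z q', 0 < z → z ≤ W → w z = some (.mr q') →
        z = pos + 1 ∧ M q (F pos) = some (q', .move .right) := by
      intro z q' hz hzW hw
      obtain ⟨z, rfl⟩ : ∃ u, z = u + 1 := ⟨z - 1, by omega⟩
      rw [← hm z (by omega)] at hw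
      by_cases hz0 : z = 0
      · subst hz0
        rw [hmid] at hw
        simp at hw
      · have h := hwt z (by omega)
        by_cases hzp : z = pos
        · subst hzp
          rw [cP, hw] at h
          generalize n z = n0 at h
          generalize w z = w0 at h
          generalize hFz : F z = a at h ⊢
          cases h with
          | mvR q a q' hM => exact ⟨rfl, hM⟩
        · rw [cZ z (by omega) (by omega) hzp, hw] at h
          generalize n z = n0 at h
          generalize w z = w0 at h
          generalize hFz : F z = a at h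
          cases h
    have sigL : ∀ z q', 0 < z → z ≤ W → w z = some (.ml q') →
        z = pos ∧ M q (F pos) = some (q', .move .left) := by
      intro z q' hz hzW hw
      have h := hwt z (by omega)
      by_cases hzp : z = pos
      · subst hzp
        rw [cP, hw] at h
        generalize n z = n0 at h
        generalize e z = e0 at h
        generalize hFz : F z = a at h ⊢
        cases h with
        | mvL q a q' hM => exact ⟨rfl, hM⟩
      · by_cases hzW' : z = W
        · subst hzW'
          rw [cW, hw] at h
          generalize n z = n0 at h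
          generalize e z = e0 at h
          cases h
        · rw [cZ z (by omega) (by omega) hzp, hw] at h
          generalize n z = n0 at h
          generalize e z = e0 at h
          generalize hFz : F z = a at h
          cases h
    have hright : n W = some .rb := by
      have h := hwt W (by omega)
      have h1 := hmidw W (by omega) (by omega)
      rw [cW] at h
      generalize n W = n0 at h ⊢
      generalize e W = e0 at h
      generalize w W = w0 at h h1
      cases h with
      | midR => rfl
      | topR => simp at h1
    -- ordinary squares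
    have hord : ∀ z, 0 < z → z < W → z ≠ pos →
        n z = some (.sy (F z)) ∨
        (∃ q', n z = some (.hd q' (F z)) ∧ z = pos + 1 ∧ M q (F pos) = some (q', .move .right)) ∨
        (∃ q', n z = some (.hd q' (F z)) ∧ z + 1 = pos ∧ M q (F pos) = some (q', .move .left)) := by
      intro z h1 h2 h3
      have h := hwt z (by omega)
      have hw := hmidw z h1 (by omega)
      have he := hm z h2
      rw [cZ z h1 h2 h3] at h
      have sR := sigR z
      have sL := sigL (z + 1)
      rw [← he] at sL
      generalize e z = e0 at h sL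
      generalize n z = n0 at h ⊢
      generalize w z = w0 at h hw sR
      generalize F z = a at h ⊢
      cases h with
      | keep a => exact Or.inl rfl
      | inL q1 a =>
        right; left
        obtain ⟨g1, g2⟩ := sR q1 h1 (by omega) rfl
        exact ⟨q1, rfl, g1, g2⟩
      | inR q1 a =>
        right; right
        obtain ⟨g1, g2⟩ := sL q1 (by omega) (by omega) rfl
        exact ⟨q1, rfl, g1, g2⟩
      | topS a => simp at hw
    -- the head square
    have hP := hwt pos (by omega)
    have hPw := hmidw pos h0 (by omega)
    have hPm := hm pos hW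
    have hPl := hm (pos - 1) (by omega)
    rw [show pos - 1 + 1 = pos by omega] at hPl
    rw [cP] at hP
    have hrowof : ∀ (q' : Λ) (F' : ℕ → Γ) (pos' : ℕ), 0 < pos' → pos' < W →
        (∀ z, 0 < z → z < W → n z = some (if z = pos' then .hd q' (F' pos') else .sy (F' z))) →
        Row R q' F' pos' W (y + 1) := by
      intro q' F' pos' g1 g2 g3 z hz
      unfold cont
      by_cases k0 : z = 0
      · rw [if_pos k0, ← hn0, k0]
        exact ⟨_, _, _, hs 0 (by omega)⟩
      rw [if_neg k0]
      by_cases k1 : z = W
      · rw [if_pos k1, ← hright, k1]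
        exact ⟨_, _, _, hs W (by omega)⟩
      rw [if_neg k1, ← g3 z (by omega) (by omega)]
      exact ⟨_, _, _, hs z hz⟩
    generalize hea : e pos = e0 at hP hPm
    generalize hna : n pos = n0 at hP
    generalize hwa : w pos = w0 at hP hPw hPl
    generalize hFa : F pos = a at hP
    rw [hFa] at hstep
    cases hP with
    | wr _ _ q' b hM =>
      refine ⟨_, fun z => if z = pos then b else F z, pos, by rw [hstep, hM]; rfl,
        hrep.write q' b, h0, hW, ?_⟩
      refine hrowof _ _ _ h0 hW ?_
      intro z g1 g2
      by_cases hz : z = pos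
      · rw [if_pos hz, hz, hna]
        simp
      · rw [if_neg hz, if_neg hz]
        rcases hord z g1 g2 hz with k | ⟨q1, k1, k2, k3⟩ | ⟨q1, k1, k2, k3⟩
        · exact k
        · rw [hFa, hM] at k3
          simp at k3
        · rw [hFa, hM] at k3
          simp at k3
    | mvR _ _ q' hM =>
      have hlt : pos + 1 < W := by
        by_contra hc
        have e1 : pos + 1 = W := by omega
        rw [e1] at hPm
        have h := hwt W (by omega)
        rw [cW, ← hPm] at h
        generalize n W = n1 at h
        generalize e W = e1 at h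
        cases h
      refine ⟨_, F, pos + 1, by rw [hstep, hM]; rfl, hrep.right q', by omega, hlt, ?_⟩
      refine hrowof _ _ _ (by omega) hlt ?_
      intro z g1 g2
      by_cases hz : z = pos
      · rw [if_neg (by omega), hz, hna, hFa]
      · rcases hord z g1 g2 hz with k | ⟨q1, k1, k2, k3⟩ | ⟨q1, k1, k2, k3⟩
        · by_cases hz1 : z = pos + 1
          · exfalso
            subst hz1
            have h := hwt (pos + 1) (by omega)
            rw [cZ _ (by omega) hlt (by omega), ← hPm, k] at h
            generalize e (pos + 1) = e1 at h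
            generalize F (pos + 1) = a1 at h
            cases h
          · rw [if_neg hz1]
            exact k
        · rw [if_pos k2, k1]
          rw [hFa, hM] at k3
          simp only [Option.some.injEq, Prod.mk.injEq] at k3
          rw [k3.1, k2]
        · rw [hFa, hM] at k3
          simp at k3
    | mvL _ _ q' hM =>
      have hlt : 1 < pos := by
        by_contra hc
        have e1 : pos = 1 := by omega
        subst e1
        simp only [Nat.sub_self] at hPl
        rw [hmid] at hPl
        simp at hPl
      obtain ⟨m, rfl⟩ : ∃ m, pos = m + 1 := ⟨pos - 1, by omega⟩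
      refine ⟨_, F, m, by rw [hstep, hM]; rfl, hrep.left q', by omega, by omega, ?_⟩
      refine hrowof _ _ _ (by omega) (by omega) ?_
      intro z g1 g2
      by_cases hz : z = m + 1
      · rw [if_neg (by omega), hz, hna, hFa]
      · rcases hord z g1 g2 hz with k | ⟨q1, k1, k2, k3⟩ | ⟨q1, k1, k2, k3⟩
        · by_cases hz1 : z = m
          · exfalso
            subst hz1
            have h := hwt z (by omega)
            simp only [Nat.add_sub_cancel] at hPl
            rw [cZ _ (by omega) (by omega) (by omega), hPl, k] at h
            generalize w z = e1 at h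
            generalize F z = a1 at h
            cases h
          · rw [if_neg hz1]
            exact k
        · rw [hFa, hM] at k3
          simp at k3
        · have hzm : z = m := by omega
          rw [if_pos hzm, k1]
          rw [hFa, hM] at k3
          simp only [Option.some.injEq, Prod.mk.injEq] at k3
          rw [k3.1, hzm]
    | topH _ _ hM => simp at hPw

/-- A periodic array forces the machine to halt. -/
theorem Arr.halts (hR : Arr M l R p) (hl : 0 < l.length) :
    (StateTransition.eval (TM0.step M) (TM0.init l)).Dom := by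
  by_contra hnd
  obtain ⟨F, pos, W, hrep, h0, hW, hrow⟩ := hR.row0 hl
  have key : ∀ y, ∃ (c : TM0.Cfg Γ Λ) (F : ℕ → Γ) (pos : ℕ),
      StateTransition.Reaches (TM0.step M) (TM0.init l) c ∧ Rep c F pos ∧ 0 < pos ∧ pos < W ∧
      Row R c.q F pos W y := by
    intro y
    induction y with
    | zero => exact ⟨_, F, pos, Relation.ReflTransGen.refl, hrep, h0, hW, hrow⟩
    | succ y ih =>
      obtain ⟨c, F1, pos1, k1, k2, k3, k4, k5⟩ := ih
      rcases hR.step k2 k3 k4 k5 with hn | ⟨c', F', pos', g1, g2, g3, g4, g5⟩
      · exfalso
        apply hnd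
        rw [Part.dom_iff_mem]
        exact ⟨c, StateTransition.mem_eval.2 ⟨k1, hn⟩⟩
      · exact ⟨c', F', pos', k1.tail g1, g2, g3, g4, g5⟩
  obtain ⟨c, F1, pos1, k1, k2, k3, k4, k5⟩ := key (p - 1)
  obtain ⟨e, w, s, h⟩ := k5 0 (by omega)
  have hp := hR.pos
  have := hR.mN _ _ _ _ _ _ _ _ _ _ h (by rw [show p - 1 + 1 = p by omega]; exact hR.corY)
  simp at this

end

end Pool.Agent.Helper948.Tile
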