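import Mathlib
import Pool.Agent.Helper948.Tile.TM
import Pool.Agent.Helper948.Tile.Prim
import Pool.Agent.Helper948.Erode.Source

set_option autoImplicit false
set_option linter.unusedSectionVars false

namespace Pool.Agent.Helper948.Tile

open Turing

section

variable {Γ Λ : Type} [Inhabited Γ] [Inhabited Λ] {a b : ℕ} (eG : Γ ≃ Fin a) (eL : Λ ≃ Fin b)

/-- the numeral of a horizontal colour -/
def ch (eL : Λ ≃ Fin b) : HC Λ → ℕ
  | .m0 => 1
  | .tp => 2
  | .mr q => 2 * (eL q : ℕ) + 3
  | .ml q => 2 * (eL q : ℕ) + 4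
  | .init s => 2 * b + 3 + s

/-- the numeral of a vertical colour -/
def cv (eG : Γ ≃ Fin a) (eL : Λ ≃ Fin b) : VC Γ Λ → ℕ
  | .lb => 1
  | .rb => 2
  | .sy x => (eG x : ℕ) + 3
  | .hd q x => a + 3 + (a * (eL q : ℕ) + (eG x : ℕ))

theorem ch_inj : Function.Injective (ch eL) := by
  intro c d h
  rcases c with s | _ | q | q | _ <;> rcases d with s' | _ | q' | q' | _ <;>
    simp only [ch] at h
  all_goals first | rfl | skip
  · congr 1; omega
  · omega
  · have := (eL q').2; omega
  · have := (eL q').2; omega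
  · omega
  · omega
  · omega
  · omega
  · omega
  · have := (eL q).2; omega
  · omega
  · congr 1; apply eL.injective; apply Fin.ext; omega
  · omega
  · omega
  · have := (eL q).2; omega
  · omega
  · omega
  · congr 1; apply eL.injective; apply Fin.ext; omega
  · omega
  · omega
  · omega
  · omega
  · omega

theorem cv_inj : Function.Injective (cv eG eL) := by
  intro c d h
  rcases c with _ | _ | x | ⟨q, x⟩ <;> rcases d with _ | _ | x' | ⟨q', x'⟩ <;>
    simp only [cv] at h
  all_goals first | rfl | skip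
  · omega
  · omega
  · omega
  · omega
  · omega
  · omega
  · omega
  · omega
  · congr 1; apply eG.injective; apply Fin.ext; omega
  · have := (eG x).2; omega
  · omega
  · omega
  · have := (eG x').2; omega
  · have h1 : a * (eL q : ℕ) + (eG x : ℕ) = a * (eL q' : ℕ) + (eG x' : ℕ) := by omega
    have hx := (eG x).2
    have hx' := (eG x').2
    have h2 : (eL q : ℕ) = (eL q' : ℕ) := by
      have : (a * (eL q : ℕ) + (eG x : ℕ)) / a = (a * (eL q' : ℕ) + (eG x' : ℕ)) / a := by
        rw [h1]
      rw [Nat.mul_add_div (by omega), Nat.mul_add_div (by omega), Nat.div_eq_of_lt hx,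
        Nat.div_eq_of_lt hx'] at this
      omega
    rw [h2] at h1
    have h3 : q = q' := eL.injective (Fin.ext h2)
    have h4 : x = x' := eG.injective (Fin.ext (by omega))
    rw [h3, h4]

theorem ch_pos (c : HC Λ) : 0 < ch eL c := by
  cases c <;> simp only [ch] <;> omega

theorem cv_pos (c : VC Γ Λ) : 0 < cv eG eL c := by
  cases c <;> simp only [cv] <;> omega

theorem cv_le (c : VC Γ Λ) : cv eG eL c ≤ a + 3 + (a * b + a) := by
  cases c with
  | lb => simp only [cv]; omega
  | rb => simp only [cv]; omega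
  | sy x =>
    have := (eG x).2
    simp only [cv]
    omega
  | hd q x =>
    have h1 := (eG x).2
    have h2 := (eL q).2
    have : a * (eL q : ℕ) ≤ a * b := Nat.mul_le_mul_left _ h2.le
    simp only [cv]
    omega

/-- optional colours -/
def oh (eL : Λ ≃ Fin b) : Option (HC Λ) → ℕ
  | none => 0
  | some c => ch eL c

/-- optional colours -/
def ov (eG : Γ ≃ Fin a) (eL : Λ ≃ Fin b) : Option (VC Γ Λ) → ℕ
  | none => 0
  | some c => cv eG eL c

theorem oh_inj : Function.Injective (oh eL) := by
  intro c d h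
  rcases c with _ | c <;> rcases d with _ | d
  · rfl
  · have := ch_pos eL d
    simp only [oh] at h
    omega
  · have := ch_pos eL c
    simp only [oh] at h
    omega
  · simp only [oh] at h
    rw [ch_inj eL h]

theorem ov_inj : Function.Injective (ov eG eL) := by
  intro c d h
  rcases c with _ | c <;> rcases d with _ | d
  · rfl
  · have := cv_pos eG eL d
    simp only [ov] at h
    omega
  · have := cv_pos eG eL c
    simp only [ov] at h
    omega
  · simp only [ov] at h
    rw [cv_inj eG eL h]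

/-- the code of a square -/
def cd (eG : Γ ≃ Fin a) (eL : Λ ≃ Fin b) (e : Option (HC Λ)) (n : Option (VC Γ Λ))
    (w : Option (HC Λ)) (s : Option (VC Γ Λ)) : ℕ × ℕ × ℕ × ℕ :=
  (oh eL e, ov eG eL n, oh eL w, ov eG eL s)

/-- the squares not depending on the word, except for its first letter -/
inductive WC (M : TM0.Machine Γ Λ) (a0 : Γ) :
    Option (HC Λ) → Option (VC Γ Λ) → Option (HC Λ) → Option (VC Γ Λ) → Prop
  | corner : WC M a0 (some (.init 0)) (some .lb) none none
  | blankL : WC M a0 (some (.init 0)) (some (.sy default)) (some (.init 0)) none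
  | first : WC M a0 (some (.init 1)) (some (.hd default a0)) (some (.init 0)) none
  | midL : WC M a0 (some .m0) (some .lb) none (some .lb)
  | midR : WC M a0 none (some .rb) (some .m0) (some .rb)
  | keep (a : Γ) : WC M a0 (some .m0) (some (.sy a)) (some .m0) (some (.sy a))
  | inL (q : Λ) (a : Γ) : WC M a0 (some .m0) (some (.hd q a)) (some (.mr q)) (some (.sy a))
  | inR (q : Λ) (a : Γ) : WC M a0 (some (.ml q)) (some (.hd q a)) (some .m0) (some (.sy a))
  | wr (q : Λ) (a : Γ) (q' : Λ) (b : Γ) (h : M q a = some (q', .write b)) :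
      WC M a0 (some .m0) (some (.hd q' b)) (some .m0) (some (.hd q a))
  | mvR (q : Λ) (a : Γ) (q' : Λ) (h : M q a = some (q', .move .right)) :
      WC M a0 (some (.mr q')) (some (.sy a)) (some .m0) (some (.hd q a))
  | mvL (q : Λ) (a : Γ) (q' : Λ) (h : M q a = some (q', .move .left)) :
      WC M a0 (some .m0) (some (.sy a)) (some (.ml q')) (some (.hd q a))
  | topL : WC M a0 (some .tp) none none (some .lb)
  | topR : WC M a0 none none (some .tp) (some .rb)
  | topS (a : Γ) : WC M a0 (some .tp) none (some .tp) (some (.sy a))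
  | topH (q : Λ) (a : Γ) (h : M q a = none) : WC M a0 (some .tp) none (some .tp) (some (.hd q a))

theorem WT_iff (M : TM0.Machine Γ Λ) (l : List Γ) (e : Option (HC Λ)) (n : Option (VC Γ Λ))
    (w : Option (HC Λ)) (s : Option (VC Γ Λ)) : WT M l e n w s ↔
      WC M (l.getI 0) e n w s ∨
      (∃ i, 1 ≤ i ∧ i < l.length ∧ e = some (.init (i + 1)) ∧ n = some (.sy (l.getI i)) ∧
        w = some (.init i) ∧ s = none) ∨
      (e = some (.init l.length) ∧ n = some (.sy default) ∧ w = some (.init l.length) ∧ s = none) ∨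
      (e = none ∧ n = some .rb ∧ w = some (.init l.length) ∧ s = none) := by
  constructor
  · intro h
    cases h with
    | corner => exact Or.inl WC.corner
    | blankL => exact Or.inl WC.blankL
    | first => exact Or.inl WC.first
    | sym i h1 h2 => exact Or.inr (Or.inl ⟨i, h1, h2, rfl, rfl, rfl, rfl⟩)
    | blankR => exact Or.inr (Or.inr (Or.inl ⟨rfl, rfl, rfl, rfl⟩))
    | endR => exact Or.inr (Or.inr (Or.inr ⟨rfl, rfl, rfl, rfl⟩))
    | midL => exact Or.inl WC.midL
    | midR => exact Or.inl WC.midR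
    | keep a => exact Or.inl (WC.keep a)
    | inL q a => exact Or.inl (WC.inL q a)
    | inR q a => exact Or.inl (WC.inR q a)
    | wr q a q' b h => exact Or.inl (WC.wr q a q' b h)
    | mvR q a q' h => exact Or.inl (WC.mvR q a q' h)
    | mvL q a q' h => exact Or.inl (WC.mvL q a q' h)
    | topL => exact Or.inl WC.topL
    | topR => exact Or.inl WC.topR
    | topS a => exact Or.inl (WC.topS a)
    | topH q a h => exact Or.inl (WC.topH q a h)
  · rintro (h | ⟨i, h1, h2, rfl, rfl, rfl, rfl⟩ | ⟨rfl, rfl, rfl, rfl⟩ | ⟨rfl, rfl, rfl, rfl⟩)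
    · cases h with
      | corner => exact WT.corner
      | blankL => exact WT.blankL
      | first => exact WT.first
      | midL => exact WT.midL
      | midR => exact WT.midR
      | keep a => exact WT.keep a
      | inL q a => exact WT.inL q a
      | inR q a => exact WT.inR q a
      | wr q a q' b h => exact WT.wr q a q' b h
      | mvR q a q' h => exact WT.mvR q a q' h
      | mvL q a q' h => exact WT.mvL q a q' h
      | topL => exact WT.topL
      | topR => exact WT.topR
      | topS a => exact WT.topS a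
      | topH q a h => exact WT.topH q a h
    · exact WT.sym i h1 h2
    · exact WT.blankR
    · exact WT.endR

theorem WC_bd (M : TM0.Machine Γ Λ) (a0 : Γ) {e : Option (HC Λ)} {n : Option (VC Γ Λ)}
    {w : Option (HC Λ)} {s : Option (VC Γ Λ)} (h : WC M a0 e n w s) :
    oh eL e ≤ 2 * b + 4 ∧ oh eL w ≤ 2 * b + 4 := by
  cases h with
  | mvR q a q' h =>
    have := (eL q').2
    simp only [oh, ch]; omega
  | mvL q a q' h =>
    have := (eL q').2
    simp only [oh, ch]; omega
  | inL q a =>
    have := (eL q).2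
    simp only [oh, ch]; omega
  | inR q a =>
    have := (eL q).2
    simp only [oh, ch]; omega
  | _ => simp only [oh, ch]; omega

theorem ov_le (n : Option (VC Γ Λ)) : ov eG eL n ≤ a + 3 + (a * b + a) := by
  cases n with
  | none => simp [ov]
  | some c => exact cv_le eG eL c

theorem exists_cst (M : TM0.Machine Γ Λ) (a0 : Γ) : ∃ L : List (ℕ × ℕ × ℕ × ℕ), ∀ t,
    t ∈ L ↔ ∃ e n w s, WC M a0 e n w s ∧ t = cd eG eL e n w s := by
  have hfin : {t : ℕ × ℕ × ℕ × ℕ | ∃ e n w s, WC M a0 e n w s ∧ t = cd eG eL e n w s}.Finite := by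
    refine Set.Finite.subset (Set.finite_Iic
      ((2 * b + 4, a + 3 + (a * b + a), 2 * b + 4, a + 3 + (a * b + a)) : ℕ × ℕ × ℕ × ℕ)) ?_
    rintro t ⟨e, n, w, s, h, rfl⟩
    obtain ⟨h1, h2⟩ := WC_bd eL M a0 h
    exact ⟨h1, ov_le eG eL n, h2, ov_le eG eL s⟩
  refine ⟨hfin.toFinset.toList, fun t => ?_⟩
  rw [Finset.mem_toList, Set.Finite.mem_toFinset]
  rfl

/-- the squares depending on the word -/
def syms (b : ℕ) (lw : List ℕ) : List (ℕ × ℕ × ℕ × ℕ) :=
  (List.range lw.length).flatMap fun i =>
    if i = 0 then [] else [(2 * b + 3 + (i + 1), lw.getI i, 2 * b + 3 + i, 0)]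

/-- all squares -/
def allW (cst : List (ℕ × ℕ × ℕ × ℕ)) (b d : ℕ) (lw : List ℕ) : List (ℕ × ℕ × ℕ × ℕ) :=
  cst ++ (syms b lw ++ [(2 * b + 3 + lw.length, d, 2 * b + 3 + lw.length, 0),
    (0, 2, 2 * b + 3 + lw.length, 0)])

theorem allW_pr (cst : List (ℕ × ℕ × ℕ × ℕ)) (b d : ℕ) : Primrec (allW cst b d) := by
  have hlen : Primrec (fun lw : List ℕ => lw.length) := Primrec.list_length
  have hsy : Primrec (syms b) := by
    refine Primrec.list_flatMap (Primrec.list_range.comp hlen) ?_
    have h : Primrec (fun p : List ℕ × ℕ => if p.2 = 0 then ([] : List (ℕ × ℕ × ℕ × ℕ)) else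
        [(2 * b + 3 + (p.2 + 1), p.1.getI p.2, 2 * b + 3 + p.2, 0)]) := by
      refine Primrec.ite (p_eq Primrec.snd (Primrec.const 0)) (Primrec.const []) ?_
      refine Primrec.list_cons.comp ?_ (Primrec.const [])
      refine Primrec.pair (p_add (Primrec.const (2 * b + 3)) (p_add Primrec.snd (Primrec.const 1)))
        (Primrec.pair ?_ (Primrec.pair (p_add (Primrec.const (2 * b + 3)) Primrec.snd)
          (Primrec.const 0)))
      exact Primrec.list_getI.comp Primrec.fst Primrec.snd
    exact h.to₂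
  refine Primrec.list_append.comp (Primrec.const cst) (Primrec.list_append.comp hsy ?_)
  have hl : Primrec (fun lw : List ℕ => 2 * b + 3 + lw.length) :=
    p_add (Primrec.const (2 * b + 3)) hlen
  refine Primrec.list_cons.comp (Primrec.pair hl (Primrec.pair (Primrec.const d)
    (Primrec.pair hl (Primrec.const 0)))) (Primrec.list_cons.comp
    (Primrec.pair (Primrec.const 0) (Primrec.pair (Primrec.const 2)
    (Primrec.pair hl (Primrec.const 0)))) (Primrec.const []))

theorem mem_allW (M : TM0.Machine Γ Λ) (a0 : Γ) (cst : List (ℕ × ℕ × ℕ × ℕ))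
    (hc : ∀ t, t ∈ cst ↔ ∃ e n w s, WC M a0 e n w s ∧ t = cd eG eL e n w s)
    (l : List Γ) (hl : l.getI 0 = a0) (lw : List ℕ) (hlw : lw = l.map (fun x => cv eG eL (.sy x)))
    (t : ℕ × ℕ × ℕ × ℕ) :
    t ∈ allW cst b (cv eG eL (.sy default)) lw ↔
      ∃ e n w s, WT M l e n w s ∧ t = cd eG eL e n w s := by
  have hlen : lw.length = l.length := by rw [hlw, List.length_map]
  have hget : ∀ i, i < l.length → lw.getI i = cv eG eL (.sy (l.getI i)) := by
    intro i hi
    rw [hlw, List.getI_eq_getElem _ (by rw [List.length_map]; exact hi), List.getElem_map,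
      List.getI_eq_getElem _ hi]
  unfold allW
  rw [List.mem_append, List.mem_append, hc, hlen]
  have hsy : t ∈ syms b lw ↔ ∃ i, 1 ≤ i ∧ i < l.length ∧
      t = cd eG eL (some (.init (i + 1))) (some (.sy (l.getI i))) (some (.init i)) none := by
    unfold syms
    rw [List.mem_flatMap]
    constructor
    · rintro ⟨i, hi, h⟩
      rw [List.mem_range, hlen] at hi
      split_ifs at h with h0
      · exact absurd h (by simp)
      · rw [List.mem_singleton] at h
        refine ⟨i, by omega, hi, ?_⟩
        rw [h, hget i hi]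
        rfl
    · rintro ⟨i, h1, h2, h3⟩
      refine ⟨i, by rw [List.mem_range, hlen]; exact h2, ?_⟩
      rw [if_neg (by omega), List.mem_singleton, hget i h2, h3]
      rfl
  rw [hsy]
  constructor
  · rintro (⟨e, n, w, s, h1, h2⟩ | ⟨i, h1, h2, h3⟩ | h)
    · exact ⟨e, n, w, s, (WT_iff M l e n w s).2 (Or.inl (by rw [hl]; exact h1)), h2⟩
    · exact ⟨_, _, _, _, WT.sym i h1 h2, h3⟩
    · rw [List.mem_cons, List.mem_singleton] at h
      rcases h with h | h
      · exact ⟨_, _, _, _, WT.blankR, h⟩
      · exact ⟨_, _, _, _, WT.endR, h⟩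
  · rintro ⟨e, n, w, s, h1, h2⟩
    rcases (WT_iff M l e n w s).1 h1 with h | ⟨i, k1, k2, rfl, rfl, rfl, rfl⟩ |
      ⟨rfl, rfl, rfl, rfl⟩ | ⟨rfl, rfl, rfl, rfl⟩
    · left
      exact ⟨e, n, w, s, by rw [← hl]; exact h, h2⟩
    · right; left
      exact ⟨i, k1, k2, h2⟩
    · right; right
      rw [List.mem_cons]
      exact Or.inl h2
    · right; right
      rw [List.mem_cons, List.mem_singleton]
      exact Or.inr h2

/-- bound for the colours -/
def bnd (a b : ℕ) (lw : List ℕ) : ℕ := 2 * b + 4 + (a + 3 + (a * b + a)) + lw.length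

theorem bnd_pr (a b : ℕ) : Primrec (bnd a b) :=
  p_add (Primrec.const _) Primrec.list_length

theorem WT_bd (M : TM0.Machine Γ Λ) (l : List Γ) {e : Option (HC Λ)} {n : Option (VC Γ Λ)}
    {w : Option (HC Λ)} {s : Option (VC Γ Λ)} (h : WT M l e n w s) (lw : List ℕ)
    (hlw : lw.length = l.length) : Bdd (bnd a b lw) (cd eG eL e n w s) := by
  have h1 := ov_le eG eL n
  have h2 := ov_le eG eL s
  unfold Bdd bnd cd
  simp only
  rw [hlw]
  generalize a + 3 + (a * b + a) = c at *
  rcases (WT_iff M l e n w s).1 h with h | ⟨i, k1, k2, rfl, rfl, rfl, rfl⟩ |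
      ⟨rfl, rfl, rfl, rfl⟩ | ⟨rfl, rfl, rfl, rfl⟩
  · obtain ⟨g1, g2⟩ := WC_bd eL M _ h
    omega
  · simp only [oh, ch]
    omega
  · simp only [oh, ch]
    omega
  · simp only [oh, ch]
    omega

end

end Pool.Agent.Helper948.Tile
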