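import Mathlib
import Pool.Agent.Helper948.Tile.Sets

set_option autoImplicit false

namespace Pool.Agent.Helper948.Tile

/-- the norm -/
def nm (v : ℤ × ℤ) : ℕ := v.1.natAbs + v.2.natAbs

/-- The finite set `S` is the disjoint union of the translates listed in `Φ`. -/
def Tiled (𝒯 : Finset (Finset (ℤ × ℤ))) (Φ : Finset ((ℤ × ℤ) × Finset (ℤ × ℤ)))
    (S : Finset (ℤ × ℤ)) : Prop :=
  (∀ q ∈ Φ, q.2 ∈ 𝒯 ∧ ∀ t ∈ q.2, q.1 + t ∈ S) ∧
    ∀ u ∈ S, ∃! q : (ℤ × ℤ) × Finset (ℤ × ℤ), q ∈ Φ ∧ u - q.1 ∈ q.2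

theorem tiled_empty (𝒯 : Finset (Finset (ℤ × ℤ))) : Tiled 𝒯 ∅ ∅ := by
  refine ⟨fun q hq => absurd hq (by simp), fun u hu => absurd hu (by simp)⟩

theorem tiled_union {𝒯 : Finset (Finset (ℤ × ℤ))} {Φ1 Φ2 : Finset ((ℤ × ℤ) × Finset (ℤ × ℤ))}
    {S1 S2 : Finset (ℤ × ℤ)} (h1 : Tiled 𝒯 Φ1 S1) (h2 : Tiled 𝒯 Φ2 S2) (hd : Disjoint S1 S2) :
    Tiled 𝒯 (Φ1 ∪ Φ2) (S1 ∪ S2) := by
  obtain ⟨a1, b1⟩ := h1
  obtain ⟨a2, b2⟩ := h2
  rw [Finset.disjoint_left] at hd
  refine ⟨?_, ?_⟩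
  · intro q hq
    rcases Finset.mem_union.1 hq with h | h
    · exact ⟨(a1 q h).1, fun t ht => Finset.mem_union_left _ ((a1 q h).2 t ht)⟩
    · exact ⟨(a2 q h).1, fun t ht => Finset.mem_union_right _ ((a2 q h).2 t ht)⟩
  · intro u hu
    have in1 : ∀ q ∈ Φ1, u - q.1 ∈ q.2 → u ∈ S1 := by
      intro q hq h
      have := (a1 q hq).2 _ h
      rwa [add_sub_cancel] at this
    have in2 : ∀ q ∈ Φ2, u - q.1 ∈ q.2 → u ∈ S2 := by
      intro q hq h
      have := (a2 q hq).2 _ h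
      rwa [add_sub_cancel] at this
    by_cases hu1 : u ∈ S1
    · obtain ⟨q, ⟨hq1, hq2⟩, hq3⟩ := b1 u hu1
      refine ⟨q, ⟨Finset.mem_union_left _ hq1, hq2⟩, ?_⟩
      rintro q' ⟨g1, g2⟩
      rcases Finset.mem_union.1 g1 with h | h
      · exact hq3 q' ⟨h, g2⟩
      · exact absurd (in2 q' h g2) (hd hu1)
    · have hu2 : u ∈ S2 := by
        rcases Finset.mem_union.1 hu with h | h
        · exact absurd h hu1
        · exact h
      obtain ⟨q, ⟨hq1, hq2⟩, hq3⟩ := b2 u hu2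
      refine ⟨q, ⟨Finset.mem_union_right _ hq1, hq2⟩, ?_⟩
      rintro q' ⟨g1, g2⟩
      rcases Finset.mem_union.1 g1 with h | h
      · exact absurd (in1 q' h g2) hu1
      · exact hq3 q' ⟨h, g2⟩

theorem tiled_single {𝒯 : Finset (Finset (ℤ × ℤ))} {T : Finset (ℤ × ℤ)} (hT : T ∈ 𝒯)
    (g : ℤ × ℤ) (S : Finset (ℤ × ℤ)) (h : ∀ w, w ∈ S ↔ w - g ∈ T) : Tiled 𝒯 {(g, T)} S := by
  refine ⟨?_, ?_⟩
  · intro q hq
    rw [Finset.mem_singleton] at hq
    subst hq
    refine ⟨hT, fun t ht => ?_⟩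
    rw [h]
    simpa using ht
  · intro u hu
    refine ⟨(g, T), ⟨by simp, (h u).1 hu⟩, ?_⟩
    rintro q' ⟨g1, -⟩
    simpa using g1

theorem pair_aux (u v : ℤ × ℤ) (d : ℕ × ℕ)
    (hd : v.1 - u.1 = d.1 ∧ v.2 - u.2 = d.2) (hl : [(0, 0), d] ∈ filL) :
    ∃ g, ∃ l ∈ filL, ∀ w : ℤ × ℤ, (w = u ∨ w = v) ↔ w - g ∈ toF l := by
  refine ⟨u, _, hl, ?_⟩
  rintro ⟨a, b⟩
  obtain ⟨u1, u2⟩ := u
  obtain ⟨v1, v2⟩ := v
  simp only at hd
  simp only [toF, List.map_cons, List.map_nil, List.toFinset_cons, List.toFinset_nil,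
    Finset.mem_insert, Prod.mk.injEq, Prod.mk_sub_mk, Finset.notMem_empty, or_false]
  omega

theorem pair_aux2 (u v : ℤ × ℤ)
    (hd : v.1 - u.1 = 1 ∧ v.2 - u.2 = -1) :
    ∃ g, ∃ l ∈ filL, ∀ w : ℤ × ℤ, (w = u ∨ w = v) ↔ w - g ∈ toF l := by
  refine ⟨(u.1, u.2 - 1), [(0, 1), (1, 0)], by decide, ?_⟩
  rintro ⟨a, b⟩
  obtain ⟨u1, u2⟩ := u
  obtain ⟨v1, v2⟩ := v
  simp only at hd
  simp only [toF, List.map_cons, List.map_nil, List.toFinset_cons, List.toFinset_nil,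
    Finset.mem_insert, Prod.mk.injEq, Prod.mk_sub_mk, Finset.notMem_empty, or_false]
  omega

theorem pair_fil (u v : ℤ × ℤ) (h : u ≠ v) (h2 : nm (u - v) ≤ 2) :
    ∃ g, ∃ l ∈ filL, ∀ w : ℤ × ℤ, (w = u ∨ w = v) ↔ w - g ∈ toF l := by
  have sym : (∃ g, ∃ l ∈ filL, ∀ w : ℤ × ℤ, (w = v ∨ w = u) ↔ w - g ∈ toF l) →
      ∃ g, ∃ l ∈ filL, ∀ w : ℤ × ℤ, (w = u ∨ w = v) ↔ w - g ∈ toF l := by
    rintro ⟨g, l, hl, hw⟩
    exact ⟨g, l, hl, fun w => by rw [or_comm]; exact hw w⟩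
  have h3 : ¬ (u.1 - v.1 = 0 ∧ u.2 - v.2 = 0) := by
    rintro ⟨e1, e2⟩
    apply h
    ext
    · omega
    · omega
  unfold nm at h2
  simp only [Prod.fst_sub, Prod.snd_sub] at h2
  obtain ⟨a, ha⟩ : ∃ a, v.1 - u.1 = a := ⟨_, rfl⟩
  obtain ⟨b, hb⟩ : ∃ b, v.2 - u.2 = b := ⟨_, rfl⟩
  have ha1 : -2 ≤ a := by omega
  have ha2 : a ≤ 2 := by omega
  have hb1 : -2 ≤ b := by omega
  have hb2 : b ≤ 2 := by omega
  have h4 : a.natAbs + b.natAbs ≤ 2 := by omega
  have h5 : ¬ (a = 0 ∧ b = 0) := by omega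
  clear h2 h3
  interval_cases a <;> interval_cases b <;>
    first
    | (exfalso; revert h4; decide)
    | (exfalso; exact h5 ⟨rfl, rfl⟩)
    | exact pair_aux u v (1, 0) ⟨ha, hb⟩ (by decide)
    | exact pair_aux u v (0, 1) ⟨ha, hb⟩ (by decide)
    | exact pair_aux u v (2, 0) ⟨ha, hb⟩ (by decide)
    | exact pair_aux u v (0, 2) ⟨ha, hb⟩ (by decide)
    | exact pair_aux u v (1, 1) ⟨ha, hb⟩ (by decide)
    | exact pair_aux2 u v ⟨ha, hb⟩
    | exact sym (pair_aux v u (1, 0) ⟨by simp only; omega, by simp only; omega⟩ (by decide))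
    | exact sym (pair_aux v u (0, 1) ⟨by simp only; omega, by simp only; omega⟩ (by decide))
    | exact sym (pair_aux v u (2, 0) ⟨by simp only; omega, by simp only; omega⟩ (by decide))
    | exact sym (pair_aux v u (0, 2) ⟨by simp only; omega, by simp only; omega⟩ (by decide))
    | exact sym (pair_aux v u (1, 1) ⟨by simp only; omega, by simp only; omega⟩ (by decide))
    | exact sym (pair_aux2 v u ⟨by omega, by omega⟩)

theorem tiled_pair (K : ℕ) (W : List (ℕ × ℕ × ℕ × ℕ)) (u v : ℤ × ℤ) (h : u ≠ v)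
    (h2 : nm (u - v) ≤ 2) : ∃ Φ, Tiled (tset K W) Φ {u, v} := by
  obtain ⟨g, l, hl, hw⟩ := pair_fil u v h h2
  refine ⟨_, tiled_single (T := toF l) ((mem_tset K W _).2 (Or.inl ⟨l, hl, rfl⟩)) g _ ?_⟩
  intro w
  rw [← hw]
  simp

theorem matching (K : ℕ) (W : List (ℕ × ℕ × ℕ × ℕ)) (par : ℤ × ℤ → ℤ × ℤ)
    (hpar : ∀ u, u ≠ 0 → nm (par u) + 1 = nm u ∧ nm (u - par u) = 1) :
    ∀ (m : ℕ) (F : Finset (ℤ × ℤ)), F.card = 2 * m → (∀ u ∈ F, u ≠ 0 → par u ∈ F) →
    ∃ Φ, Tiled (tset K W) Φ F := by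
  intro m
  induction m with
  | zero =>
    intro F hF _
    have : F = ∅ := Finset.card_eq_zero.1 (by omega)
    subst this
    exact ⟨∅, tiled_empty _⟩
  | succ m ih =>
    intro F hF hcl
    have hne : F.Nonempty := Finset.card_pos.1 (by omega)
    obtain ⟨u, hu, hmax⟩ := Finset.exists_max_image F nm hne
    have hu0 : u ≠ 0 := by
      rintro rfl
      have : F ⊆ {0} := by
        intro v hv
        have := hmax v hv
        rw [Finset.mem_singleton]
        unfold nm at this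
        simp only [Prod.fst_zero, Prod.snd_zero, Int.natAbs_zero] at this
        ext
        · simp only [Prod.fst_zero]
          omega
        · simp only [Prod.snd_zero]
          omega
      have := Finset.card_le_card this
      rw [Finset.card_singleton] at this
      omega
    obtain ⟨hp1, hp2⟩ := hpar u hu0
    have hbF := hcl u hu hu0
    have step : ∀ v, v ∈ F → v ≠ u → nm (u - v) ≤ 2 →
        (∀ w ∈ F, w ≠ 0 → w ≠ u → w ≠ v → par w ≠ v) → ∃ Φ, Tiled (tset K W) Φ F := by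
      intro v hv hvu hd hch
      obtain ⟨Φ1, h1⟩ := tiled_pair K W u v (Ne.symm hvu) hd
      have hcard : ((F.erase u).erase v).card = 2 * m := by
        rw [Finset.card_erase_of_mem (Finset.mem_erase.2 ⟨hvu, hv⟩), Finset.card_erase_of_mem hu]
        omega
      obtain ⟨Φ2, h2⟩ := ih ((F.erase u).erase v) hcard (by
        intro w hw hw0
        rw [Finset.mem_erase, Finset.mem_erase] at hw ⊢
        obtain ⟨k1, k2, k3⟩ := hw
        refine ⟨hch w k3 hw0 k2 k1, ?_, hcl w k3 hw0⟩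
        intro e
        have := (hpar w hw0).1
        have := hmax w k3
        rw [e] at *
        omega)
      have hF2 : F = {u, v} ∪ ((F.erase u).erase v) := by
        ext w
        simp only [Finset.mem_union, Finset.mem_insert, Finset.mem_singleton, Finset.mem_erase]
        constructor
        · intro hw
          by_cases e1 : w = u
          · exact Or.inl (Or.inl e1)
          · by_cases e2 : w = v
            · exact Or.inl (Or.inr e2)
            · exact Or.inr ⟨e2, e1, hw⟩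
        · rintro ((rfl | rfl) | ⟨_, _, hw⟩)
          · exact hu
          · exact hv
          · exact hw
      rw [hF2]
      refine ⟨_, tiled_union h1 h2 ?_⟩
      rw [Finset.disjoint_left]
      intro w hw hw2
      rw [Finset.mem_erase, Finset.mem_erase] at hw2
      rw [Finset.mem_insert, Finset.mem_singleton] at hw
      rcases hw with hw | hw
      · exact hw2.2.1 hw
      · exact hw2.1 hw
    by_cases h : ∃ v ∈ F, v ≠ u ∧ v ≠ 0 ∧ par v = par u
    · obtain ⟨v, hv, hvu, hv0, he⟩ := h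
      obtain ⟨hq1, hq2⟩ := hpar v hv0
      refine step v hv hvu ?_ ?_
      · rw [he] at hq2
        unfold nm at hp2 hq2 ⊢
        simp only [Prod.fst_sub, Prod.snd_sub] at hp2 hq2 ⊢
        omega
      · intro w hw hw0 _ _ e
        have h3 := (hpar w hw0).1
        have h4 := hmax w hw
        rw [e] at h3
        rw [he] at hq1
        omega
    · push Not at h
      refine step (par u) hbF ?_ (by omega) ?_
      · intro e
        rw [e] at hp1
        omega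
      · intro w hw hw0 hwu _ e
        exact h w hw hwu hw0 e

end Pool.Agent.Helper948.Tile
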