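import Mathlib
import Pool.Agent.Helper948.Tile.Match

set_option autoImplicit false

namespace Pool.Agent.Helper948.Tile

/-- the residues inside the boxes -/
def AX (K X : ℕ) : Finset ℤ :=
  ((Finset.range (X + 1)) ×ˢ (Finset.range (18 * K + 6))).image
    (fun q => (18 * (K : ℤ) + 7) * ((q.1 : ℤ) + 1) + q.2 + 1)

theorem mem_AX {K X : ℕ} {a : ℤ} : a ∈ AX K X ↔ ∃ x r : ℕ, x ≤ X ∧ r < 18 * K + 6 ∧
    a = (18 * (K : ℤ) + 7) * ((x : ℤ) + 1) + r + 1 := by
  unfold AX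
  simp only [Finset.mem_image, Finset.mem_product, Finset.mem_range, Prod.exists]
  constructor
  · rintro ⟨x, r, ⟨h1, h2⟩, h3⟩
    exact ⟨x, r, by omega, h2, h3.symm⟩
  · rintro ⟨x, r, h1, h2, h3⟩
    exact ⟨x, r, ⟨by omega, h2⟩, h3.symm⟩

theorem euc (L m m' r r' : ℤ) (h : L * m + r = L * m' + r') (h1 : 0 ≤ r) (h2 : r < L)
    (h3 : 0 ≤ r') (h4 : r' < L) : m = m' ∧ r = r' := by
  have hL : 0 < L := by omega
  have e : m = m' := by
    rcases lt_trichotomy m m' with hm | hm | hm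
    · exfalso
      have : L * (m + 1) ≤ L * m' := mul_le_mul_of_nonneg_left (by omega) hL.le
      rw [mul_add, mul_one] at this
      omega
    · exact hm
    · exfalso
      have : L * (m' + 1) ≤ L * m := mul_le_mul_of_nonneg_left (by omega) hL.le
      rw [mul_add, mul_one] at this
      omega
  subst e
  exact ⟨rfl, by omega⟩

theorem card_AX (K X : ℕ) : (AX K X).card = (X + 1) * (18 * K + 6) := by
  unfold AX
  rw [Finset.card_image_of_injOn, Finset.card_product, Finset.card_range, Finset.card_range]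
  rintro ⟨x, r⟩ h1 ⟨x', r'⟩ h2 h3
  simp only [Finset.coe_product, Finset.coe_range, Set.mem_prod, Set.mem_Iio] at h1 h2
  simp only at h3
  have := euc (18 * (K : ℤ) + 7) (x + 1) (x' + 1) r r' (by linarith) (by omega) (by omega)
    (by omega) (by omega)
  ext
  · simp only
    omega
  · simp only
    omega

theorem AX_mul {K X : ℕ} (m : ℤ) : (18 * (K : ℤ) + 7) * m ∉ AX K X := by
  rw [mem_AX]
  rintro ⟨x, r, h1, h2, h3⟩
  have := euc (18 * (K : ℤ) + 7) m (x + 1) 0 (r + 1) (by linarith) (by omega) (by omega)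
    (by omega) (by omega)
  omega

theorem AX_pos {K X : ℕ} {a : ℤ} (h : a ∈ AX K X) : 18 * (K : ℤ) + 7 < a := by
  rw [mem_AX] at h
  obtain ⟨x, r, h1, h2, h3⟩ := h
  have : (18 * (K : ℤ) + 7) * 1 ≤ (18 * (K : ℤ) + 7) * ((x : ℤ) + 1) :=
    mul_le_mul_of_nonneg_left (by omega) (by omega)
  omega

theorem AX_lt {K X : ℕ} {a : ℤ} (h : a ∈ AX K X) : a < (18 * (K : ℤ) + 7) * ((X : ℤ) + 2) := by
  rw [mem_AX] at h
  obtain ⟨x, r, h1, h2, h3⟩ := h
  have h4 : (18 * (K : ℤ) + 7) * ((x : ℤ) + 1 + 1) ≤ (18 * (K : ℤ) + 7) * ((X : ℤ) + 2) :=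
    mul_le_mul_of_nonneg_left (by omega) (by omega)
  rw [mul_add _ _ 1, mul_one] at h4
  omega

theorem AX_pred {K X : ℕ} {b : ℤ} (h : b - 1 ∈ AX K X) (h2 : b ∉ AX K X) :
    ∃ m, b = (18 * (K : ℤ) + 7) * m := by
  rw [mem_AX] at h h2
  obtain ⟨x, r, h3, h4, h5⟩ := h
  by_cases hr : r + 1 < 18 * K + 6
  · exfalso
    exact h2 ⟨x, r + 1, h3, hr, by push_cast; linarith⟩
  · refine ⟨x + 2, ?_⟩
    have e : (18 * (K : ℤ) + 7) * ((x : ℤ) + 2) = (18 * (K : ℤ) + 7) * ((x : ℤ) + 1) +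
      (18 * (K : ℤ) + 7) := by ring
    rw [e]
    omega

/-- The odd region. -/
def PP (K X T : ℕ) : Finset (ℤ × ℤ) :=
  (AX K X ×ˢ AX K T).erase (18 * (K : ℤ) + 8, 18 * (K : ℤ) + 8)

theorem cor_AX (K X : ℕ) : 18 * (K : ℤ) + 8 ∈ AX K X := by
  rw [mem_AX]
  exact ⟨0, 0, by omega, by omega, by push_cast; ring⟩

theorem PP_odd (K X T : ℕ) : ∃ m, (PP K X T).card = 2 * m + 1 := by
  unfold PP
  rw [Finset.card_erase_of_mem (Finset.mem_product.2 ⟨cor_AX K X, cor_AX K T⟩),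
    Finset.card_product, card_AX, card_AX]
  have : (X + 1) * (18 * K + 6) * ((T + 1) * (18 * K + 6)) =
      2 * ((9 * K + 3) * ((X + 1) * ((T + 1) * (18 * K + 6)))) := by ring
  rw [this]
  have hpos : 0 < (9 * K + 3) * ((X + 1) * ((T + 1) * (18 * K + 6))) := by positivity
  refine ⟨(9 * K + 3) * ((X + 1) * ((T + 1) * (18 * K + 6))) - 1, ?_⟩
  omega

open Classical in
/-- The parent of a point. -/
noncomputable def par (K : ℕ) (u : ℤ × ℤ) : ℤ × ℤ :=
  if (∃ m, u.2 = (18 * (K : ℤ) + 7) * m) ∧ u.1 ≠ 0 then (u.1 - u.1.sign, u.2)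
  else if u = (18 * (K : ℤ) + 8, 18 * (K : ℤ) + 8) then (18 * (K : ℤ) + 7, 18 * (K : ℤ) + 8)
  else (u.1, u.2 - u.2.sign)

theorem sign_facts (a : ℤ) (h : a ≠ 0) : (a - a.sign).natAbs + 1 = a.natAbs ∧
    (a - (a - a.sign)).natAbs = 1 := by
  rcases lt_or_gt_of_ne h with h1 | h1
  · rw [Int.sign_eq_neg_one_of_neg h1]
    omega
  · rw [Int.sign_eq_one_of_pos h1]
    omega

theorem par_nm (K : ℕ) (u : ℤ × ℤ) (hu : u ≠ 0) :
    nm (par K u) + 1 = nm u ∧ nm (u - par K u) = 1 := by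
  obtain ⟨a, b⟩ := u
  unfold par
  split_ifs with h1 h2
  · have := sign_facts a h1.2
    unfold nm
    simp only [Prod.fst_sub, Prod.snd_sub, sub_self, Int.natAbs_zero]
    omega
  · rw [h2]
    unfold nm
    simp only [Prod.fst_sub, Prod.snd_sub]
    omega
  · have hb : b ≠ 0 := by
      intro hb
      apply h1
      refine ⟨⟨0, by simp [hb]⟩, ?_⟩
      intro ha
      apply hu
      simp only at ha
      rw [ha, hb]
      rfl
    have := sign_facts b hb
    unfold nm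
    simp only [Prod.fst_sub, Prod.snd_sub, sub_self, Int.natAbs_zero]
    omega

theorem par_PP (K X T : ℕ) (u : ℤ × ℤ) (hu : u ∉ PP K X T) : par K u ∉ PP K X T := by
  obtain ⟨a, b⟩ := u
  unfold PP at hu ⊢
  rw [Finset.mem_erase, Finset.mem_product] at hu ⊢
  unfold par
  split_ifs with h1 h2
  · rintro ⟨-, -, h⟩
    obtain ⟨⟨m, hm⟩, -⟩ := h1
    simp only at h hm
    rw [hm] at h
    exact AX_mul m h
  · rintro ⟨-, h, -⟩
    simp only at h
    have := AX_mul (K := K) (X := X) 1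
    rw [mul_one] at this
    exact this h
  · rintro ⟨h3, h4, h5⟩
    simp only at h3 h4 h5
    by_cases hb : b ∈ AX K T
    · exact hu ⟨h2, h4, hb⟩
    · have hpos := AX_pos h5
      have hb0 : 0 < b := by
        by_contra hc
        rcases lt_or_eq_of_le (not_lt.1 hc) with h6 | h6
        · rw [Int.sign_eq_neg_one_of_neg h6] at hpos
          omega
        · rw [h6] at hpos
          simp at hpos
          omega
      rw [Int.sign_eq_one_of_pos hb0] at h5
      obtain ⟨m, hm⟩ := AX_pred h5 hb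
      apply h1
      refine ⟨⟨m, hm⟩, ?_⟩
      have := AX_pos h4
      simp only
      omega

/-- The colours of the square at a site. -/
def wq (H V : ℕ → ℕ → ℕ) (X T x y : ℕ) : ℕ × ℕ × ℕ × ℕ :=
  (if x < X then H x y else 0, if y < T then V x y else 0,
    if 0 < x then H (x - 1) y else 0, if 0 < y then V x (y - 1) else 0)

theorem pos_aux (L m r p : ℤ) (hr : 0 ≤ r) (hr2 : r < L - 1)
    (hp : p = L * m + L + r + 1) (h0 : 0 < p) (h1 : p < 2 * L) :
    (m = 0 ∧ p = L + r + 1) ∨ (m = -1 ∧ p = r + 1) := by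
  have hL : 0 < L := by omega
  have h2 : m < 1 := by
    by_contra hc
    have : L * 1 ≤ L * m := mul_le_mul_of_nonneg_left (by omega) hL.le
    omega
  have h3 : -2 < m := by
    by_contra hc
    have : L * m ≤ L * (-2) := mul_le_mul_of_nonneg_left (by omega) hL.le
    omega
  obtain rfl | rfl : m = 0 ∨ m = -1 := by omega
  · left
    refine ⟨rfl, ?_⟩
    rw [hp]
    ring
  · right
    refine ⟨rfl, ?_⟩
    rw [hp]
    ring

/-- ranges -/
theorem cell_range {K : ℕ} {t : ℕ × ℕ × ℕ × ℕ} (hb : Bdd K t) {p q : ℤ}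
    (h : Cell K t.1 t.2.1 t.2.2.1 t.2.2.2 p q) :
    (18 * (K : ℤ) + 7 < p ∧ p < 36 * K + 14 ∧ 18 * (K : ℤ) + 7 < q ∧ q < 36 * K + 14 ∧
      Body K t.1 t.2.1 t.2.2.1 t.2.2.2 p q) ∨
    (0 < t.2.2.1 ∧ 0 < p ∧ p < 18 * K + 7 ∧ 18 * (K : ℤ) + 8 < q ∧ q < 36 * K + 14 ∧
      ToothE K t.2.2.1 p q) ∨
    (0 < t.2.2.2 ∧ 18 * (K : ℤ) + 8 < p ∧ p < 36 * K + 14 ∧ 0 < q ∧ q < 18 * K + 7 ∧
      ToothN K t.2.2.2 p q) := by
  obtain ⟨h1, h2, h3, h4⟩ := hb
  rcases h with h | h | h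
  · left
    have := h.1
    exact ⟨this.1, this.2.1, this.2.2.1, this.2.2.2, h⟩
  · right; left
    have h' := h
    unfold ToothE at h'
    exact ⟨h'.1, by omega, by omega, by omega, by omega, h⟩
  · right; right
    have h' := h
    unfold ToothN at h'
    exact ⟨h'.1, by omega, by omega, by omega, by omega, h⟩

section

variable {K X T : ℕ} {W : List (ℕ × ℕ × ℕ × ℕ)} {H V : ℕ → ℕ → ℕ}

/-- The cell of a site. -/
def InS (K : ℕ) (H V : ℕ → ℕ → ℕ) (X T x y : ℕ) (a b : ℤ) : Prop :=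
  Cell K (wq H V X T x y).1 (wq H V X T x y).2.1 (wq H V X T x y).2.2.1 (wq H V X T x y).2.2.2
    (a - (18 * (K : ℤ) + 7) * x) (b - (18 * (K : ℤ) + 7) * y)

theorem InS_sub (hb : ∀ x y, x ≤ X → y ≤ T → Bdd K (wq H V X T x y)) {x y : ℕ} (hx : x ≤ X) (hy : y ≤ T)
    {a b : ℤ} (h : InS K H V X T x y a b) : (a, b) ∈ PP K X T := by
  unfold PP
  rw [Finset.mem_erase, Finset.mem_product]
  simp only
  obtain ⟨p, hp⟩ : ∃ p, a - (18 * (K : ℤ) + 7) * x = p := ⟨_, rfl⟩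
  obtain ⟨q, hq⟩ : ∃ q, b - (18 * (K : ℤ) + 7) * y = q := ⟨_, rfl⟩
  unfold InS at h
  rw [hp, hq] at h
  have h0 := cell_range (hb x y hx hy) h
  rcases h0 with ⟨k1, k2, k3, k4, k5⟩ | ⟨k0, k1, k2, k3, k4, k5⟩ | ⟨k0, k1, k2, k3, k4, k5⟩
  · refine ⟨?_, ?_, ?_⟩
    · intro e
      rw [Prod.mk.injEq] at e
      obtain ⟨e1, e2⟩ := e
      have hx0 : x = 0 := by
        by_contra hc
        have : (18 * (K : ℤ) + 7) * 1 ≤ (18 * (K : ℤ) + 7) * x :=
          mul_le_mul_of_nonneg_left (by omega) (by omega)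
        omega
      have hy0 : y = 0 := by
        by_contra hc
        have : (18 * (K : ℤ) + 7) * 1 ≤ (18 * (K : ℤ) + 7) * y :=
          mul_le_mul_of_nonneg_left (by omega) (by omega)
        omega
      subst hx0 hy0
      apply k5.2.2.2
      refine ⟨?_, ?_, ?_, ?_⟩
      · simp [wq]
      · simp [wq]
      · simp only [Nat.cast_zero, mul_zero, sub_zero] at hp
        omega
      · simp only [Nat.cast_zero, mul_zero, sub_zero] at hq
        omega
    · rw [mem_AX]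
      refine ⟨x, (p - (18 * K + 7) - 1).toNat, hx, by omega, ?_⟩
      rw [Int.toNat_of_nonneg (by omega), ← hp]
      ring
    · rw [mem_AX]
      refine ⟨y, (q - (18 * K + 7) - 1).toNat, hy, by omega, ?_⟩
      rw [Int.toNat_of_nonneg (by omega), ← hq]
      ring
  · have hx0 : 0 < x := by
      by_contra hc
      unfold wq at k0
      simp only at k0
      rw [if_neg hc] at k0
      exact lt_irrefl _ k0
    obtain ⟨x, rfl⟩ : ∃ x', x = x' + 1 := ⟨x - 1, by omega⟩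
    refine ⟨?_, ?_, ?_⟩
    · intro e
      rw [Prod.mk.injEq] at e
      obtain ⟨e1, e2⟩ := e
      have hy0 : y = 0 := by
        by_contra hc
        have : (18 * (K : ℤ) + 7) * 1 ≤ (18 * (K : ℤ) + 7) * y :=
          mul_le_mul_of_nonneg_left (by omega) (by omega)
        omega
      subst hy0
      simp only [Nat.cast_zero, mul_zero, sub_zero] at hq
      omega
    · rw [mem_AX]
      refine ⟨x, (p - 1).toNat, by omega, by omega, ?_⟩
      rw [Int.toNat_of_nonneg (by omega), ← hp]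
      push_cast
      ring
    · rw [mem_AX]
      refine ⟨y, (q - (18 * K + 7) - 1).toNat, hy, by omega, ?_⟩
      rw [Int.toNat_of_nonneg (by omega), ← hq]
      ring
  · have hy0 : 0 < y := by
      by_contra hc
      unfold wq at k0
      simp only at k0
      rw [if_neg hc] at k0
      exact lt_irrefl _ k0
    obtain ⟨y, rfl⟩ : ∃ y', y = y' + 1 := ⟨y - 1, by omega⟩
    refine ⟨?_, ?_, ?_⟩
    · intro e
      rw [Prod.mk.injEq] at e
      obtain ⟨e1, e2⟩ := e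
      have hx0 : x = 0 := by
        by_contra hc
        have : (18 * (K : ℤ) + 7) * 1 ≤ (18 * (K : ℤ) + 7) * x :=
          mul_le_mul_of_nonneg_left (by omega) (by omega)
        omega
      subst hx0
      simp only [Nat.cast_zero, mul_zero, sub_zero] at hp
      omega
    · rw [mem_AX]
      refine ⟨x, (p - (18 * K + 7) - 1).toNat, hx, by omega, ?_⟩
      rw [Int.toNat_of_nonneg (by omega), ← hp]
      ring
    · rw [mem_AX]
      refine ⟨y, (q - 1).toNat, by omega, by omega, ?_⟩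
      rw [Int.toNat_of_nonneg (by omega), ← hq]
      push_cast
      ring

theorem InS_char (hb : ∀ x y, x ≤ X → y ≤ T → Bdd K (wq H V X T x y))
    {x y x0 y0 r s : ℕ} (hx : x ≤ X) (hy : y ≤ T) (hr : r < 18 * K + 6) (hs : s < 18 * K + 6)
    (h : InS K H V X T x y ((18 * (K : ℤ) + 7) * ((x0 : ℤ) + 1) + r + 1)
      ((18 * (K : ℤ) + 7) * ((y0 : ℤ) + 1) + s + 1)) :
    (x = x0 ∧ y = y0 ∧ Body K (wq H V X T x0 y0).1 (wq H V X T x0 y0).2.1
      (wq H V X T x0 y0).2.2.1 (wq H V X T x0 y0).2.2.2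
        (18 * (K : ℤ) + 7 + r + 1) (18 * (K : ℤ) + 7 + s + 1)) ∨
    (x = x0 + 1 ∧ y = y0 ∧ HoleE K (wq H V X T x0 y0).1
        (18 * (K : ℤ) + 7 + r + 1) (18 * (K : ℤ) + 7 + s + 1)) ∨
    (x = x0 ∧ y = y0 + 1 ∧ HoleN K (wq H V X T x0 y0).2.1
        (18 * (K : ℤ) + 7 + r + 1) (18 * (K : ℤ) + 7 + s + 1)) := by
  unfold InS at h
  obtain ⟨p, hp⟩ : ∃ p, (18 * (K : ℤ) + 7) * ((x0 : ℤ) + 1) + r + 1 -
    (18 * (K : ℤ) + 7) * x = p := ⟨_, rfl⟩
  obtain ⟨q, hq⟩ : ∃ q, (18 * (K : ℤ) + 7) * ((y0 : ℤ) + 1) + s + 1 -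
    (18 * (K : ℤ) + 7) * y = q := ⟨_, rfl⟩
  rw [hp, hq] at h
  have hp' : p = (18 * (K : ℤ) + 7) * ((x0 : ℤ) - x) + (18 * (K : ℤ) + 7) + r + 1 := by
    rw [← hp]; ring
  have hq' : q = (18 * (K : ℤ) + 7) * ((y0 : ℤ) - y) + (18 * (K : ℤ) + 7) + s + 1 := by
    rw [← hq]; ring
  have h0 := cell_range (hb x y hx hy) h
  have hp2 := pos_aux (18 * (K : ℤ) + 7) (x0 - x) r p (by omega) (by omega) hp'
    (by omega) (by omega)
  have hq2 := pos_aux (18 * (K : ℤ) + 7) (y0 - y) s q (by omega) (by omega) hq'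
    (by omega) (by omega)
  clear hp hq hp' hq'
  rcases h0 with ⟨k1, k2, k3, k4, k5⟩ | ⟨k0, k1, k2, k3, k4, k5⟩ | ⟨k0, k1, k2, k3, k4, k5⟩
  · left
    have e1 : x = x0 := by omega
    have e2 : y = y0 := by omega
    have e3 : p = 18 * (K : ℤ) + 7 + r + 1 := by omega
    have e4 : q = 18 * (K : ℤ) + 7 + s + 1 := by omega
    rw [e3, e4, e1, e2] at k5
    exact ⟨e1, e2, k5⟩
  · right; left
    have e1 : x = x0 + 1 := by omega
    have e2 : y = y0 := by omega
    refine ⟨e1, e2, ?_⟩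
    subst e1 e2
    have e5 : (wq H V X T (x0 + 1) y).2.2.1 = (wq H V X T x0 y).1 := by
      simp only [wq]
      rw [if_pos (by omega), if_pos (by omega), Nat.add_sub_cancel]
    rw [e5] at k5
    unfold ToothE at k5
    unfold HoleE
    omega
  · right; right
    have e1 : x = x0 := by omega
    have e2 : y = y0 + 1 := by omega
    refine ⟨e1, e2, ?_⟩
    subst e1 e2
    have e5 : (wq H V X T x (y0 + 1)).2.2.2 = (wq H V X T x y0).2.1 := by
      simp only [wq]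
      rw [if_pos (by omega), if_pos (by omega), Nat.add_sub_cancel]
    rw [e5] at k5
    unfold ToothN at k5
    unfold HoleN
    omega

theorem InS_uniq (hb : ∀ x y, x ≤ X → y ≤ T → Bdd K (wq H V X T x y))
    {x y x' y' x0 y0 r s : ℕ} (hx : x ≤ X) (hy : y ≤ T) (hx' : x' ≤ X) (hy' : y' ≤ T)
    (hr : r < 18 * K + 6) (hs : s < 18 * K + 6)
    (h : InS K H V X T x y ((18 * (K : ℤ) + 7) * ((x0 : ℤ) + 1) + r + 1)
      ((18 * (K : ℤ) + 7) * ((y0 : ℤ) + 1) + s + 1))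
    (h' : InS K H V X T x' y' ((18 * (K : ℤ) + 7) * ((x0 : ℤ) + 1) + r + 1)
      ((18 * (K : ℤ) + 7) * ((y0 : ℤ) + 1) + s + 1)) : x = x' ∧ y = y' := by
  have hEN : ¬ (HoleE K (wq H V X T x0 y0).1
        (18 * (K : ℤ) + 7 + r + 1) (18 * (K : ℤ) + 7 + s + 1) ∧ HoleN K (wq H V X T x0 y0).2.1
        (18 * (K : ℤ) + 7 + r + 1) (18 * (K : ℤ) + 7 + s + 1)) := by
    rintro ⟨a1, a2⟩
    unfold HoleE at a1
    unfold HoleN at a2
    omega
  rcases InS_char hb hx hy hr hs h with ⟨a1, a2, a3⟩ | ⟨a1, a2, a3⟩ | ⟨a1, a2, a3⟩ <;>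
  rcases InS_char hb hx' hy' hr hs h' with ⟨b1, b2, b3⟩ | ⟨b1, b2, b3⟩ | ⟨b1, b2, b3⟩
  · exact ⟨by omega, by omega⟩
  · exact absurd b3 a3.2.1
  · exact absurd b3 a3.2.2.1
  · exact absurd a3 b3.2.1
  · exact ⟨by omega, by omega⟩
  · exact absurd ⟨a3, b3⟩ hEN
  · exact absurd a3 b3.2.2.1
  · exact absurd ⟨b3, a3⟩ hEN
  · exact ⟨by omega, by omega⟩

theorem InS_exists (hH : ∀ x y, 0 < H x y) (hV : ∀ x y, 0 < V x y) {a b : ℤ}
    (h : (a, b) ∈ PP K X T) : ∃ x y, x ≤ X ∧ y ≤ T ∧ InS K H V X T x y a b := by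
  unfold PP at h
  rw [Finset.mem_erase, Finset.mem_product, mem_AX, mem_AX] at h
  simp only at h
  obtain ⟨h0, ⟨x0, r, hx0, hr, rfl⟩, y0, s, hy0, hs, rfl⟩ := h
  unfold InS
  have ea : (18 * (K : ℤ) + 7) * ((x0 : ℤ) + 1) + r + 1 - (18 * (K : ℤ) + 7) * x0 =
    18 * (K : ℤ) + 7 + r + 1 := by ring
  have eb : (18 * (K : ℤ) + 7) * ((y0 : ℤ) + 1) + s + 1 - (18 * (K : ℤ) + 7) * y0 =
    18 * (K : ℤ) + 7 + s + 1 := by ring
  by_cases hE : HoleE K (wq H V X T x0 y0).1 (18 * (K : ℤ) + 7 + r + 1)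
    (18 * (K : ℤ) + 7 + s + 1)
  · have hlt : x0 < X := by
      by_contra hc
      have := hE.1
      simp only [wq] at this
      rw [if_neg hc] at this
      exact lt_irrefl _ this
    refine ⟨x0 + 1, y0, by omega, hy0, Or.inr (Or.inl ?_)⟩
    have e5 : (wq H V X T (x0 + 1) y0).2.2.1 = (wq H V X T x0 y0).1 := by
      simp only [wq]
      rw [if_pos (by omega), if_pos (by omega), Nat.add_sub_cancel]
    have ea' : (18 * (K : ℤ) + 7) * ((x0 : ℤ) + 1) + r + 1 -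
      (18 * (K : ℤ) + 7) * ((x0 + 1 : ℕ) : ℤ) = r + 1 := by push_cast; ring
    rw [e5, ea', eb]
    unfold HoleE at hE
    unfold ToothE
    omega
  · by_cases hN : HoleN K (wq H V X T x0 y0).2.1 (18 * (K : ℤ) + 7 + r + 1)
      (18 * (K : ℤ) + 7 + s + 1)
    · have hlt : y0 < T := by
        by_contra hc
        have := hN.1
        simp only [wq] at this
        rw [if_neg hc] at this
        exact lt_irrefl _ this
      refine ⟨x0, y0 + 1, hx0, by omega, Or.inr (Or.inr ?_)⟩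
      have e5 : (wq H V X T x0 (y0 + 1)).2.2.2 = (wq H V X T x0 y0).2.1 := by
        simp only [wq]
        rw [if_pos (by omega), if_pos (by omega), Nat.add_sub_cancel]
      have eb' : (18 * (K : ℤ) + 7) * ((y0 : ℤ) + 1) + s + 1 -
        (18 * (K : ℤ) + 7) * ((y0 + 1 : ℕ) : ℤ) = s + 1 := by push_cast; ring
      rw [e5, ea, eb']
      unfold HoleN at hN
      unfold ToothN
      omega
    · refine ⟨x0, y0, hx0, hy0, Or.inl ?_⟩
      rw [ea, eb]
      refine ⟨by omega, hE, hN, ?_⟩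
      rintro ⟨k1, k2, k3, k4⟩
      have hx : x0 = 0 := by
        by_contra hc
        simp only [wq] at k1
        rw [if_pos (by omega)] at k1
        have := hH (x0 - 1) y0
        omega
      have hy : y0 = 0 := by
        by_contra hc
        simp only [wq] at k2
        rw [if_pos (by omega)] at k2
        have := hV x0 (y0 - 1)
        omega
      apply h0
      subst hx hy
      have e1 : r = 0 := by omega
      have e2 : s = 0 := by omega
      subst e1 e2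
      ext <;> (push_cast; ring)

theorem tiled_PP (hW : ∀ t ∈ W, Bdd K t) (hmem : ∀ x y, x ≤ X → y ≤ T → wq H V X T x y ∈ W)
    (hH : ∀ x y, 0 < H x y) (hV : ∀ x y, 0 < V x y) :
    ∃ Φ, Tiled (tset K W) Φ (PP K X T) := by
  classical
  have hb : ∀ x y, x ≤ X → y ≤ T → Bdd K (wq H V X T x y) :=
    fun x y hx hy => hW _ (hmem x y hx hy)
  have key : ∀ x y, x ≤ X → y ≤ T → ∀ a b : ℤ,
      (((a, b) - ((18 * (K : ℤ) + 7) * x, (18 * (K : ℤ) + 7) * y) : ℤ × ℤ) ∈
        toF (tlL K (wq H V X T x y)) ↔ InS K H V X T x y a b) := by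
    intro x y hx hy a b
    have := mem_tl (hb x y hx hy) (a - (18 * (K : ℤ) + 7) * x) (b - (18 * (K : ℤ) + 7) * y)
    exact this
  refine ⟨((Finset.range (X + 1)) ×ˢ (Finset.range (T + 1))).image (fun q =>
    (((18 * (K : ℤ) + 7) * (q.1 : ℤ), (18 * (K : ℤ) + 7) * (q.2 : ℤ)),
      toF (tlL K (wq H V X T q.1 q.2)))), ?_, ?_⟩
  · intro q hq
    rw [Finset.mem_image] at hq
    obtain ⟨⟨x, y⟩, hxy, rfl⟩ := hq
    rw [Finset.mem_product, Finset.mem_range, Finset.mem_range] at hxy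
    simp only at hxy ⊢
    refine ⟨(mem_tset K W _).2 (Or.inr ⟨_, hmem x y (by omega) (by omega), rfl⟩), ?_⟩
    rintro ⟨t1, t2⟩ ht
    rw [Prod.mk_add_mk]
    refine InS_sub hb (x := x) (y := y) (by omega) (by omega) ?_
    rw [← key x y (by omega) (by omega), Prod.mk_sub_mk, add_sub_cancel_left, add_sub_cancel_left]
    exact ht
  · rintro ⟨a, b⟩ hu
    obtain ⟨x, y, hx, hy, hin⟩ := InS_exists (H := H) (V := V) hH hV hu
    refine ⟨(((18 * (K : ℤ) + 7) * (x : ℤ), (18 * (K : ℤ) + 7) * (y : ℤ)),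
      toF (tlL K (wq H V X T x y))), ⟨?_, ?_⟩, ?_⟩
    · rw [Finset.mem_image]
      exact ⟨(x, y), by rw [Finset.mem_product, Finset.mem_range, Finset.mem_range]; simp only; omega,
        rfl⟩
    · exact (key x y hx hy a b).2 hin
    · rintro q ⟨hq1, hq2⟩
      rw [Finset.mem_image] at hq1
      obtain ⟨⟨x', y'⟩, hxy, rfl⟩ := hq1
      rw [Finset.mem_product, Finset.mem_range, Finset.mem_range] at hxy
      simp only at hxy hq2
      rw [key x' y' (by omega) (by omega)] at hq2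
      have hu2 := hu
      unfold PP at hu2
      rw [Finset.mem_erase, Finset.mem_product, mem_AX, mem_AX] at hu2
      simp only at hu2
      obtain ⟨h0, ⟨x0, r, hx0, hr, rfl⟩, y0, s, hy0, hs, rfl⟩ := hu2
      obtain ⟨rfl, rfl⟩ := InS_uniq hb (x := x) (y := y) (x' := x') (y' := y') hx hy (by omega)
        (by omega) hr hs hin hq2
      rfl

theorem PP_nm {u : ℤ × ℤ} (h : u ∈ PP K X T) :
    nm u ≤ (18 * K + 7) * (X + 2) + (18 * K + 7) * (T + 2) := by
  obtain ⟨a, b⟩ := u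
  unfold PP at h
  rw [Finset.mem_erase, Finset.mem_product] at h
  obtain ⟨-, h1, h2⟩ := h
  simp only at h1 h2
  have a1 := AX_pos h1
  have a2 := AX_pos h2
  have b1 := AX_lt h1
  have b2 := AX_lt h2
  unfold nm
  simp only
  have c1 : ((a.natAbs : ℕ) : ℤ) ≤ (((18 * K + 7) * (X + 2) : ℕ) : ℤ) := by
    push_cast
    rw [abs_of_pos (by omega)]
    omega
  have c2 : ((b.natAbs : ℕ) : ℤ) ≤ (((18 * K + 7) * (T + 2) : ℕ) : ℤ) := by
    push_cast
    rw [abs_of_pos (by omega)]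
    omega
  have d1 := Int.ofNat_le.1 c1
  have d2 := Int.ofNat_le.1 c2
  exact add_le_add d1 d2

/-- The star-shaped regions are tiled. -/
theorem tiled_cell (hW : ∀ t ∈ W, Bdd K t) (hmem : ∀ x y, x ≤ X → y ≤ T → wq H V X T x y ∈ W)
    (hH : ∀ x y, 0 < H x y) (hV : ∀ x y, 0 < V x y) (S : Finset (ℤ × ℤ))
    (hst : ∀ u ∈ S, ∀ u', nm u' + 1 = nm u → nm (u - u') = 1 → u' ∈ S)
    (hP : PP K X T ⊆ S) : ∃ Φ, Tiled (tset K W) Φ S := by
  have hpar : ∀ u ∈ S, u ≠ 0 → par K u ∈ S := by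
    intro u hu h0
    obtain ⟨h1, h2⟩ := par_nm K u h0
    exact hst u hu _ h1 h2
  rcases Nat.even_or_odd' S.card with ⟨m, hm | hm⟩
  · exact matching K W (par K) (par_nm K) m S hm hpar
  · obtain ⟨m', hm'⟩ := PP_odd K X T
    obtain ⟨Φ1, h1⟩ := tiled_PP hW hmem hH hV
    have hc : (S \ PP K X T).card = 2 * (m - m') := by
      rw [Finset.card_sdiff_of_subset hP]
      omega
    obtain ⟨Φ2, h2⟩ := matching K W (par K) (par_nm K) (m - m') (S \ PP K X T) hc (by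
      intro u hu h0
      rw [Finset.mem_sdiff] at hu ⊢
      exact ⟨hpar u hu.1 h0, par_PP K X T u hu.2⟩)
    have := tiled_union h1 h2 Finset.disjoint_sdiff
    rw [Finset.union_sdiff_of_subset hP] at this
    exact ⟨_, this⟩

end

end Pool.Agent.Helper948.Tile
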