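import Mathlib
import Pool.Agent.Helper948.Tile.Match

set_option autoImplicit false

namespace Pool.Agent.Helper948.Tile

variable {n : ℕ}

/-- the action of the plane -/
def ap (v : ℤ × ℤ) (x : Free n) : Free n := act (emb n v) x

theorem ap_ap (v w : ℤ × ℤ) (x : Free n) : ap v (ap w x) = ap (v + w) x := by
  apply Subtype.ext
  change shift (emb n v) (shift (emb n w) x.1) = shift (emb n (v + w)) x.1
  rw [shift_shift, emb_add]

theorem ap_zero (x : Free n) : ap 0 x = x := by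
  apply Subtype.ext
  change shift (emb n 0) x.1 = x.1
  rw [emb_zero, shift_zero]

theorem ap_cont (v : ℤ × ℤ) : Continuous (ap v : Free n → Free n) := by
  apply Continuous.subtype_mk
  exact continuous_pi (fun h => (continuous_apply _).comp continuous_subtype_val)

/-- balls -/
noncomputable def BB (R : ℕ) : Finset (ℤ × ℤ) :=
  (Finset.Icc (-(R : ℤ)) R ×ˢ Finset.Icc (-(R : ℤ)) R).filter (fun v => nm v ≤ R)

theorem mem_BB {R : ℕ} {v : ℤ × ℤ} : v ∈ BB R ↔ nm v ≤ R := by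
  unfold BB
  rw [Finset.mem_filter, Finset.mem_product, Finset.mem_Icc, Finset.mem_Icc]
  constructor
  · exact fun h => h.2
  · intro h
    refine ⟨?_, h⟩
    unfold nm at h
    omega

theorem nm_neg (v : ℤ × ℤ) : nm (-v) = nm v := by
  unfold nm
  simp

theorem nm_eq_zero {v : ℤ × ℤ} (h : nm v = 0) : v = 0 := by
  unfold nm at h
  ext
  · simp only [Prod.fst_zero]
    omega
  · simp only [Prod.snd_zero]
    omega

theorem nm_zero : nm 0 = 0 := rfl

theorem nm_add (v w : ℤ × ℤ) : nm (v + w) ≤ nm v + nm w := by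
  unfold nm
  simp only [Prod.fst_add, Prod.snd_add]
  omega

/-- basic sets disjoint from their translates -/
def UU (R : ℕ) (i : {v // v ∈ (BB R).erase 0} → (Fin n → ℤ) × Bool) : Set (Free n) :=
  {y | ∀ v, y.1 (i v).1 = (i v).2 ∧ y.1 ((i v).1 + emb n v.1) = !(i v).2}

theorem clopen_coord (h : Fin n → ℤ) (b : Bool) : IsClopen {y : Free n | y.1 h = b} := by
  have h1 : Continuous (fun y : Free n => y.1 h) :=
    (continuous_apply _).comp continuous_subtype_val
  exact (isClopen_discrete {b}).preimage h1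

theorem clopen_UU (R : ℕ) (i : {v // v ∈ (BB R).erase 0} → (Fin n → ℤ) × Bool) :
    IsClopen (UU R i : Set (Free n)) := by
  have : (UU R i : Set (Free n)) = ⋂ v, ({y : Free n | y.1 (i v).1 = (i v).2} ∩
      {y : Free n | y.1 ((i v).1 + emb n v.1) = !(i v).2}) := by
    ext y
    simp only [UU, Set.mem_iInter, Set.mem_inter_iff]
    rfl
  rw [this]
  exact isClopen_iInter_of_finite (fun v => (clopen_coord _ _).inter (clopen_coord _ _))

theorem UU_free {R : ℕ} {i : {v // v ∈ (BB R).erase 0} → (Fin n → ℤ) × Bool} {x : Free n}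
    {v : ℤ × ℤ} (h1 : x ∈ UU R i) (h2 : ap v x ∈ UU R i) (h3 : nm v ≤ R) : v = 0 := by
  by_contra hv
  have hm : v ∈ (BB R).erase 0 := Finset.mem_erase.2 ⟨hv, mem_BB.2 h3⟩
  have a1 := (h1 ⟨v, hm⟩).2
  have a2 := (h2 ⟨v, hm⟩).1
  have a3 : (ap v x).1 (i ⟨v, hm⟩).1 = x.1 ((i ⟨v, hm⟩).1 + emb n v) := rfl
  rw [a3] at a2
  simp only at a1
  rw [a2] at a1
  revert a1
  generalize (i ⟨v, hm⟩).2 = b
  cases b <;> simp

theorem UU_cover (hn : 2 ≤ n) (R : ℕ) (x : Free n) :
    ∃ i : {v // v ∈ (BB R).erase 0} → (Fin n → ℤ) × Bool, x ∈ UU R i := by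
  have key : ∀ v : {v // v ∈ (BB R).erase 0}, ∃ h : Fin n → ℤ, x.1 (h + emb n v.1) = !(x.1 h) := by
    rintro ⟨v, hv⟩
    have hv0 : emb n v ≠ 0 := by
      intro e
      rw [← emb_zero n] at e
      exact (Finset.mem_erase.1 hv).1 (emb_inj hn e)
    have := x.2 (emb n v) hv0
    by_contra hc
    push Not at hc
    apply this
    funext h
    change x.1 (h + emb n v) = x.1 h
    have := hc h
    revert this
    generalize x.1 (h + emb n v) = b
    generalize x.1 h = c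
    cases b <;> cases c <;> simp
  choose h hh using key
  exact ⟨fun v => (h v, x.1 (h v)), fun v => ⟨rfl, hh v⟩⟩

/-- the greedy construction -/
def MM (R : ℕ) (U : ℕ → Set (Free n)) : ℕ → Set (Free n)
  | 0 => ∅
  | i + 1 => MM R U i ∪ (U i \ ⋃ v ∈ BB R, ap v ⁻¹' (MM R U i))

theorem clopen_MM (R : ℕ) (U : ℕ → Set (Free n)) (hU : ∀ i, IsClopen (U i)) (i : ℕ) :
    IsClopen (MM R U i) := by
  induction i with
  | zero => exact isClopen_empty
  | succ i ih =>
    refine ih.union ((hU i).diff ?_)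
    exact isClopen_biUnion_finset (fun v _ => ih.preimage (ap_cont v))

theorem MM_mono (R : ℕ) (U : ℕ → Set (Free n)) {i j : ℕ} (h : i ≤ j) : MM R U i ⊆ MM R U j := by
  induction j with
  | zero =>
    have : i = 0 := by omega
    rw [this]
  | succ j ih =>
    rcases Nat.lt_or_ge i (j + 1) with h1 | h1
    · exact (ih (by omega)).trans Set.subset_union_left
    · have : i = j + 1 := by omega
      rw [this]

theorem MM_disc (R : ℕ) (U : ℕ → Set (Free n))
    (hU : ∀ i x v, x ∈ U i → ap v x ∈ U i → nm v ≤ R → v = 0) (i : ℕ) :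
    ∀ x v, x ∈ MM R U i → ap v x ∈ MM R U i → nm v ≤ R → v = 0 := by
  induction i with
  | zero =>
    intro x v h
    exact absurd h (Set.notMem_empty _)
  | succ i ih =>
    intro x v h1 h2 h3
    rcases h1 with h1 | ⟨h1, h1'⟩
    · rcases h2 with h2 | ⟨h2, h2'⟩
      · exact ih x v h1 h2 h3
      · exfalso
        apply h2'
        rw [Set.mem_iUnion₂]
        refine ⟨-v, mem_BB.2 (by rw [nm_neg]; exact h3), ?_⟩
        rw [Set.mem_preimage, ap_ap, neg_add_cancel, ap_zero]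
        exact h1
    · rcases h2 with h2 | ⟨h2, h2'⟩
      · exfalso
        apply h1'
        rw [Set.mem_iUnion₂]
        exact ⟨v, mem_BB.2 h3, h2⟩
      · exact hU i x v h1 h2 h3

theorem markers (hn : 2 ≤ n) (R : ℕ) : ∃ M : Set (Free n), IsClopen M ∧
    (∀ x v, x ∈ M → ap v x ∈ M → nm v ≤ R → v = 0) ∧ ∀ x, ∃ v, nm v ≤ R ∧ ap v x ∈ M := by
  obtain ⟨f, hf⟩ := exists_surjective_nat ({v // v ∈ (BB R).erase 0} → (Fin n → ℤ) × Bool)
  let U : ℕ → Set (Free n) := fun i => UU R (f i)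
  have hUc : ∀ i, IsClopen (U i) := fun i => clopen_UU R (f i)
  have hUf : ∀ i x v, x ∈ U i → ap v x ∈ U i → nm v ≤ R → v = 0 :=
    fun i x v h1 h2 h3 => UU_free h1 h2 h3
  have hUx : ∀ x, ∃ i, x ∈ U i := by
    intro x
    obtain ⟨i, hi⟩ := UU_cover hn R x
    obtain ⟨j, rfl⟩ := hf i
    exact ⟨j, hi⟩
  let M : Set (Free n) := ⋃ i, MM R U i
  have hdisc : ∀ x v, x ∈ M → ap v x ∈ M → nm v ≤ R → v = 0 := by
    intro x v h1 h2 h3
    obtain ⟨i, hi⟩ := Set.mem_iUnion.1 h1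
    obtain ⟨j, hj⟩ := Set.mem_iUnion.1 h2
    exact MM_disc R U hUf (max i j) x v (MM_mono R U (le_max_left _ _) hi)
      (MM_mono R U (le_max_right _ _) hj) h3
  have hdense : ∀ x, ∃ v, nm v ≤ R ∧ ap v x ∈ M := by
    intro x
    obtain ⟨i, hi⟩ := hUx x
    by_cases h : x ∈ ⋃ v ∈ BB R, ap v ⁻¹' (MM R U i)
    · rw [Set.mem_iUnion₂] at h
      obtain ⟨v, hv, h⟩ := h
      exact ⟨v, mem_BB.1 hv, Set.mem_iUnion.2 ⟨i, h⟩⟩
    · refine ⟨0, by rw [nm_zero]; omega, Set.mem_iUnion.2 ⟨i + 1, Or.inr ⟨?_, ?_⟩⟩⟩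
      · rw [ap_zero]; exact hi
      · rw [ap_zero]; exact h
  have hopen : IsOpen M := isOpen_iUnion (fun i => (clopen_MM R U hUc i).isOpen)
  refine ⟨M, ⟨?_, hopen⟩, hdisc, hdense⟩
  rw [← isOpen_compl_iff]
  have : Mᶜ = ⋃ v ∈ ((BB R).erase 0), ap v ⁻¹' M := by
    ext x
    rw [Set.mem_compl_iff, Set.mem_iUnion₂]
    constructor
    · intro hx
      obtain ⟨v, hv, hvM⟩ := hdense x
      refine ⟨v, Finset.mem_erase.2 ⟨?_, mem_BB.2 hv⟩, hvM⟩
      rintro rfl
      rw [ap_zero] at hvM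
      exact hx hvM
    · rintro ⟨v, hv, hvM⟩ hx
      rw [Finset.mem_erase] at hv
      exact hv.1 (hdisc x v hx hvM (mem_BB.1 hv.2))
  rw [this]
  exact isOpen_biUnion (fun v _ => hopen.preimage (ap_cont v))

/-- the comparison of two positions -/
def leq (v w : ℤ × ℤ) : Prop :=
  nm v < nm w ∨ (nm v = nm w ∧ (v.1 < w.1 ∨ (v.1 = w.1 ∧ v.2 ≤ w.2)))

theorem leq_antisymm {v w : ℤ × ℤ} (h1 : leq v w) (h2 : leq w v) : v = w := by
  unfold leq at h1 h2
  ext <;> omega

theorem leq_nm {v w : ℤ × ℤ} (h1 : leq v w) : nm v ≤ nm w := by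
  unfold leq at h1
  omega

theorem exists_leq (S : Finset (ℤ × ℤ)) (hS : S.Nonempty) : ∃ v ∈ S, ∀ w ∈ S, leq v w := by
  obtain ⟨v, hv, hmin⟩ := Finset.exists_min_image S
    (fun v => (toLex (nm v, toLex (v.1, v.2)) : ℕ ×ₗ (ℤ ×ₗ ℤ))) hS
  refine ⟨v, hv, fun w hw => ?_⟩
  have := hmin w hw
  simp only [Prod.Lex.toLex_le_toLex] at this
  exact this

/-- the closest marker -/
def IsOwn (M : Set (Free n)) (x : Free n) (v : ℤ × ℤ) : Prop :=
  ap v x ∈ M ∧ ∀ w, ap w x ∈ M → leq v w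

theorem own_uniq {M : Set (Free n)} {x : Free n} {v w : ℤ × ℤ} (h1 : IsOwn M x v)
    (h2 : IsOwn M x w) : v = w :=
  leq_antisymm (h1.2 w h2.1) (h2.2 v h1.1)

theorem clopen_own {M : Set (Free n)} (hM : IsClopen M) (v : ℤ × ℤ) :
    IsClopen {x : Free n | IsOwn M x v} := by
  classical
  have : {x : Free n | IsOwn M x v} = ap v ⁻¹' M ∩
      ⋂ w ∈ (BB (nm v)).filter (fun w => ¬ leq v w), (ap w ⁻¹' M)ᶜ := by
    ext x
    rw [Set.mem_inter_iff, Set.mem_iInter₂]
    constructor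
    · rintro ⟨h1, h2⟩
      refine ⟨h1, fun w hw hc => ?_⟩
      rw [Finset.mem_filter] at hw
      exact hw.2 (h2 w hc)
    · rintro ⟨h1, h2⟩
      refine ⟨h1, fun w hw => ?_⟩
      by_contra hc
      have hwn : nm w ≤ nm v := by
        unfold leq at hc
        omega
      exact h2 w (Finset.mem_filter.2 ⟨mem_BB.2 hwn, hc⟩) hw
  rw [this]
  exact (hM.preimage (ap_cont v)).inter
    (isClopen_biInter_finset (fun w _ => (hM.preimage (ap_cont w)).compl))

theorem clopen_filter {Y : Type} [TopologicalSpace Y] (B : Finset (ℤ × ℤ))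
    (D : ℤ × ℤ → Y → Prop) [∀ y, DecidablePred (fun u => D u y)]
    (hD : ∀ u, IsClopen {y | D u y}) (S : Finset (ℤ × ℤ)) :
    IsClopen {y | B.filter (fun u => D u y) = S} := by
  by_cases hS : S ⊆ B
  · have : {y | B.filter (fun u => D u y) = S} = ⋂ u ∈ B, {y | D u y ↔ u ∈ S} := by
      ext y
      rw [Set.mem_iInter₂]
      constructor
      · intro (h : B.filter (fun u => D u y) = S) u hu
        change D u y ↔ u ∈ S
        rw [← h, Finset.mem_filter]
        tauto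
      · intro h
        change B.filter (fun u => D u y) = S
        ext u
        rw [Finset.mem_filter]
        constructor
        · rintro ⟨h1, h2⟩
          exact (h u h1).1 h2
        · intro h1
          exact ⟨hS h1, (h u (hS h1)).2 h1⟩
    rw [this]
    refine isClopen_biInter_finset (fun u _ => ?_)
    by_cases hu : u ∈ S
    · have : {y | D u y ↔ u ∈ S} = {y | D u y} := by
        ext y
        change (D u y ↔ u ∈ S) ↔ D u y
        simp [hu]
      rw [this]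
      exact hD u
    · have : {y | D u y ↔ u ∈ S} = {y | D u y}ᶜ := by
        ext y
        change (D u y ↔ u ∈ S) ↔ ¬ D u y
        simp [hu]
      rw [this]
      exact (hD u).compl
  · have : {y | B.filter (fun u => D u y) = S} = ∅ := by
      ext y
      simp only [Set.mem_empty_iff_false, iff_false]
      intro (h : B.filter (fun u => D u y) = S)
      exact hS (h ▸ Finset.filter_subset _ _)
    rw [this]
    exact isClopen_empty

open Classical in
/-- the cell of a marker -/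
noncomputable def cellOf (M : Set (Free n)) (R : ℕ) (y : Free n) : Finset (ℤ × ℤ) :=
  (BB R).filter (fun u => IsOwn M (ap u y) (-u))

theorem mem_cellOf {M : Set (Free n)} {R : ℕ} {y : Free n} {u : ℤ × ℤ} :
    u ∈ cellOf M R y ↔ nm u ≤ R ∧ IsOwn M (ap u y) (-u) := by
  classical
  unfold cellOf
  rw [Finset.mem_filter, mem_BB]

theorem clopen_cellOf {M : Set (Free n)} (hM : IsClopen M) (R : ℕ) (S : Finset (ℤ × ℤ)) :
    IsClopen {y : Free n | cellOf M R y = S} := by
  classical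
  unfold cellOf
  have := clopen_filter (Y := Free n) (BB R) (fun u y => IsOwn M (ap u y) (-u))
    (fun u => (clopen_own hM (-u)).preimage (ap_cont u)) S
  convert this

theorem cellOf_ball {M : Set (Free n)} {R : ℕ}
    (hd : ∀ x v, x ∈ M → ap v x ∈ M → nm v ≤ R → v = 0) (hden : ∀ x, ∃ v, nm v ≤ R ∧ IsOwn M x v)
    {y : Free n} (hy : y ∈ M) {u : ℤ × ℤ} (hu : 2 * nm u ≤ R) : u ∈ cellOf M R y := by
  rw [mem_cellOf]
  refine ⟨by omega, ?_⟩
  obtain ⟨v, hv, hown⟩ := hden (ap u y)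
  have h1 : ap (-u) (ap u y) ∈ M := by
    rw [ap_ap, neg_add_cancel, ap_zero]
    exact hy
  have h2 := leq_nm (hown.2 (-u) h1)
  rw [nm_neg] at h2
  have h3 := hown.1
  rw [ap_ap] at h3
  have h4 := hd y (v + u) hy h3 (by
    have := nm_add v u
    omega)
  have h5 : v = -u := eq_neg_of_add_eq_zero_left h4
  rw [← h5]
  exact hown

theorem star_aux (u u' v : ℤ × ℤ) (h1 : nm u' + 1 = nm u) (h2 : nm (u - u') = 1)
    (h4 : leq v (-u')) (h6 : leq (-u) (v + u' - u)) : v = -u' := by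
  have a1 : nm v ≤ nm u' := by
    have := leq_nm h4
    rwa [nm_neg] at this
  have a2 : nm u ≤ nm (v + u' - u) := by
    have := leq_nm h6
    rwa [nm_neg] at this
  have a3 : nm (v + u' - u) ≤ nm v + 1 := by
    have := nm_add v (-(u - u'))
    rw [nm_neg, h2, show v + -(u - u') = v + u' - u by abel] at this
    exact this
  unfold leq at h4 h6
  rw [nm_neg] at h4 h6
  have b1 : v.1 < (-u').1 ∨ (v.1 = (-u').1 ∧ v.2 ≤ (-u').2) := by
    rcases h4 with h | h
    · omega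
    · exact h.2
  have b2 : (-u).1 < (v + u' - u).1 ∨ ((-u).1 = (v + u' - u).1 ∧ (-u).2 ≤ (v + u' - u).2) := by
    rcases h6 with h | h
    · omega
    · exact h.2
  simp only [Prod.fst_neg, Prod.snd_neg, Prod.fst_sub, Prod.snd_sub, Prod.fst_add,
      Prod.snd_add] at b1 b2
  ext
  · simp only [Prod.fst_neg]
    omega
  · simp only [Prod.snd_neg]
    omega

theorem cellOf_star {M : Set (Free n)} {R : ℕ} (hden : ∀ x, ∃ v, nm v ≤ R ∧ IsOwn M x v)
    {y : Free n} (hy : y ∈ M) {u u' : ℤ × ℤ} (hu : u ∈ cellOf M R y)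
    (h1 : nm u' + 1 = nm u) (h2 : nm (u - u') = 1) : u' ∈ cellOf M R y := by
  rw [mem_cellOf] at hu ⊢
  obtain ⟨hu1, hu2⟩ := hu
  refine ⟨by omega, ?_⟩
  obtain ⟨v, hv, hown⟩ := hden (ap u' y)
  have h3 : ap (-u') (ap u' y) ∈ M := by
    rw [ap_ap, neg_add_cancel, ap_zero]
    exact hy
  have h4 := hown.2 (-u') h3
  have h5 : ap (v + u' - u) (ap u y) ∈ M := by
    rw [ap_ap, sub_add_cancel, ← ap_ap]
    exact hown.1
  have h6 := hu2.2 _ h5
  have h7 : v = -u' := star_aux u u' v h1 h2 h4 h6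
  rw [← h7]
  exact hown

theorem exists_own {M : Set (Free n)} {R : ℕ} (hden : ∀ x : Free n, ∃ v, nm v ≤ R ∧ ap v x ∈ M)
    (x : Free n) : ∃ v, nm v ≤ R ∧ IsOwn M x v := by
  classical
  obtain ⟨v, hv, hmin⟩ := exists_leq ((BB R).filter (fun v => ap v x ∈ M)) (by
    obtain ⟨v, h1, h2⟩ := hden x
    exact ⟨v, Finset.mem_filter.2 ⟨mem_BB.2 h1, h2⟩⟩)
  rw [Finset.mem_filter, mem_BB] at hv
  refine ⟨v, hv.1, hv.2, fun w hw => ?_⟩
  by_cases h : nm w ≤ R
  · exact hmin w (Finset.mem_filter.2 ⟨mem_BB.2 h, hw⟩)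
  · left
    omega

/-- The continuous tiling of the planes. -/
theorem plane_tiling (hn : 2 ≤ n) (𝒯 : Finset (Finset (ℤ × ℤ))) (R : ℕ)
    (hfill : ∀ S : Finset (ℤ × ℤ), (∀ u ∈ S, ∀ u', nm u' + 1 = nm u → nm (u - u') = 1 → u' ∈ S) →
      (∀ u, 2 * nm u ≤ R → u ∈ S) → ∃ Φ, Tiled 𝒯 Φ S) :
    ∃ C : Finset (ℤ × ℤ) → Set (Free n), (∀ T, IsClopen (C T)) ∧
      ∀ x, Cover (𝒯 : Set (Finset (ℤ × ℤ))) (fun T => {v | ap v x ∈ C T}) := by
  classical
  obtain ⟨M, hM, hdisc, hden0⟩ := markers hn R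
  have hden := exists_own hden0
  have hcell : ∀ y ∈ M, ∃ Φ, Tiled 𝒯 Φ (cellOf M R y) := by
    intro y hy
    exact hfill _ (fun u hu u' h1 h2 => cellOf_star hden hy hu h1 h2)
      (fun u hu => cellOf_ball hdisc hden hy hu)
  let Φ : Finset (ℤ × ℤ) → Finset ((ℤ × ℤ) × Finset (ℤ × ℤ)) :=
    fun S => if h : ∃ Φ, Tiled 𝒯 Φ S then h.choose else ∅
  have hΦ : ∀ y ∈ M, Tiled 𝒯 (Φ (cellOf M R y)) (cellOf M R y) := by
    intro y hy
    have h := hcell y hy
    simp only [Φ]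
    rw [dif_pos h]
    exact h.choose_spec
  let C : Finset (ℤ × ℤ) → Set (Free n) := fun T => {x | ∃ h, ap (-h) x ∈ M ∧
    (h, T) ∈ Φ (cellOf M R (ap (-h) x))}
  refine ⟨C, ?_, ?_⟩
  · intro T
    have : C T = ⋃ S ∈ (BB R).powerset, ⋃ q ∈ (Φ S).filter (fun q => q.2 = T),
        (ap (-q.1) ⁻¹' M ∩ ap (-q.1) ⁻¹' {y | cellOf M R y = S}) := by
      ext x
      simp only [Set.mem_iUnion, exists_prop, Finset.mem_powerset, Finset.mem_filter]
      constructor
      · rintro ⟨h, h1, h2⟩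
        refine ⟨cellOf M R (ap (-h) x), ?_, (h, T), ⟨h2, rfl⟩, h1, rfl⟩
        intro u hu
        rw [mem_cellOf] at hu
        exact mem_BB.2 hu.1
      · rintro ⟨S, -, ⟨h, T'⟩, ⟨h1, h2⟩, h3, h4⟩
        simp only at h2 h3 h4
        subst h2
        refine ⟨h, h3, ?_⟩
        rw [show cellOf M R (ap (-h) x) = S from h4]
        exact h1
    rw [this]
    refine isClopen_biUnion_finset (fun S _ => isClopen_biUnion_finset (fun q _ => ?_))
    exact (hM.preimage (ap_cont _)).inter ((clopen_cellOf hM R S).preimage (ap_cont _))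
  · intro x u
    obtain ⟨w, hw, hown⟩ := hden (ap u x)
    obtain ⟨p, hp⟩ : ∃ p, p = w + u := ⟨_, rfl⟩
    obtain ⟨y, hy⟩ : ∃ y, y = ap p x := ⟨_, rfl⟩
    have hyM : y ∈ M := by
      rw [hy, hp, ← ap_ap]
      exact hown.1
    have huc : u - p ∈ cellOf M R y := by
      rw [mem_cellOf]
      have e1 : u - p = -w := by rw [hp]; abel
      refine ⟨?_, ?_⟩
      · rw [e1, nm_neg]
        exact hw
      · rw [hy, ap_ap, sub_add_cancel, e1, neg_neg]
        exact hown
    obtain ⟨⟨h, T⟩, ⟨hq1, hq2⟩, hq3⟩ := (hΦ y hyM).2 _ huc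
    simp only at hq2
    refine ⟨(p + h, T), ⟨?_, ?_, ?_⟩, ?_⟩
    · exact ((hΦ y hyM).1 _ hq1).1
    · change ap (p + h) x ∈ C T
      have e1 : ap (-h) (ap (p + h) x) = y := by
        rw [ap_ap, hy]
        congr 1
        abel
      refine ⟨h, ?_, ?_⟩
      · rw [e1]
        exact hyM
      · rw [e1]
        exact hq1
    · have : u - (p + h) = u - p - h := by abel
      change u - (p + h) ∈ T
      rw [this]
      exact hq2
    · rintro ⟨v', T'⟩ ⟨h1, ⟨h', h2, h3⟩, h4⟩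
      simp only at h1 h2 h3 h4
      rw [ap_ap] at h2 h3
      have h5 := ((hΦ _ h2).1 _ h3).2 _ h4
      simp only at h5
      have h6 := (mem_cellOf.1 h5).2
      rw [ap_ap, show h' + (u - v') + (-h' + v') = u by abel] at h6
      have h7 := own_uniq hown h6
      have e2 : -h' + v' = p := by
        rw [hp, h7]
        abel
      rw [e2, ← hy] at h3
      have e3 : u - v' = u - p - h' := by
        rw [← e2]
        abel
      rw [e3] at h4
      have := hq3 (h', T') ⟨h3, h4⟩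
      rw [Prod.mk.injEq] at this
      rw [Prod.mk.injEq]
      refine ⟨?_, this.2⟩
      rw [← this.1, ← e2]
      abel

/-- The lift to all dimensions. -/
theorem lift_tiling (hn : 2 ≤ n) (𝒯 : Finset (Finset (ℤ × ℤ)))
    (h : ∃ C : Finset (ℤ × ℤ) → Set (Free n), (∀ T, IsClopen (C T)) ∧
      ∀ x, Cover (𝒯 : Set (Finset (ℤ × ℤ))) (fun T => {v | ap v x ∈ C T})) :
    HasContTiling {T' : Finset (Fin n → ℤ) | ∃ T ∈ 𝒯, T' = T.image (emb n)} := by
  classical
  obtain ⟨C, hC, hcov⟩ := h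
  refine ⟨fun T' => ⋃ T ∈ 𝒯.filter (fun T => T' = T.image (emb n)), C T, ?_, ?_⟩
  · intro T' _
    exact isClopen_biUnion_finset (fun T _ => hC T)
  · intro x u
    have hinj : ∀ T1 T2 : Finset (ℤ × ℤ), T1.image (emb n) = T2.image (emb n) → T1 = T2 :=
      fun T1 T2 h => Finset.image_injective (emb_inj hn) h
    obtain ⟨a, ha⟩ : ∃ a : ℤ × ℤ, a = (u ⟨0, by omega⟩, u ⟨1, by omega⟩) := ⟨_, rfl⟩
    obtain ⟨b, hb⟩ : ∃ b, b = u - emb n a := ⟨_, rfl⟩
    have hact : ∀ v : ℤ × ℤ, act (b + emb n v) x = ap v (act b x) := by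
      intro v
      apply Subtype.ext
      change shift (b + emb n v) x.1 = shift (emb n v) (shift b x.1)
      rw [shift_shift, add_comm]
    obtain ⟨⟨v, T⟩, ⟨h1, h2, h3⟩, h4⟩ := hcov (act b x) a
    simp only at h1 h2 h3
    refine ⟨(b + emb n v, T.image (emb n)), ⟨?_, ?_, ?_⟩, ?_⟩
    · exact ⟨T, h1, rfl⟩
    · change act (b + emb n v) x ∈ ⋃ T' ∈ 𝒯.filter (fun T' => T.image (emb n) = T'.image (emb n)), C T'
      rw [Set.mem_iUnion₂]
      refine ⟨T, Finset.mem_filter.2 ⟨h1, rfl⟩, ?_⟩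
      rw [hact]
      exact h2
    · change u - (b + emb n v) ∈ T.image (emb n)
      have : u - (b + emb n v) = emb n (a - v) := by
        rw [hb, emb_sub]
        abel
      rw [this]
      exact Finset.mem_image_of_mem _ h3
    · rintro ⟨g, T'⟩ ⟨k1, k2, k3⟩
      simp only at k1 k2 k3
      obtain ⟨T1, hT1, rfl⟩ := k1
      have k2' : act g x ∈ ⋃ T' ∈ 𝒯.filter (fun T' => T1.image (emb n) = T'.image (emb n)), C T' := k2
      rw [Set.mem_iUnion₂] at k2'
      obtain ⟨T2, hT2, k4⟩ := k2'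
      rw [Finset.mem_filter] at hT2
      have e1 := hinj _ _ hT2.2
      subst e1
      rw [Finset.mem_image] at k3
      obtain ⟨t, ht, k3⟩ := k3
      have hg : g = b + emb n (a - t) := by
        rw [hb, emb_sub, k3]
        abel
      rw [hg, hact] at k4
      have := h4 (a - t, T1) ⟨hT1, k4, by
        change a - (a - t) ∈ T1
        rw [sub_sub_cancel]
        exact ht⟩
      rw [Prod.mk.injEq] at this
      rw [Prod.mk.injEq, hg, this.1, this.2]
      exact ⟨rfl, rfl⟩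

end Pool.Agent.Helper948.Tile
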