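import Mathlib
import Pool.Agent.Helper948.Tile.Period

set_option autoImplicit false

namespace Pool.Agent.Helper948.Tile

/-- In a periodic exact cover with an odd period some tile used has odd size. -/
theorem exists_odd_tile (𝒯 : Finset (Finset (ℤ × ℤ))) (A : Finset (ℤ × ℤ) → Set (ℤ × ℤ))
    (hA : Cover (𝒯 : Set (Finset (ℤ × ℤ))) A) (p : ℕ) (hp : Odd p)
    (hper : ∀ T v, (v ∈ A T ↔ v + ((p : ℤ), 0) ∈ A T) ∧ (v ∈ A T ↔ v + (0, (p : ℤ)) ∈ A T)) :
    ∃ T ∈ 𝒯, Odd T.card ∧ (A T).Nonempty := by
  classical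
  by_contra hc
  push Not at hc
  have hp0 : p ≠ 0 := by
    rintro rfl
    exact absurd hp (by decide)
  have : NeZero p := ⟨hp0⟩
  let G := ZMod p × ZMod p
  let q : ℤ × ℤ → G := fun v => ((v.1 : ZMod p), (v.2 : ZMod p))
  have hq : ∀ v w, q (v - w) = q v - q w := by
    intro v w
    simp only [q, Prod.fst_sub, Prod.snd_sub, Int.cast_sub]
    rfl
  have hqs : Function.Surjective q := by
    rintro ⟨a, b⟩
    obtain ⟨x, rfl⟩ := ZMod.intCast_surjective a
    obtain ⟨y, rfl⟩ := ZMod.intCast_surjective b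
    exact ⟨(x, y), rfl⟩
  have hx : ∀ T v (a : ℤ), v ∈ A T ↔ v + ((p : ℤ) * a, 0) ∈ A T := by
    intro T v a
    induction a using Int.induction_on with
    | zero =>
      have : v + ((p : ℤ) * 0, 0) = v := by
        ext <;> simp
      rw [this]
    | succ i ih =>
      rw [ih, (hper T (v + ((p : ℤ) * i, 0))).1]
      have : v + ((p : ℤ) * i, 0) + ((p : ℤ), 0) = v + ((p : ℤ) * (i + 1), 0) := by
        ext
        · simp; ring
        · simp
      rw [this]
    | pred i ih =>
      rw [ih, (hper T (v + ((p : ℤ) * (-i - 1), 0))).1]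
      have : v + ((p : ℤ) * (-i - 1), 0) + ((p : ℤ), 0) = v + ((p : ℤ) * (-i), 0) := by
        ext
        · simp; ring
        · simp
      rw [this]
  have hy : ∀ T v (a : ℤ), v ∈ A T ↔ v + (0, (p : ℤ) * a) ∈ A T := by
    intro T v a
    induction a using Int.induction_on with
    | zero =>
      have : v + (0, (p : ℤ) * 0) = v := by
        ext <;> simp
      rw [this]
    | succ i ih =>
      rw [ih, (hper T (v + (0, (p : ℤ) * i))).2]
      have : v + (0, (p : ℤ) * i) + (0, (p : ℤ)) = v + (0, (p : ℤ) * (i + 1)) := by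
        ext
        · simp
        · simp; ring
      rw [this]
    | pred i ih =>
      rw [ih, (hper T (v + (0, (p : ℤ) * (-i - 1)))).2]
      have : v + (0, (p : ℤ) * (-i - 1)) + (0, (p : ℤ)) = v + (0, (p : ℤ) * (-i)) := by
        ext
        · simp
        · simp; ring
      rw [this]
  have hcong : ∀ T v w, q v = q w → (v ∈ A T ↔ w ∈ A T) := by
    intro T v w h
    have h1 : ((v.1 : ℤ) : ZMod p) = (w.1 : ZMod p) := congrArg Prod.fst h
    have h2 : ((v.2 : ℤ) : ZMod p) = (w.2 : ZMod p) := congrArg Prod.snd h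
    rw [ZMod.intCast_eq_intCast_iff_dvd_sub] at h1 h2
    obtain ⟨a, ha⟩ := h1
    obtain ⟨b, hb⟩ := h2
    rw [hx T v a, hy T _ b]
    have : v + ((p : ℤ) * a, 0) + (0, (p : ℤ) * b) = w := by
      ext
      · simp; omega
      · simp; omega
    rw [this]
  let B : Finset (ℤ × ℤ) → G → Prop := fun T g => ∃ v, q v = g ∧ v ∈ A T
  have hB : ∀ T v, B T (q v) ↔ v ∈ A T := by
    intro T v
    constructor
    · rintro ⟨w, h1, h2⟩
      exact (hcong T w v h1).1 h2
    · intro h
      exact ⟨v, rfl, h⟩
  have hone : ∀ g : G, ∑ T ∈ 𝒯, ∑ t ∈ T, (if B T (g - q t) then 1 else 0) = 1 := by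
    intro g
    obtain ⟨u, rfl⟩ := hqs g
    obtain ⟨⟨v, T⟩, ⟨h1, h2, h3⟩, huniq⟩ := hA u
    simp only at h1 h2 h3 huniq
    have e : ∀ T' ∈ 𝒯, ∀ t ∈ T', (if B T' (q u - q t) then 1 else 0) =
        if T' = T ∧ t = u - v then 1 else 0 := by
      intro T' hT' t ht
      rw [← hq]
      by_cases hm : u - t ∈ A T'
      · have := huniq (u - t, T') ⟨hT', hm, by simpa using ht⟩
        rw [Prod.mk.injEq] at this
        have e2 : t = u - v := by rw [← this.1]; abel
        rw [if_pos ((hB T' _).2 hm), if_pos ⟨this.2, e2⟩]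
      · rw [if_neg (fun h => hm ((hB T' _).1 h)), if_neg]
        rintro ⟨rfl, rfl⟩
        apply hm
        have : u - (u - v) = v := by abel
        rw [this]
        exact h2
    have e2 : ∑ T' ∈ 𝒯, ∑ t ∈ T', (if B T' (q u - q t) then 1 else 0) =
        ∑ T' ∈ 𝒯, ∑ t ∈ T', (if T' = T ∧ t = u - v then 1 else 0) :=
      Finset.sum_congr rfl (fun T' hT' => Finset.sum_congr rfl (fun t ht => e T' hT' t ht))
    rw [e2, Finset.sum_eq_single T]
    · rw [Finset.sum_eq_single (u - v)]
      · simp
      · intro b _ hb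
        simp [hb]
      · intro hb
        exact absurd h3 hb
    · intro b _ hb
      apply Finset.sum_eq_zero
      intro t _
      simp [hb]
    · intro hb
      exact absurd h1 hb
  have htot : (p * p : ℕ) = ∑ T ∈ 𝒯, T.card * (Finset.univ.filter (fun g : G => B T g)).card := by
    have e1 : (p * p : ℕ) = ∑ g : G, 1 := by
      rw [Finset.sum_const, Finset.card_univ, Fintype.card_prod, ZMod.card]
      simp
    rw [e1]
    have e2 : ∑ g : G, 1 = ∑ g : G, ∑ T ∈ 𝒯, ∑ t ∈ T, (if B T (g - q t) then 1 else 0) :=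
      Finset.sum_congr rfl (fun g _ => (hone g).symm)
    rw [e2, Finset.sum_comm]
    apply Finset.sum_congr rfl
    intro T _
    rw [Finset.sum_comm]
    have e3 : ∀ t ∈ T, ∑ g : G, (if B T (g - q t) then 1 else 0) =
        (Finset.univ.filter (fun g : G => B T g)).card := by
      intro t _
      rw [Finset.card_filter]
      exact Fintype.sum_equiv (Equiv.subRight (q t)) _ _ (fun g => rfl)
    rw [Finset.sum_congr rfl e3, Finset.sum_const, smul_eq_mul]
  have heven : Even (p * p) := by
    rw [htot]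
    apply Finset.even_sum
    intro T hT
    by_cases ho : Odd T.card
    · have hempty := hc T hT ho
      have : (Finset.univ.filter (fun g : G => B T g)).card = 0 := by
        rw [Finset.card_eq_zero, Finset.filter_eq_empty_iff]
        rintro g _ ⟨v, _, hv⟩
        rw [hempty] at hv
        exact hv
      rw [this, mul_zero]
      exact Even.zero
    · rw [Nat.not_odd_iff_even] at ho
      exact ho.mul_right _
  have hodd : Odd (p * p) := hp.mul hp
  exact (Nat.not_even_iff_odd.2 hodd) heven

end Pool.Agent.Helper948.Tile
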