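import Mathlib
import Pool.Agent.Helper948.Tile.Sets

set_option autoImplicit false

namespace Pool.Agent.Helper948.Tile

/-- the mesh vector to the east -/
def dx (K : ℕ) : ℤ × ℤ := (18 * (K : ℤ) + 7, 0)

/-- the mesh vector to the north -/
def dy (K : ℕ) : ℤ × ℤ := (0, 18 * (K : ℤ) + 7)

variable {K : ℕ} {W : List (ℕ × ℕ × ℕ × ℕ)} {A : Finset (ℤ × ℤ) → Set (ℤ × ℤ)}

/-- The tile with colours `t` is placed at `g`. -/
def Pl (K : ℕ) (W : List (ℕ × ℕ × ℕ × ℕ)) (A : Finset (ℤ × ℤ) → Set (ℤ × ℤ))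
    (t : ℕ × ℕ × ℕ × ℕ) (g : ℤ × ℤ) : Prop :=
  t ∈ W ∧ g ∈ A (toF (tlL K t))

theorem cover_uniq (hA : Cover (tset K W : Set (Finset (ℤ × ℤ))) A) {u g1 g2 : ℤ × ℤ}
    {T1 T2 : Finset (ℤ × ℤ)} (a1 : T1 ∈ tset K W) (a2 : g1 ∈ A T1) (a3 : u - g1 ∈ T1)
    (b1 : T2 ∈ tset K W) (b2 : g2 ∈ A T2) (b3 : u - g2 ∈ T2) : g1 = g2 ∧ T1 = T2 := by
  have := (hA u).unique (y₁ := (g1, T1)) (y₂ := (g2, T2)) ⟨a1, a2, a3⟩ ⟨b1, b2, b3⟩
  exact Prod.mk.inj this

theorem Pl.mem {t : ℕ × ℕ × ℕ × ℕ} {g : ℤ × ℤ} (h : Pl K W A t g) :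
    toF (tlL K t) ∈ tset K W := (mem_tset K W _).2 (Or.inr ⟨t, h.1, rfl⟩)

theorem hole_cover (hW : ∀ t ∈ W, Bdd K t) (hA : Cover (tset K W : Set (Finset (ℤ × ℤ))) A)
    {e n w s : ℕ} {g : ℤ × ℤ} (h : Pl K W A (e, n, w, s) g) {hx hy : ℤ}
    (hh : HoleE K e hx hy ∨ HoleN K n hx hy) (hno : ¬ Cell K e n w s hx hy) :
    ∃ e' n' w' s', (HoleE K e hx hy ∧ w' = e ∧ Pl K W A (e', n', w', s') (g + dx K)) ∨
      (HoleN K n hx hy ∧ s' = n ∧ Pl K W A (e', n', w', s') (g + dy K)) := by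
  have hb := hW _ h.1
  obtain ⟨⟨g', T'⟩, ⟨hT, hg', hu⟩, -⟩ := hA (g + (hx, hy))
  simp only at hT hg' hu
  have bad : ∀ a b : ℤ, Cell K e n w s (hx + a) (hy + b) →
      g + (hx, hy) + (a, b) - g' ∈ T' → False := by
    intro a b h1 h2
    have h3 : g + (hx, hy) + (a, b) - g = (hx + a, hy + b) := by
      ext <;> simp <;> ring
    have := cover_uniq hA h.mem h.2 (by rw [h3, mem_tl hb]; exact h1) hT hg' h2
    obtain ⟨rfl, rfl⟩ := this
    apply hno
    rw [← mem_tl hb]
    simpa using hu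
  rcases (mem_tset K W T').1 hT with ⟨l, hl, rfl⟩ | ⟨⟨e', n', w', s'⟩, ht', rfl⟩
  · exfalso
    obtain ⟨b, hb1, hb2, hb3⟩ := fil_nbr l hl _ hu
    refine bad (b - (g + (hx, hy) - g')).1 (b - (g + (hx, hy) - g')).2 ?_ ?_
    · refine hole_nbr w s hb.1 hb.2.1 hh _ _ hb3 ?_
      by_contra hc
      push Not at hc
      apply hb2
      rw [← sub_eq_zero]
      ext
      · exact hc.1
      · exact hc.2
    · have : g + (hx, hy) + ((b - (g + (hx, hy) - g')).1, (b - (g + (hx, hy) - g')).2) - g' = b := by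
        ext <;> simp <;> ring
      rw [this]
      exact hb1
  · have hb' := hW _ ht'
    obtain ⟨x, y, exy⟩ : ∃ x y, g + (hx, hy) - g' = (x, y) := ⟨_, _, rfl⟩
    rw [exy, mem_tl hb'] at hu
    have hf := fit (K := K) (n := n) (w := w) (s := s) hb.1 hb.2.1 hb'.1 hb'.2.1 hb'.2.2.1
      hb'.2.2.2 hh hu (by
        intro a b h1 h2
        refine bad a b h1 ?_
        have : g + (hx, hy) + (a, b) - g' = (x + a, y + b) := by
          have : g + (hx, hy) + (a, b) - g' = (g + (hx, hy) - g') + (a, b) := by abel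
          rw [this, exy]
          rfl
        rw [this, mem_tl hb']
        exact h2)
    refine ⟨e', n', w', s', ?_⟩
    have ex : g.1 + hx - g'.1 = x := congrArg Prod.fst exy
    have ey : g.2 + hy - g'.2 = y := congrArg Prod.snd exy
    rcases hf with ⟨f1, f2, f3, f4⟩ | ⟨f1, f2, f3, f4⟩
    · left
      refine ⟨f1, f2, ht', ?_⟩
      have : g + dx K = g' := by
        ext
        · simp only [Prod.fst_add, dx]
          omega
        · simp only [Prod.snd_add, dx]
          omega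
      rw [this]
      exact hg'
    · right
      refine ⟨f1, f2, ht', ?_⟩
      have : g + dy K = g' := by
        ext
        · simp only [Prod.fst_add, dy]
          omega
        · simp only [Prod.snd_add, dy]
          omega
      rw [this]
      exact hg'

/-- demand to the east -/
theorem demE (hW : ∀ t ∈ W, Bdd K t) (hA : Cover (tset K W : Set (Finset (ℤ × ℤ))) A)
    {e n w s : ℕ} {g : ℤ × ℤ} (h : Pl K W A (e, n, w, s) g) (he : 0 < e) :
    ∃ e' n' s', Pl K W A (e', n', e, s') (g + dx K) := by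
  have hb := hW _ h.1
  obtain ⟨b1, b2, b3, b4⟩ := hb
  simp only at b1 b2 b3 b4
  have hh : HoleE K e (18 * K + 4 + 6 * e) (24 * K + 10) := by
    unfold HoleE
    omega
  obtain ⟨e', n', w', s', ⟨f1, rfl, f3⟩ | ⟨f1, f2, f3⟩⟩ := hole_cover hW hA h (Or.inl hh) (by
    unfold Cell Body HoleE HoleN ToothE ToothN
    omega)
  · exact ⟨e', n', s', f3⟩
  · exfalso
    unfold HoleN at f1
    omega

/-- demand to the north -/
theorem demN (hW : ∀ t ∈ W, Bdd K t) (hA : Cover (tset K W : Set (Finset (ℤ × ℤ))) A)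
    {e n w s : ℕ} {g : ℤ × ℤ} (h : Pl K W A (e, n, w, s) g) (hn : 0 < n) :
    ∃ e' n' w', Pl K W A (e', n', w', n) (g + dy K) := by
  have hb := hW _ h.1
  obtain ⟨b1, b2, b3, b4⟩ := hb
  simp only at b1 b2 b3 b4
  have hh : HoleN K n (18 * K + 7 + 6 * n) (24 * K + 10) := by
    unfold HoleN
    omega
  obtain ⟨e', n', w', s', ⟨f1, f2, f3⟩ | ⟨f1, rfl, f3⟩⟩ := hole_cover hW hA h (Or.inr hh) (by
    unfold Cell Body HoleE HoleN ToothE ToothN
    omega)
  · exfalso
    unfold HoleE at f1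
    omega
  · exact ⟨e', n', w', f3⟩

/-- exclusivity -/
theorem excl (hW : ∀ t ∈ W, Bdd K t) (hA : Cover (tset K W : Set (Finset (ℤ × ℤ))) A)
    {e n w s e' n' w' s' : ℕ} {g : ℤ × ℤ} (h : Pl K W A (e, n, w, s) g)
    (h' : Pl K W A (e', n', w', s') g) (x y : ℤ) :
    Cell K e n w s x y ↔ Cell K e' n' w' s' x y := by
  have hb := hW _ h.1
  have hb' := hW _ h'.1
  have c1 : Cell K e n w s (18 * K + 8) (18 * K + 9) := by
    unfold Cell Body HoleE HoleN
    omega
  have c2 : Cell K e' n' w' s' (18 * K + 8) (18 * K + 9) := by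
    unfold Cell Body HoleE HoleN
    omega
  have := cover_uniq hA (u := g + (18 * (K : ℤ) + 8, 18 * (K : ℤ) + 9)) h.mem h.2
    (by rw [add_sub_cancel_left, mem_tl hb]; exact c1) h'.mem h'.2
    (by rw [add_sub_cancel_left, mem_tl hb']; exact c2)
  rw [← mem_tl hb, ← mem_tl hb', this.2]

/-- matching to the east -/
theorem matE (hW : ∀ t ∈ W, Bdd K t) (hA : Cover (tset K W : Set (Finset (ℤ × ℤ))) A)
    {e n w s e' n' w' s' : ℕ} {g : ℤ × ℤ} (h : Pl K W A (e, n, w, s) g)
    (h' : Pl K W A (e', n', w', s') (g + dx K)) : e = w' := by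
  have hb := hW _ h.1
  have hb' := hW _ h'.1
  have ⟨b1, b2, b3, b4⟩ := hb
  have ⟨c1, c2, c3, c4⟩ := hb'
  simp only at b1 b2 b3 b4 c1 c2 c3 c4
  rcases Nat.eq_zero_or_pos w' with hw' | hw'
  · rcases Nat.eq_zero_or_pos e with he | he
    · omega
    · exfalso
      obtain ⟨e'', n'', s'', h''⟩ := demE hW hA h he
      have := (excl hW hA h'' h' (6 * e - 3) (24 * K + 10)).1 (by
        right; left
        unfold ToothE
        omega)
      unfold Cell Body HoleE HoleN ToothE ToothN at this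
      omega
  · have h1 : Cell K e' n' w' s' (6 * w' - 3) (24 * K + 10) := by
      right; left
      unfold ToothE
      omega
    have h2 : ¬ Cell K e n w s (18 * K + 7 + (6 * w' - 3)) (24 * K + 10) := by
      intro hc
      have := cover_uniq hA (u := g + (18 * (K : ℤ) + 7 + (6 * w' - 3), 24 * (K : ℤ) + 10))
        h.mem h.2 (by rw [add_sub_cancel_left, mem_tl hb]; exact hc) h'.mem h'.2 (by
          have : g + (18 * (K : ℤ) + 7 + (6 * w' - 3), 24 * (K : ℤ) + 10) -
              (g + dx K) = (6 * (w' : ℤ) - 3, 24 * (K : ℤ) + 10) := by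
            ext <;> simp [dx]
          rw [this, mem_tl hb']
          exact h1)
      have h3 := congrArg Prod.fst this.1
      simp only [Prod.fst_add, dx] at h3
      omega
    have h4 := hole_of_not (K := K) (e := e) (n := n) (w := w) (s := s) (by omega) (by omega)
      (by omega) h2
    unfold HoleE HoleN at h4
    omega

/-- matching to the north -/
theorem matN (hW : ∀ t ∈ W, Bdd K t) (hA : Cover (tset K W : Set (Finset (ℤ × ℤ))) A)
    {e n w s e' n' w' s' : ℕ} {g : ℤ × ℤ} (h : Pl K W A (e, n, w, s) g)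
    (h' : Pl K W A (e', n', w', s') (g + dy K)) : n = s' := by
  have hb := hW _ h.1
  have hb' := hW _ h'.1
  have ⟨b1, b2, b3, b4⟩ := hb
  have ⟨c1, c2, c3, c4⟩ := hb'
  simp only at b1 b2 b3 b4 c1 c2 c3 c4
  rcases Nat.eq_zero_or_pos s' with hw' | hw'
  · rcases Nat.eq_zero_or_pos n with he | he
    · omega
    · exfalso
      obtain ⟨e'', n'', s'', h''⟩ := demN hW hA h he
      have := (excl hW hA h'' h' (18 * K + 7 + 6 * n) (6 * K + 3)).1 (by
        right; right
        unfold ToothN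
        omega)
      unfold Cell Body HoleE HoleN ToothE ToothN at this
      omega
  · have h1 : Cell K e' n' w' s' (18 * K + 7 + 6 * s') (6 * K + 3) := by
      right; right
      unfold ToothN
      omega
    have h2 : ¬ Cell K e n w s (18 * K + 7 + 6 * s') (18 * K + 7 + (6 * K + 3)) := by
      intro hc
      have := cover_uniq hA (u := g + (18 * (K : ℤ) + 7 + 6 * s', 18 * (K : ℤ) + 7 + (6 * K + 3)))
        h.mem h.2 (by rw [add_sub_cancel_left, mem_tl hb]; exact hc) h'.mem h'.2 (by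
          have : g + (18 * (K : ℤ) + 7 + 6 * s', 18 * (K : ℤ) + 7 + (6 * K + 3)) -
              (g + dy K) = (18 * (K : ℤ) + 7 + 6 * s', 6 * (K : ℤ) + 3) := by
            ext <;> simp [dy]
          rw [this, mem_tl hb']
          exact h1)
      have h3 := congrArg Prod.snd this.1
      simp only [Prod.snd_add, dy] at h3
      omega
    have h4 := hole_of_not (K := K) (e := e) (n := n) (w := w) (s := s) (by omega) (by omega)
      (by omega) h2
    unfold HoleE HoleN at h4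
    omega

end Pool.Agent.Helper948.Tile
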