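import Mathlib
import Pool.Agent.Helper948.Tile.TM

set_option autoImplicit false
set_option linter.unusedSectionVars false

namespace Pool.Agent.Helper948.Tile

open Turing

variable {Γ Λ : Type} [Inhabited Γ] [Inhabited Λ]

theorem reaches_seq {σ : Type} (f : σ → Option σ) (a b : σ)
    (h : StateTransition.Reaches f a b) : ∃ (T : ℕ) (c : ℕ → σ), c 0 = a ∧ c T = b ∧
      ∀ k, k < T → f (c k) = some (c (k + 1)) := by
  induction h with
  | refl => exact ⟨0, fun _ => a, rfl, rfl, fun k hk => by omega⟩
  | tail h1 h2 ih =>
    rename_i b' c'
    obtain ⟨T, c, g1, g2, g3⟩ := ih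
    refine ⟨T + 1, fun k => if k ≤ T then c k else c', ?_, ?_, ?_⟩
    · simp [g1]
    · simp
    · intro k hk
      by_cases hkT : k < T
      · simp only
        rw [if_pos (by omega), if_pos (by omega)]
        exact g3 k hkT
      · have : k = T := by omega
        subst this
        simp only [le_refl, if_true]
        rw [if_neg (by omega), g2]
        exact h2

/-- positions of the head -/
def posn (M : TM0.Machine Γ Λ) (c : ℕ → TM0.Cfg Γ Λ) (p0 : ℕ) : ℕ → ℕ
  | 0 => p0
  | k + 1 => match M (c k).q (c k).Tape.head with
    | some (_, .move .right) => posn M c p0 k + 1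
    | some (_, .move .left) => posn M c p0 k - 1
    | _ => posn M c p0 k

theorem posn_bd (M : TM0.Machine Γ Λ) (c : ℕ → TM0.Cfg Γ Λ) (p0 k : ℕ) :
    p0 ≤ posn M c p0 k + k ∧ posn M c p0 k ≤ p0 + k := by
  induction k with
  | zero => simp [posn]
  | succ k ih =>
    unfold posn
    split <;> omega

/-- horizontal colours of the array -/
def hcol (M : TM0.Machine Γ Λ) (c : ℕ → TM0.Cfg Γ Λ) (p0 len T : ℕ) (x y : ℕ) : HC Λ :=
  if y = 0 then .init (min (x + 1 - p0) len)
  else if y = T + 1 then .tp
  else match M (c (y - 1)).q (c (y - 1)).Tape.head with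
    | some (q', .move .right) => if x = posn M c p0 (y - 1) then .mr q' else .m0
    | some (q', .move .left) => if x + 1 = posn M c p0 (y - 1) then .ml q' else .m0
    | _ => .m0

/-- the absolute tape -/
def absT (M : TM0.Machine Γ Λ) (c : ℕ → TM0.Cfg Γ Λ) (p0 k : ℕ) (z : ℕ) : Γ :=
  (c k).Tape.nth ((z : ℤ) - posn M c p0 k)

/-- vertical colours of the array -/
def vcol (M : TM0.Machine Γ Λ) (c : ℕ → TM0.Cfg Γ Λ) (p0 W : ℕ) (x y : ℕ) : VC Γ Λ :=
  cont (c y).q (absT M c p0 y) (posn M c p0 y) W x

theorem exists_array (M : TM0.Machine Γ Λ) (l : List Γ) (hl : 0 < l.length)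
    (hh : (StateTransition.eval (TM0.step M) (TM0.init l)).Dom) :
    ∃ (W T : ℕ) (H : ℕ → ℕ → HC Λ) (V : ℕ → ℕ → VC Γ Λ), ∀ x y, x ≤ W → y ≤ T →
      WT M l (if x < W then some (H x y) else none) (if y < T then some (V x y) else none)
        (if 0 < x then some (H (x - 1) y) else none)
        (if 0 < y then some (V x (y - 1)) else none) := by
  rw [Part.dom_iff_mem] at hh
  obtain ⟨b, hb⟩ := hh
  rw [StateTransition.mem_eval] at hb
  obtain ⟨hb1, hb2⟩ := hb
  obtain ⟨T, c, hc0, hcT, hcs⟩ := reaches_seq _ _ _ hb1
  obtain ⟨p0, hp0⟩ : ∃ p0, p0 = T + 1 := ⟨_, rfl⟩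
  obtain ⟨W, hW⟩ : ∃ W, W = 2 * T + l.length + 3 := ⟨_, rfl⟩
  refine ⟨W, T + 1, hcol M c p0 l.length T, vcol M c p0 W, ?_⟩
  have hbd := fun k => posn_bd M c p0 k
  have hhead : ∀ k, absT M c p0 k (posn M c p0 k) = (c k).Tape.head := by
    intro k
    unfold absT
    rw [sub_self, Tape.nth_zero]
  intro x y hx hy
  by_cases hy0 : y = 0
  · subst hy0
    rw [if_pos (show 0 < T + 1 by omega), if_neg (lt_irrefl 0)]
    have hv : vcol M c p0 W x 0 = if x = 0 then .lb else if x = W then .rb
        else if x = p0 then .hd default (l.getI 0)
        else .sy (if x < p0 then default else l.getI (x - p0)) := by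
      have hr := init_rep (Λ := Λ) l p0
      have e1 : ∀ z, absT M c p0 0 z = if z < p0 then default else l.getI (z - p0) := by
        intro z
        have := hr z
        rw [← hc0] at this
        exact this
      unfold vcol cont
      rw [e1, e1]
      have e2 : (c 0).q = default := by rw [hc0]; rfl
      have e3 : posn M c p0 0 = p0 := rfl
      rw [e2, e3, Nat.sub_self, if_neg (lt_irrefl p0)]
    have hh : ∀ u, hcol M c p0 l.length T u 0 = .init (min (u + 1 - p0) l.length) := by
      intro u
      simp [hcol]
    rw [hv, hh, hh]
    by_cases hx0 : x = 0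
    · subst hx0
      rw [if_pos (by omega), if_neg (lt_irrefl 0), if_pos rfl]
      have : min (0 + 1 - p0) l.length = 0 := by omega
      rw [this]
      exact WT.corner
    rw [if_pos (show 0 < x by omega), if_neg hx0, show x - 1 + 1 - p0 = x - p0 by omega]
    by_cases hxW : x = W
    · subst hxW
      rw [if_neg (lt_irrefl _), if_pos rfl]
      have : min (x - p0) l.length = l.length := by omega
      rw [this]
      exact WT.endR
    rw [if_pos (show x < W by omega), if_neg hxW]
    by_cases hxp : x = p0
    · subst hxp
      rw [if_pos rfl]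
      have e1 : min (x + 1 - x) l.length = 1 := by omega
      have e2 : min (x - x) l.length = 0 := by omega
      rw [e1, e2]
      exact WT.first
    rw [if_neg hxp]
    by_cases hxl : x < p0
    · rw [if_pos hxl]
      have e1 : min (x + 1 - p0) l.length = 0 := by omega
      have e2 : min (x - p0) l.length = 0 := by omega
      rw [e1, e2]
      exact WT.blankL
    rw [if_neg hxl]
    by_cases hxr : x - p0 < l.length
    · have e1 : min (x + 1 - p0) l.length = x - p0 + 1 := by omega
      have e2 : min (x - p0) l.length = x - p0 := by omega
      rw [e1, e2]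
      exact WT.sym (x - p0) (by omega) hxr
    · have e1 : min (x + 1 - p0) l.length = l.length := by omega
      have e2 : min (x - p0) l.length = l.length := by omega
      have e3 : l.getI (x - p0) = default := List.getI_eq_default _ (by omega)
      rw [e1, e2, e3]
      exact WT.blankR
  by_cases hyT : y = T + 1
  · subst hyT
    rw [if_neg (lt_irrefl _), if_pos (show 0 < T + 1 by omega), Nat.add_sub_cancel]
    have hh : ∀ u, hcol M c p0 l.length T u (T + 1) = .tp := by
      intro u
      simp [hcol]
    rw [hh, hh]
    have hhalt : M (c T).q (absT M c p0 T (posn M c p0 T)) = none := by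
      rw [hhead, hcT]
      obtain ⟨q, Tp⟩ := b
      have : TM0.step M ⟨q, Tp⟩ = (M q Tp.head).map fun r => ⟨r.1, match r.2 with
        | TM0.Stmt.move d => Tp.move d
        | TM0.Stmt.write a => Tp.write a⟩ := rfl
      rw [this, Option.map_eq_none_iff] at hb2
      exact hb2
    have hbT := hbd T
    unfold vcol cont
    by_cases hx0 : x = 0
    · subst hx0
      rw [if_pos (by omega), if_neg (lt_irrefl 0), if_pos rfl]
      exact WT.topL
    rw [if_pos (show 0 < x by omega), if_neg hx0]
    by_cases hxW : x = W
    · subst hxW
      rw [if_neg (lt_irrefl _), if_pos rfl]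
      exact WT.topR
    rw [if_pos (show x < W by omega), if_neg hxW]
    by_cases hxp : x = posn M c p0 T
    · rw [if_pos hxp]
      exact WT.topH _ _ hhalt
    · rw [if_neg hxp]
      exact WT.topS _
  · obtain ⟨k, rfl⟩ : ∃ k, y = k + 1 := ⟨y - 1, by omega⟩
    have hk : k < T := by omega
    rw [if_pos (show k + 1 < T + 1 by omega), if_pos (show 0 < k + 1 by omega),
      Nat.add_sub_cancel]
    have hst := hcs k hk
    have hb1 := hbd k
    have hb2 := hbd (k + 1)
    have hh : ∀ u, hcol M c p0 l.length T u (k + 1) =
        match M (c k).q (c k).Tape.head with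
        | some (q', .move .right) => if u = posn M c p0 k then .mr q' else .m0
        | some (q', .move .left) => if u + 1 = posn M c p0 k then .ml q' else .m0
        | _ => .m0 := by
      intro u
      unfold hcol
      rw [if_neg (by omega), if_neg (by omega), Nat.add_sub_cancel]
    have hhd := hhead k
    have hpos : posn M c p0 (k + 1) = match M (c k).q (c k).Tape.head with
        | some (_, .move .right) => posn M c p0 k + 1
        | some (_, .move .left) => posn M c p0 k - 1
        | _ => posn M c p0 k := rfl
    rw [hh, hh]
    unfold vcol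
    generalize hck1 : c (k + 1) = c1 at *
    have hF1 : ∀ z, absT M c p0 (k + 1) z = c1.Tape.nth ((z : ℤ) - posn M c p0 (k + 1)) := by
      intro z
      unfold absT
      rw [hck1]
    have hF0 : ∀ z, absT M c p0 k z = (c k).Tape.nth ((z : ℤ) - posn M c p0 k) := fun z => rfl
    generalize hck : c k = c0 at *
    obtain ⟨q, Tp⟩ := c0
    have hstep : TM0.step M ⟨q, Tp⟩ = (M q Tp.head).map fun r => ⟨r.1, match r.2 with
        | TM0.Stmt.move d => Tp.move d
        | TM0.Stmt.write a => Tp.write a⟩ := rfl
    rw [hstep] at hst
    simp only at hpos hF0 hhd ⊢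
    generalize hF0n : absT M c p0 k = F0 at *
    generalize hF1n : absT M c p0 (k + 1) = F1 at *
    generalize hP0n : posn M c p0 k = P0 at *
    generalize hP1n : posn M c p0 (k + 1) = P1 at *
    rcases hM : M q Tp.head with _ | ⟨q', st⟩
    · rw [hM] at hst
      simp at hst
    rw [hM] at hst hpos
    simp only [Option.map_some, Option.some.injEq] at hst
    rcases st with d | b'
    · rcases d with _ | _
      · -- left
        simp only at hst hpos ⊢
        subst hst
        subst hpos
        have hF : ∀ z, F1 z = F0 z := by
          intro z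
          rw [hF1, hF0]
          change (Tp.move .left).nth _ = _
          rw [Tape.move_left_nth]
          congr 1
          omega
        have hFF : F1 = F0 := funext hF
        rw [hFF]
        unfold cont
        by_cases hx0 : x = 0
        · subst hx0
          rw [if_pos (by omega), if_neg (lt_irrefl 0), if_pos rfl, if_pos rfl,
            if_neg (by omega)]
          exact WT.midL
        rw [if_pos (show 0 < x by omega), if_neg hx0, if_neg hx0,
          show x - 1 + 1 = x by omega]
        by_cases hxW : x = W
        · subst hxW
          rw [if_neg (lt_irrefl _), if_pos rfl, if_pos rfl, if_neg (by omega)]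
          exact WT.midR
        rw [if_pos (show x < W by omega), if_neg hxW, if_neg hxW]
        by_cases hxp : x = P0
        · subst hxp
          rw [if_pos rfl, if_pos rfl, if_neg (by omega), if_neg (by omega)]
          exact WT.mvL _ _ _ (by rw [hhd]; exact hM)
        · rw [if_neg hxp, if_neg hxp]
          by_cases hxq : x + 1 = P0
          · rw [if_pos hxq, if_pos (by omega), show P0 - 1 = x by omega]
            exact WT.inR _ _
          · rw [if_neg hxq, if_neg (by omega)]
            exact WT.keep _
      · -- right
        simp only at hst hpos ⊢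
        subst hst
        subst hpos
        have hF : ∀ z, F1 z = F0 z := by
          intro z
          rw [hF1, hF0]
          change (Tp.move .right).nth _ = _
          rw [Tape.move_right_nth]
          congr 1
          push_cast
          ring
        have hFF : F1 = F0 := funext hF
        rw [hFF]
        unfold cont
        by_cases hx0 : x = 0
        · subst hx0
          rw [if_pos (by omega), if_neg (lt_irrefl 0), if_pos rfl, if_pos rfl,
            if_neg (by omega)]
          exact WT.midL
        rw [if_pos (show 0 < x by omega), if_neg hx0, if_neg hx0]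
        by_cases hxW : x = W
        · subst hxW
          rw [if_neg (lt_irrefl _), if_pos rfl, if_pos rfl, if_neg (by omega)]
          exact WT.midR
        rw [if_pos (show x < W by omega), if_neg hxW, if_neg hxW]
        by_cases hxp : x = P0
        · subst hxp
          rw [if_pos rfl, if_pos rfl, if_neg (by omega), if_neg (by omega)]
          exact WT.mvR _ _ _ (by rw [hhd]; exact hM)
        · rw [if_neg hxp, if_neg hxp]
          by_cases hxq : x = P0 + 1
          · rw [if_pos hxq, if_pos (show x - 1 = P0 by omega), ← hxq]
            exact WT.inL _ _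
          · rw [if_neg hxq, if_neg (show ¬ x - 1 = P0 by omega)]
            exact WT.keep _
    · -- write
      simp only at hst hpos ⊢
      subst hst
      rw [hpos] at hF1
      rw [hpos]
      clear hpos
      have hF : ∀ z, F1 z = if z = P0 then b' else F0 z := by
        intro z
        rw [hF1, hF0]
        change (Tp.write b').nth _ = _
        rw [Tape.write_nth]
        by_cases hz : z = P0
        · rw [if_pos hz, if_pos (by omega)]
        · rw [if_neg hz, if_neg (by omega)]
      unfold cont
      rw [hF, hF, if_pos rfl]
      by_cases hx0 : x = 0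
      · subst hx0
        rw [if_pos (by omega), if_neg (lt_irrefl 0), if_pos rfl, if_pos rfl]
        exact WT.midL
      rw [if_pos (show 0 < x by omega), if_neg hx0, if_neg hx0]
      by_cases hxW : x = W
      · subst hxW
        rw [if_neg (lt_irrefl _), if_pos rfl, if_pos rfl]
        exact WT.midR
      rw [if_pos (show x < W by omega), if_neg hxW, if_neg hxW]
      by_cases hxp : x = P0
      · subst hxp
        rw [if_pos rfl, if_pos rfl]
        exact WT.wr _ _ _ _ (by rw [hhd]; exact hM)
      · rw [if_neg hxp, if_neg hxp]
        rw [if_neg hxp]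
        exact WT.keep _

end Pool.Agent.Helper948.Tile
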