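import Mathlib
import Pool.Agent.Helper948.Tile.Enc
import Pool.Agent.Helper948.Tile.Mark
import Pool.Agent.Helper948.Tile.Fill
import Pool.Agent.Helper948.Tile.Sound
import Pool.Agent.Helper948.Tile.Parity
import Pool.Agent.Helper948.Tile.TMc

set_option autoImplicit false
set_option linter.unusedSectionVars false

namespace Pool.Agent.Helper948.Tile

open Turing

theorem tileSet_eq (n K : ℕ) (W : List (ℕ × ℕ × ℕ × ℕ)) :
    tileSet (tilesN n K W) = {T' : Finset (Fin n → ℤ) | ∃ T ∈ tset K W, T' = T.image (emb n)} := by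
  classical
  have hl : ∀ l : List (ℕ × ℕ), (l.map (fun p => emb n ((p.1 : ℤ), (p.2 : ℤ)))).toFinset =
      (toF l).image (emb n) := by
    intro l
    ext g
    simp only [List.mem_toFinset, List.mem_map, Finset.mem_image, toF]
    constructor
    · rintro ⟨p, hp, rfl⟩
      exact ⟨_, ⟨p, hp, rfl⟩, rfl⟩
    · rintro ⟨_, ⟨p, hp, rfl⟩, rfl⟩
      exact ⟨p, hp, rfl⟩
  ext T'
  unfold tileSet tilesN tset
  simp only [Set.mem_ofPred_eq, List.mem_map, List.mem_toFinset]
  constructor
  · rintro ⟨_, ⟨l, hl1, rfl⟩, rfl⟩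
    exact ⟨_, ⟨l, hl1, rfl⟩, hl l⟩
  · rintro ⟨_, ⟨l, hl1, rfl⟩, rfl⟩
    exact ⟨_, ⟨l, hl1, rfl⟩, (hl l).symm⟩

theorem ne_nil_of_mem (n K : ℕ) (W : List (ℕ × ℕ × ℕ × ℕ)) (hW : ∀ t ∈ W, Bdd K t)
    (l : List (Fin n → ℤ)) (hl : l ∈ tilesN n K W) : l ≠ [] := by
  unfold tilesN tiles at hl
  rw [List.mem_map] at hl
  obtain ⟨l', hl', rfl⟩ := hl
  rw [List.mem_append, List.mem_map] at hl'
  intro h
  rw [List.map_eq_nil_iff] at h
  subst h
  rcases hl' with h | ⟨t, ht, h⟩
  · revert h
    decide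
  · have h1 : ((18 * K + 8, 18 * K + 9) : ℕ × ℕ) ∈ tlL K t := by
      rw [mem_tlL (hW t ht)]
      have := hW t ht
      obtain ⟨e, n, w, s⟩ := t
      rw [CN_iff]
      unfold Cell Body HoleE HoleN
      push_cast
      omega
    rw [h] at h1
    simp at h1

/-- The tiles tile the space. -/
theorem tiles_space (n : ℕ) (hn : 2 ≤ n) (K : ℕ) (W : List (ℕ × ℕ × ℕ × ℕ)) :
    TilesSpace (tileSet (tilesN n K W)) := by
  classical
  rw [tileSet_eq]
  let D : Finset (ℤ × ℤ) := {(0, 0), (1, 0)}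
  have hD : D ∈ tset K W := (mem_tset K W D).2 (Or.inl ⟨[(0, 0), (1, 0)], by decide, by decide⟩)
  refine ⟨fun T => {g | T = D.image (emb n) ∧ 2 ∣ g ⟨0, by omega⟩}, ?_⟩
  intro u
  have e0 : ∀ a b : ℤ, emb n (a, b) ⟨0, by omega⟩ = a := fun a b => by simp [emb]
  refine ⟨(u - emb n ((u ⟨0, by omega⟩) % 2, 0), D.image (emb n)), ⟨⟨D, hD, rfl⟩, ⟨rfl, ?_⟩, ?_⟩, ?_⟩
  · change 2 ∣ (u - emb n ((u ⟨0, by omega⟩) % 2, 0)) ⟨0, by omega⟩
    rw [Pi.sub_apply, e0]
    omega
  · simp only [sub_sub_cancel]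
    refine Finset.mem_image_of_mem _ ?_
    rcases Int.emod_two_eq_zero_or_one (u ⟨0, by omega⟩) with h | h
    · rw [h]
      simp [D]
    · rw [h]
      simp [D]
  · rintro ⟨g, T⟩ ⟨-, ⟨h1, h2⟩, h3⟩
    simp only at h1 h2 h3
    subst h1
    rw [Finset.mem_image] at h3
    obtain ⟨t, ht, h3⟩ := h3
    have hg : g = u - emb n t := by
      rw [h3]
      abel
    have ht' : t = (0, 0) ∨ t = (1, 0) := by
      simpa [D] using ht
    rw [Prod.mk.injEq]
    refine ⟨?_, rfl⟩
    rw [hg]
    rw [hg] at h2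
    rcases ht' with rfl | rfl
    · rw [Pi.sub_apply, e0] at h2
      have : (u ⟨0, by omega⟩) % 2 = 0 := by omega
      rw [this]
    · rw [Pi.sub_apply, e0] at h2
      have : (u ⟨0, by omega⟩) % 2 = 1 := by omega
      rw [this]

section

variable {Γ Λ : Type} [Inhabited Γ] [Inhabited Λ] {a b : ℕ} (eG : Γ ≃ Fin a) (eL : Λ ≃ Fin b)
  (M : TM0.Machine Γ Λ) (l : List Γ) (K : ℕ) (W : List (ℕ × ℕ × ℕ × ℕ))

theorem cd_inj {e e' : Option (HC Λ)} {n n' : Option (VC Γ Λ)} {w w' : Option (HC Λ)}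
    {s s' : Option (VC Γ Λ)} (h : cd eG eL e n w s = cd eG eL e' n' w' s') :
    e = e' ∧ n = n' ∧ w = w' ∧ s = s' := by
  unfold cd at h
  simp only [Prod.mk.injEq] at h
  exact ⟨oh_inj eL h.1, ov_inj eG eL h.2.1, oh_inj eL h.2.2.1, ov_inj eG eL h.2.2.2⟩

theorem halts_of_cont (hl : 0 < l.length)
    (hW : ∀ t, t ∈ W ↔ ∃ e n w s, WT M l e n w s ∧ t = cd eG eL e n w s)
    (hB : ∀ t ∈ W, Bdd K t) {n : ℕ} (hn : 2 ≤ n)
    (h : HasContTiling (tileSet (tilesN n K W))) :
    (StateTransition.eval (TM0.step M) (TM0.init l)).Dom := by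
  rw [tileSet_eq] at h
  obtain ⟨k, A, hA, hper⟩ := periodic_of_cont hn _ h
  obtain ⟨p, hp⟩ : ∃ p : ℕ, p = 3 ^ k := ⟨_, rfl⟩
  have hpz : (3 : ℤ) ^ k = (p : ℤ) := by rw [hp]; push_cast; rfl
  have hpodd : Odd p := by rw [hp]; exact (by decide : Odd 3).pow
  have hppos : 0 < p := by rw [hp]; positivity
  rw [hpz] at hper
  obtain ⟨T, hT, hodd, g0, hg0⟩ := exists_odd_tile _ A hA p hpodd hper
  -- the corner tile
  have hcorner : Pl K W A (cd eG eL (some (.init 0)) (some .lb) none none) g0 := by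
    rcases (mem_tset K W T).1 hT with ⟨l', hl', rfl⟩ | ⟨⟨e, m, w, s⟩, ht, rfl⟩
    · rw [fil_card l' hl'] at hodd
      exact absurd hodd (by decide)
    · have h2 := (card_tl (hB _ ht)).1 hodd
      obtain ⟨e1, m1, w1, s1, hwt, he⟩ := (hW _).1 ht
      have he' := he
      unfold cd at he'
      simp only [Prod.mk.injEq] at he'
      have hw1 : w1 = none := oh_inj eL (by rw [← he'.2.2.1, h2.1]; rfl)
      have hs1 : s1 = none := ov_inj eG eL (by rw [← he'.2.2.2, h2.2]; rfl)
      subst hw1 hs1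
      cases hwt with
      | corner =>
        rw [he] at ht hg0
        exact ⟨ht, hg0⟩
  -- periodicity
  have perX : ∀ (j : ℕ) (T : Finset (ℤ × ℤ)) (v : ℤ × ℤ), v ∈ A T → v + ((p : ℤ) * j, 0) ∈ A T := by
    intro j
    induction j with
    | zero =>
      intro T v hv
      have e1 : v + ((p : ℤ) * ((0 : ℕ) : ℤ), 0) = v := by ext <;> simp
      rw [e1]
      exact hv
    | succ j ih =>
      intro T v hv
      have h1 := (hper T _).1.1 (ih T v hv)
      have e1 : v + ((p : ℤ) * ((j + 1 : ℕ) : ℤ), 0) = v + ((p : ℤ) * j, 0) + ((p : ℤ), 0) := by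
        ext
        · simp only [Prod.fst_add]
          push_cast
          ring
        · simp
      rw [e1]
      exact h1
  have perY : ∀ (j : ℕ) (T : Finset (ℤ × ℤ)) (v : ℤ × ℤ), v ∈ A T → v + (0, (p : ℤ) * j) ∈ A T := by
    intro j
    induction j with
    | zero =>
      intro T v hv
      have e1 : v + (0, (p : ℤ) * ((0 : ℕ) : ℤ)) = v := by ext <;> simp
      rw [e1]
      exact hv
    | succ j ih =>
      intro T v hv
      have h1 := (hper T _).2.1 (ih T v hv)
      have e1 : v + (0, (p : ℤ) * ((j + 1 : ℕ) : ℤ)) = v + (0, (p : ℤ) * j) + (0, (p : ℤ)) := by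
        ext
        · simp
        · simp only [Prod.snd_add]
          push_cast
          ring
      rw [e1]
      exact h1
  -- the array
  let P : ℕ → ℕ → ℤ × ℤ := fun x y =>
    (g0.1 + (18 * (K : ℤ) + 7) * x, g0.2 + (18 * (K : ℤ) + 7) * y)
  have Px : ∀ x y, P x y + dx K = P (x + 1) y := by
    intro x y
    simp only [P, dx]
    ext
    · simp only [Prod.fst_add]
      push_cast
      ring
    · simp
  have Py : ∀ x y, P x y + dy K = P x (y + 1) := by
    intro x y
    simp only [P, dy]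
    ext
    · simp
    · simp only [Prod.snd_add]
      push_cast
      ring
  let R : ℕ → ℕ → Option (HC Λ) → Option (VC Γ Λ) → Option (HC Λ) → Option (VC Γ Λ) → Prop :=
    fun x y e m w s => Pl K W A (cd eG eL e m w s) (P x y)
  have hR : Arr M l R p := by
    refine ⟨?_, ?_, ?_, ?_, ?_, hppos, ?_, ?_, ?_⟩
    · intro x y e m w s h
      obtain ⟨e1, m1, w1, s1, hwt, he⟩ := (hW _).1 h.1
      obtain ⟨rfl, rfl, rfl, rfl⟩ := cd_inj eG eL he
      exact hwt
    · intro x y c m w s h
      obtain ⟨e', n', s', h'⟩ := demE hB hA h (ch_pos eL c)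
      obtain ⟨e1, m1, w1, s1, hwt, he⟩ := (hW _).1 h'.1
      have he' := he
      unfold cd at he'
      simp only [Prod.mk.injEq] at he'
      have hw1 : some c = w1 := oh_inj eL he'.2.2.1
      subst hw1
      refine ⟨e1, m1, s1, ?_⟩
      simp only [R]
      rw [← Px, ← he]
      exact h'
    · intro x y e c w s h
      obtain ⟨e', n', w', h'⟩ := demN hB hA h (cv_pos eG eL c)
      obtain ⟨e1, m1, w1, s1, hwt, he⟩ := (hW _).1 h'.1
      have he' := he
      unfold cd at he'
      simp only [Prod.mk.injEq] at he'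
      have hs1 : some c = s1 := ov_inj eG eL he'.2.2.2
      subst hs1
      refine ⟨e1, m1, w1, ?_⟩
      simp only [R]
      rw [← Py, ← he]
      exact h'
    · intro x y e m w s e' m' w' s' h h'
      simp only [R] at h h'
      rw [← Px] at h'
      exact oh_inj eL (matE hB hA h h')
    · intro x y e m w s e' m' w' s' h h'
      simp only [R] at h h'
      rw [← Py] at h'
      exact ov_inj eG eL (matN hB hA h h')
    · have : P 0 0 = g0 := by
        ext <;> simp [P]
      simp only [R]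
      rw [this]
      exact hcorner
    · have : P p 0 = g0 + ((p : ℤ) * ((18 * K + 7 : ℕ) : ℤ), 0) := by
        simp only [P]
        ext
        · simp only [Prod.fst_add]
          push_cast
          ring
        · simp
      simp only [R]
      rw [this]
      exact ⟨hcorner.1, perX _ _ _ hcorner.2⟩
    · have : P 0 p = g0 + (0, (p : ℤ) * ((18 * K + 7 : ℕ) : ℤ)) := by
        simp only [P]
        ext
        · simp
        · simp only [Prod.snd_add]
          push_cast
          ring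
      simp only [R]
      rw [this]
      exact ⟨hcorner.1, perY _ _ _ hcorner.2⟩
  exact hR.halts hl

theorem cont_of_halts (hl : 0 < l.length)
    (hW : ∀ t, t ∈ W ↔ ∃ e n w s, WT M l e n w s ∧ t = cd eG eL e n w s)
    (hB : ∀ t ∈ W, Bdd K t) {n : ℕ} (hn : 2 ≤ n)
    (h : (StateTransition.eval (TM0.step M) (TM0.init l)).Dom) :
    HasContTiling (tileSet (tilesN n K W)) := by
  rw [tileSet_eq]
  obtain ⟨X, T, H, V, harr⟩ := exists_array M l hl h
  refine lift_tiling hn _ (plane_tiling hn (tset K W)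
    (2 * ((18 * K + 7) * (X + 2) + (18 * K + 7) * (T + 2))) ?_)
  intro S hst hball
  refine tiled_cell (K := K) (X := X) (T := T) (H := fun x y => ch eL (H x y))
    (V := fun x y => cv eG eL (V x y)) hB ?_ (fun x y => ch_pos eL _) (fun x y => cv_pos eG eL _)
    S hst ?_
  · intro x y hx hy
    rw [hW]
    refine ⟨_, _, _, _, harr x y hx hy, ?_⟩
    unfold wq cd
    simp only [Prod.mk.injEq]
    refine ⟨?_, ?_, ?_, ?_⟩ <;> split_ifs <;> rfl
  · intro u hu
    have := PP_nm hu
    exact hball u (by omega)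

end

/-- The computable family of tile sets. -/
theorem family : ∃ (K : ℕ → ℕ) (W : ℕ → List (ℕ × ℕ × ℕ × ℕ)) (P : ℕ → Prop),
    Computable K ∧ Computable W ∧ ¬ ComputablePred P ∧ (∀ m, ∀ t ∈ W m, Bdd (K m) t) ∧
    ∀ m n, 2 ≤ n → (HasContTiling (tileSet (tilesN n (K m) (W m))) ↔ P m) := by
  classical
  obtain ⟨Λ, i1, i2, M, hM⟩ := Erode.exists_machine
  have fG : Finite (TM2to1.Γ' PartrecToTM2.K' (fun _ => PartrecToTM2.Γ')) := by
    have fK : Finite PartrecToTM2.K' := by
      refine Finite.of_injective (fun k : PartrecToTM2.K' => match k with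
        | .main => (0 : Fin 4) | .rev => 1 | .aux => 2 | .stack => 3) ?_
      intro a b h
      cases a <;> cases b <;> simp_all
    exact inferInstanceAs (Finite (Bool × (PartrecToTM2.K' → Option PartrecToTM2.Γ')))
  obtain ⟨a, ⟨eG⟩⟩ := Finite.exists_equiv_fin
    (TM2to1.Γ' PartrecToTM2.K' (fun _ => PartrecToTM2.Γ'))
  obtain ⟨b, ⟨eL⟩⟩ := Finite.exists_equiv_fin Λ
  obtain ⟨cst, hcst⟩ := exists_cst eG eL M (Erode.sym true .cons)
  let lm : ℕ → List (TM2to1.Γ' PartrecToTM2.K' (fun _ => PartrecToTM2.Γ')) := fun m =>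
    Erode.sym true .cons :: (PartrecToTM2.trNat m).reverse.map (Erode.sym false)
  let lw : ℕ → List ℕ := fun m => (lm m).map (fun x => cv eG eL (.sy x))
  have hlw : Computable lw := by
    have h1 := Erode.digits_computable (fun x => cv eG eL (.sy (Erode.sym false x)))
    have h2 := Primrec.list_reverse.to_comp.comp h1
    have h3 : Computable (fun v : List ℕ => cv eG eL (.sy (Erode.sym true .cons)) :: v) :=
      (Primrec.list_cons.comp (Primrec.const _) Primrec.id).to_comp
    refine (h3.comp h2).of_eq ?_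
    intro m
    simp only [lw, lm, List.map_cons, List.map_reverse, List.map_map]
    rfl
  let W : ℕ → List (ℕ × ℕ × ℕ × ℕ) := fun m => allW cst b (cv eG eL (.sy default)) (lw m)
  let K : ℕ → ℕ := fun m => bnd a b (lw m)
  have hW : ∀ m t, t ∈ W m ↔ ∃ e n w s, WT M (lm m) e n w s ∧ t = cd eG eL e n w s :=
    fun m t => mem_allW eG eL M (Erode.sym true .cons) cst hcst (lm m) rfl (lw m) rfl t
  have hB : ∀ m, ∀ t ∈ W m, Bdd (K m) t := by
    intro m t ht
    obtain ⟨e, n, w, s, h1, rfl⟩ := (hW m t).1 ht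
    exact WT_bd eG eL M (lm m) h1 (lw m) (by simp only [lw, List.length_map])
  refine ⟨K, W, fun m => (Erode.u m).Dom, ?_, ?_, Erode.u_not_computable, hB, ?_⟩
  · exact (bnd_pr a b).to_comp.comp hlw
  · exact (allW_pr cst b _).to_comp.comp hlw
  · intro m n hn
    change _ ↔ (Erode.u m).Dom
    rw [← hM m]
    have hlen : 0 < (lm m).length := by simp [lm]
    exact ⟨fun h => halts_of_cont eG eL M (lm m) (K m) (W m) hlen (hW m) (hB m) hn h,
      fun h => cont_of_halts eG eL M (lm m) (K m) (W m) hlen (hW m) (hB m) hn h⟩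

/-- No algorithm decides the existence of continuous tilings, even for tile sets which tile. -/
theorem undecidable (n : ℕ) (hn : 2 ≤ n) :
    ¬ ∃ φ : List (List (Fin n → ℤ)) →. Bool, Partrec φ ∧
      ∀ L, (∀ l ∈ L, l ≠ []) → TilesSpace (tileSet L) →
        (HasContTiling (tileSet L) → true ∈ φ L) ∧ (¬ HasContTiling (tileSet L) → false ∈ φ L) := by
  classical
  rintro ⟨φ, hφ, hdec⟩
  obtain ⟨K, W, P, hK, hW, hP, hB, hiff⟩ := family
  apply hP
  have hT : Computable (fun m => tilesN n (K m) (W m)) := (tilesN_pr n).to_comp.comp hK hW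
  have h1 : Partrec (fun m => φ (tilesN n (K m) (W m))) := hφ.comp hT
  have h2 : ∀ m, decide (P m) ∈ φ (tilesN n (K m) (W m)) := by
    intro m
    have := hdec (tilesN n (K m) (W m)) (fun l hl => ne_nil_of_mem n (K m) (W m) (hB m) l hl)
      (tiles_space n hn (K m) (W m))
    by_cases h : P m
    · rw [decide_eq_true h]
      exact this.1 ((hiff m n hn).2 h)
    · rw [decide_eq_false h]
      exact this.2 (fun hc => h ((hiff m n hn).1 hc))
  have h3 : Computable (fun m => decide (P m)) := by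
    refine h1.of_eq (fun m => ?_)
    exact Part.eq_some_iff.2 (h2 m)
  exact ComputablePred.computable_iff.2 ⟨_, h3, by
    funext m
    simp⟩

end Pool.Agent.Helper948.Tile
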